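import Pool.Agent.K1H15.K3.Blk

set_option autoImplicit false
set_option linter.unusedSectionVars false
set_option linter.unusedVariables false

/-!
# Families of blocks of spin type
-/

open Module

namespace Pool.Agent.K1H15.K3

open Pool.Agent.Y102.SP

variable {W : Type} [AddCommGroup W] [Module ℂ W] [FiniteDimensional ℂ W]

/-- All generators have the same colour. -/
def Single {N k : ℕ} (c : Fin N → Fin k) : Prop := ∀ i j, c i = c j

/-- All colours occur at least six times. -/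
def Big {N k : ℕ} (c : Fin N → Fin k) : Prop := ∀ i, 6 ≤ size c (c i)

/-- All colours occur three times. -/
def Small {N k : ℕ} (c : Fin N → Fin k) : Prop := ∀ s, size c s = 3

/-- Both of the same kind. -/
def Like {N k N' k' : ℕ} (c : Fin N → Fin k) (c' : Fin N' → Fin k') : Prop :=
  (Small c ∧ Small c') ∨ (Big c ∧ Big c')

section one

variable {𝔤 : Submodule ℂ (Module.End ℂ W)} {π : Module.End ℂ W} {N k : ℕ}
    {E : Fin N → Module.End ℂ W} {c : Fin N → Fin k} (h : Blk 𝔤 π E c)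
include h

theorem Blk.map_pS (s : Fin k) : (soC (fun i => cmp π (E i)) c).map
    (pS (fun i => cmp π (E i)) c s) = soS (fun i => cmp π (E i)) c s := by
  refine le_antisymm ?_ ?_
  · rintro _ ⟨x, hx, rfl⟩
    exact pS_mem h.ce hx
  · intro x hx
    exact ⟨x, soS_le s hx, pS_same h.ce hx⟩

theorem Blk.map_g_pS (s : Fin k) : 𝔤.map (pS (fun i => cmp π (E i)) c s ∘ₗ cmp π) =
    soS (fun i => cmp π (E i)) c s := by
  rw [Submodule.map_comp, h.map_g, h.map_pS]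

theorem Blk.exists_pair {s : Fin k} (hs : ∃ i, c i = s) : ∃ i j, i ≠ j ∧ c i = s ∧ c j = s := by
  obtain ⟨i, hi⟩ := hs
  have h1 := (h.good i).three
  unfold size at h1
  rw [hi] at h1
  obtain ⟨a, ha, b, hb, hab⟩ := Finset.one_lt_card.1 (lt_of_lt_of_le (by norm_num : 1 < 3) h1)
  exact ⟨a, b, hab, (Finset.mem_filter.1 ha).2, (Finset.mem_filter.1 hb).2⟩

/-- There are elements with nonzero part of a given colour. -/
theorem Blk.exists_el {s : Fin k} (hs : ∃ i, c i = s) : ∃ x ∈ 𝔤,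
    cmp π x ∈ soS (fun i => cmp π (E i)) c s ∧ cmp π x ≠ 0 := by
  have hnt := h.nontriv
  obtain ⟨i, j, hij, hi, hj⟩ := h.exists_pair hs
  obtain ⟨x, hx, hxe⟩ := h.img2 i j hij (hi.trans hj.symm)
  have h1 : cmp π x = cmp π (E i) * cmp π (E j) := by
    rw [← h.cmp_pi (h.comm x hx), hxe, h.cmp_prod]
  refine ⟨x, hx, ?_, ?_⟩
  · rw [h1]
    exact Submodule.subset_span ⟨i, j, hij, hi, hj, rfl⟩
  · rw [h1]
    exact ColMain_ne h.ce hij

theorem Blk.single_pS (hc : Single c) {s : Fin k} (hs : ∃ i, c i = s)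
    {x : Module.End ℂ (LinearMap.range π)} (hx : x ∈ soC (fun i => cmp π (E i)) c) :
    pS (fun i => cmp π (E i)) c s x = x := by
  refine pS_same h.ce ?_
  refine (Submodule.span_mono ?_) hx
  rintro _ ⟨i, j, hij, hcij, rfl⟩
  obtain ⟨i0, hi0⟩ := hs
  exact ⟨i, j, hij, (hc i i0).trans hi0, (hc j i0).trans hi0, rfl⟩

theorem Blk.finrank_big (hc : Big c) {s : Fin k} (hs : ∃ i, c i = s) :
    5 ≤ finrank ℂ (soS (fun i => cmp π (E i)) c s) := by
  have hnt := h.nontriv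
  obtain ⟨E', hE', hso, -, -⟩ := sub_fam h.ce s (c := c)
  obtain ⟨i, hi⟩ := hs
  have h1 := hc i
  rw [hi] at h1
  rw [← hso]
  have := dim_ge hE' (by omega)
  omega

theorem Blk.finrank_small (hc : Small c) (s : Fin k) :
    finrank ℂ (soS (fun i => cmp π (E i)) c s) ≤ 3 := by
  have hnt := h.nontriv
  obtain ⟨E', hE', hso, -, -⟩ := sub_fam h.ce s (c := c)
  rw [← hso]
  have key : ∀ (n : ℕ) (E' : Fin n → Module.End ℂ (LinearMap.range π)), n = 3 → CE E' →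
      finrank ℂ (soE E') ≤ 3 := by
    rintro n E' rfl hE'
    exact dim_le3 hE'
  exact key _ E' (hc s) hE'

end one

section fam

variable {𝔤 𝔥 D : Submodule ℂ (Module.End ℂ W)} {m : ℕ} {π : Fin m → Module.End ℂ W}
    {N k : Fin m → ℕ} {E : ∀ b, Fin (N b) → Module.End ℂ W} {c : ∀ b, Fin (N b) → Fin (k b)}

/-- The data of the family of blocks. -/
structure Fm (𝔤 𝔥 D : Submodule ℂ (Module.End ℂ W)) {m : ℕ} (π : Fin m → Module.End ℂ W)
    {N k : Fin m → ℕ} (E : ∀ b, Fin (N b) → Module.End ℂ W) (c : ∀ b, Fin (N b) → Fin (k b)) :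
    Prop where
  red : Red 𝔤 𝔥 D
  hg : ∀ x ∈ 𝔤, ∀ y ∈ 𝔤, x * y - y * x ∈ 𝔤
  blk : ∀ b, Blk 𝔤 (π b) (E b) (c b)
  dich : ∀ s t, s ≠ t → Like (c s) (c t) → Single (c t) ∨
    (∀ y ∈ 𝔥, cmp (π s) y = 0 → cmp (π t) y = 0) ∨
    ∀ x ∈ 𝔤, ∃ y ∈ 𝔥, cmp (π t) y = cmp (π t) x ∧ cmp (π s) y = 0

namespace Fm

variable (h : Fm 𝔤 𝔥 D π E c)
include h

/-- The homomorphisms to the simple factors. -/
noncomputable def f (h : Fm 𝔤 𝔥 D π E c) (β : Σ b, Fin (k b)) :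
    Module.End ℂ W →ₗ[ℂ] Module.End ℂ (LinearMap.range (π β.1)) :=
  pS (fun i => cmp (π β.1) (E β.1 i)) (c β.1) β.2 ∘ₗ cmp (π β.1)

theorem f_apply (β : Σ b, Fin (k b)) (x : Module.End ℂ W) :
    h.f β x = pS (fun i => cmp (π β.1) (E β.1 i)) (c β.1) β.2 (cmp (π β.1) x) := rfl

theorem gd : Gd 𝔤 𝔥 (fun β : Σ b, Fin (k b) => Module.End ℂ (LinearMap.range (π β.1))) h.f where
  le := h.red.le
  hg := h.hg
  hh := h.red.br
  hf := fun β x hx y hy => by
    have hb := h.blk β.1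
    rw [f_apply, hb.cmp_br hx hy, pS_br hb.ce (hb.cmp_mem hx) (hb.cmp_mem hy)]
    rfl
  surj := fun β x hx => by
    obtain ⟨y, hy, hyx⟩ := (h.blk β.1).surj h.red x hx
    exact ⟨y, hy, by rw [f_apply, f_apply, hyx]⟩
  simple := fun β J hJ hbr => by
    have hb := h.blk β.1
    have hnt := hb.nontriv
    have e : 𝔤.map (h.f β) = soS (fun i => cmp (π β.1) (E β.1 i)) (c β.1) β.2 := hb.map_g_pS β.2
    rw [e] at hJ hbr ⊢
    exact soS_simple hb.ce hb.good J hJ hbr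
  perf := fun β => by
    have hb := h.blk β.1
    have hnt := hb.nontriv
    have e : 𝔤.map (h.f β) = soS (fun i => cmp (π β.1) (E β.1 i)) (c β.1) β.2 := hb.map_g_pS β.2
    rw [e]
    exact soS_perfect hb.ce hb.good β.2

theorem f_ne {b : Fin m} {s : Fin (k b)} (hs : ∃ i, c b i = s) :
    ∃ x ∈ 𝔤, h.f ⟨b, s⟩ x ≠ 0 ∧ cmp (π b) x ∈ soS (fun i => cmp (π b) (E b i)) (c b) s := by
  obtain ⟨x, hx, h1, h2⟩ := (h.blk b).exists_el hs
  refine ⟨x, hx, ?_, h1⟩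
  rw [f_apply, pS_same (h.blk b).ce h1]
  exact h2

theorem range_f (b : Fin m) (s : Fin (k b)) : 𝔥.map (h.f ⟨b, s⟩) =
    soS (fun i => cmp (π b) (E b i)) (c b) s := by
  have e : 𝔤.map (h.f ⟨b, s⟩) = soS (fun i => cmp (π b) (E b i)) (c b) s := (h.blk b).map_g_pS s
  rw [← e]
  refine le_antisymm (Submodule.map_mono h.red.le) ?_
  rintro _ ⟨x, hx, rfl⟩
  obtain ⟨y, hy, hyx⟩ := h.gd.surj ⟨b, s⟩ x hx
  exact ⟨y, hy, hyx⟩

/-- Linked factors have the same dimension. -/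
theorem dim_eq {b b' : Fin m} {s : Fin (k b)} {s' : Fin (k b')}
    (l1 : ∀ y ∈ 𝔥, h.f ⟨b', s'⟩ y = 0 → h.f ⟨b, s⟩ y = 0)
    (l2 : ∀ y ∈ 𝔥, h.f ⟨b, s⟩ y = 0 → h.f ⟨b', s'⟩ y = 0) :
    finrank ℂ (soS (fun i => cmp (π b) (E b i)) (c b) s) =
      finrank ℂ (soS (fun i => cmp (π b') (E b' i)) (c b') s') := by
  have e1 := LinearMap.finrank_range_add_finrank_ker (h.f ⟨b, s⟩ ∘ₗ 𝔥.subtype)
  have e2 := LinearMap.finrank_range_add_finrank_ker (h.f ⟨b', s'⟩ ∘ₗ 𝔥.subtype)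
  rw [LinearMap.range_comp, Submodule.range_subtype, h.range_f b s] at e1
  rw [LinearMap.range_comp, Submodule.range_subtype, h.range_f b' s'] at e2
  have e3 : LinearMap.ker (h.f ⟨b, s⟩ ∘ₗ 𝔥.subtype) = LinearMap.ker (h.f ⟨b', s'⟩ ∘ₗ 𝔥.subtype) := by
    ext y
    exact ⟨fun hy => l2 y.1 y.2 hy, fun hy => l1 y.1 y.2 hy⟩
  rw [e3, ← e2] at e1
  exact Nat.add_right_cancel e1

/-- The dichotomy for blocks, second form. -/
theorem dich_single {s t : Fin m} (ht : Single (c t)) {τ : Fin (k t)} (hτ : ∃ i, c t i = τ)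
    {σ : Fin (k s)} (l1 : ∀ y ∈ 𝔥, h.f ⟨s, σ⟩ y = 0 → h.f ⟨t, τ⟩ y = 0) :
    ∀ y ∈ 𝔥, cmp (π s) y = 0 → cmp (π t) y = 0 := by
  intro y hy hy0
  have h1 := l1 y hy (by rw [f_apply, hy0, map_zero])
  rw [f_apply, (h.blk t).single_pS ht hτ ((h.blk t).cmp_mem (h.red.le hy))] at h1
  exact h1

theorem dich_like {s t : Fin m} (hst : s ≠ t) (hl : Like (c s) (c t)) {τ : Fin (k t)}
    (hτ : ∃ i, c t i = τ)
    {σ : Fin (k s)} (l1 : ∀ y ∈ 𝔥, h.f ⟨s, σ⟩ y = 0 → h.f ⟨t, τ⟩ y = 0) :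
    ∀ y ∈ 𝔥, cmp (π s) y = 0 → cmp (π t) y = 0 := by
  rcases h.dich s t hst hl with h1 | h1 | h1
  · exact h.dich_single h1 hτ l1
  · exact h1
  · exfalso
    obtain ⟨x, hx, hx0, -⟩ := h.f_ne hτ
    obtain ⟨y, hy, h2, h3⟩ := h1 x hx
    have h4 := l1 y hy (by rw [f_apply, h3, map_zero])
    rw [f_apply, h2] at h4
    exact hx0 h4

/-- Links for `𝔥` are links for `𝔤`. -/
theorem lnk (β β' : Σ b, Fin (k b)) (hl : ∀ y ∈ 𝔥, h.f β' y = 0 → h.f β y = 0) :
    ∀ x ∈ 𝔤, h.f β' x = 0 → h.f β x = 0 := by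
  obtain ⟨t, τ⟩ := β
  obtain ⟨s, σ⟩ := β'
  have hnt := (h.blk t).nontriv
  have hns := (h.blk s).nontriv
  by_cases hτ : ∀ i, c t i ≠ τ
  · intro x hx _
    have h1 := pS_mem (σ := τ) (h.blk t).ce ((h.blk t).cmp_mem hx)
    rw [soS_empty hτ, Submodule.mem_bot] at h1
    exact h1
  push Not at hτ
  have hfne := h.f_ne hτ
  have hl' := h.gd.symm hl (by
    obtain ⟨x, hx, hx0, -⟩ := hfne
    exact ⟨x, hx, hx0⟩)
  by_cases hσ : ∀ i, c s i ≠ σ
  · exfalso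
    obtain ⟨x, hx, hx0, -⟩ := hfne
    obtain ⟨y, hy, hyx⟩ := h.gd.surj ⟨t, τ⟩ x hx
    apply hx0
    rw [← hyx]
    refine hl y hy ?_
    have h1 := pS_mem (σ := σ) (h.blk s).ce ((h.blk s).cmp_mem (h.red.le hy))
    rw [soS_empty hσ, Submodule.mem_bot] at h1
    exact h1
  push Not at hσ
  by_cases hst : s = t
  · subst hst
    by_cases hστ : σ = τ
    · subst hστ
      exact fun x _ hx => hx
    · exfalso
      obtain ⟨x, hx, hx0, hxs⟩ := hfne
      obtain ⟨y, hy, hyx⟩ := (h.blk s).surj h.red x hx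
      apply hx0
      rw [f_apply, ← hyx]
      refine hl y hy ?_
      rw [f_apply, hyx]
      exact pS_other (h.blk s).ce hστ hxs
  -- the two kinds
  have key : (∀ y ∈ 𝔥, cmp (π s) y = 0 → cmp (π t) y = 0) ∧
      ∀ y ∈ 𝔥, cmp (π t) y = 0 → cmp (π s) y = 0 := by
    have hdim := h.dim_eq hl hl'
    rcases (h.blk t).kind with ht | ht
    · rcases (h.blk s).kind with hs | hs
      · exact ⟨h.dich_like hst (Or.inl ⟨hs, ht⟩) hτ hl,
          h.dich_like (Ne.symm hst) (Or.inl ⟨ht, hs⟩) hσ hl'⟩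
      · exfalso
        have h1 := (h.blk t).finrank_small ht τ
        have h2 := (h.blk s).finrank_big hs hσ
        omega
    · rcases (h.blk s).kind with hs | hs
      · exfalso
        have h1 := (h.blk s).finrank_small hs σ
        have h2 := (h.blk t).finrank_big ht hτ
        omega
      · exact ⟨h.dich_like hst (Or.inr ⟨hs, ht⟩) hτ hl,
          h.dich_like (Ne.symm hst) (Or.inr ⟨ht, hs⟩) hσ hl'⟩
  intro x hx hx0
  obtain ⟨y, hy, hyx⟩ := (h.blk s).surj h.red x hx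
  have h1 := two_link (h.blk s) (h.blk t) h.red h.hg key.1 key.2 (x - y)
    (𝔤.sub_mem hx (h.red.le hy)) (by rw [map_sub, hyx, sub_self])
  rw [map_sub, sub_eq_zero] at h1
  rw [f_apply, h1]
  refine hl y hy ?_
  rw [f_apply, hyx]
  exact hx0

/-- `𝔤` and `𝔥` have the same image in the product of the blocks. -/
theorem main : ∀ x ∈ 𝔤, ∃ y ∈ 𝔥, ∀ b, cmp (π b) y = cmp (π b) x := by
  classical
  intro x hx
  obtain ⟨y, hy, hyx⟩ := h.gd.main h.lnk Finset.univ x hx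
  refine ⟨y, hy, fun b => ?_⟩
  rw [pS_sum (h.blk b).ce ((h.blk b).cmp_mem hx),
    pS_sum (h.blk b).ce ((h.blk b).cmp_mem (h.red.le hy))]
  exact Finset.sum_congr rfl fun s _ => hyx ⟨b, s⟩ (Finset.mem_univ _)

/-- If `𝔤` is commutative outside of the blocks, then its brackets are in `𝔥`. -/
theorem br_mem (hr : ∀ x ∈ 𝔤, ∀ y ∈ 𝔤, (∑ b, π b) * (x * y - y * x) = x * y - y * x)
    {x y : Module.End ℂ W} (hx : x ∈ 𝔤) (hy : y ∈ 𝔤) : x * y - y * x ∈ 𝔥 := by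
  obtain ⟨x', hx', h1⟩ := h.main x hx
  obtain ⟨y', hy', h2⟩ := h.main y hy
  have key : x * y - y * x = x' * y' - y' * x' := by
    rw [← hr x hx y hy, ← hr x' (h.red.le hx') y' (h.red.le hy'), Finset.sum_mul, Finset.sum_mul]
    refine Finset.sum_congr rfl fun b _ => ?_
    have hb := h.blk b
    have e1 := (cmp_eq_iff hb.idem (hb.comm x' (h.red.le hx')) (hb.comm x hx)).1 (h1 b)
    have e2 := (cmp_eq_iff hb.idem (hb.comm y' (h.red.le hy')) (hb.comm y hy)).1 (h2 b)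
    have e3 : π b * (x' * y') = π b * (x * y) := by
      rw [← mul_assoc, e1, hb.comm x hx, mul_assoc, e2, ← mul_assoc, ← hb.comm x hx, mul_assoc]
    have e4 : π b * (y' * x') = π b * (y * x) := by
      rw [← mul_assoc, e2, hb.comm y hy, mul_assoc, e1, ← mul_assoc, ← hb.comm y hy, mul_assoc]
    rw [mul_sub, mul_sub, e3, e4]
  rw [key]
  exact h.red.br x' hx' y' hy'

/-- If the blocks cover everything, then `𝔥 = 𝔤`. -/
theorem full (hs : ∑ b, π b = 1) : 𝔤 ≤ 𝔥 := by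
  intro x hx
  obtain ⟨y, hy, h1⟩ := h.main x hx
  have key : x = y := by
    rw [← one_mul x, ← one_mul y, ← hs, Finset.sum_mul, Finset.sum_mul]
    refine Finset.sum_congr rfl fun b _ => ?_
    have hb := h.blk b
    exact ((cmp_eq_iff hb.idem (hb.comm y (h.red.le hy)) (hb.comm x hx)).1 (h1 b)).symm
  rw [key]
  exact hy

end Fm

end fam

end Pool.Agent.K1H15.K3
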