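import Pool.Agent.Y102.V13
import Pool.Agent.Y102.V15
import Pool.Agent.K1H15.K3.Fam

set_option autoImplicit false
set_option linter.unusedSectionVars false
set_option linter.unusedVariables false

/-!
# Blocks of spin type of the Lie algebra of an abelian variety
-/

open Module Function TensorProduct

noncomputable section

namespace Pool.Agent.K1H15.K3

open Pool.Agent.Y102 Pool.Agent.Y102.SP Pool.Agent.W516.DR

section rat

variable {W : Type} [AddCommGroup W] [Module ℚ W] [FiniteDimensional ℚ W]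

theorem cmpE_bc_mul (lam : ℂ →ₗ[ℚ] ℚ) (P : Module.End ℚ W) (y : Module.End ℂ (ℂ ⊗[ℚ] W)) :
    cmpE lam (P.baseChange ℂ * y) = P * cmpE lam y := by
  ext w
  rw [cmpE_apply, Module.End.mul_apply, Module.End.mul_apply, cmp_baseChange, cmpE_apply]

theorem eq_zero_of_cmpE {y : Module.End ℂ (ℂ ⊗[ℚ] W)} (h : ∀ lam : ℂ →ₗ[ℚ] ℚ, cmpE lam y = 0) :
    y = 0 := by
  refine TensorProduct.AlgebraTensorModule.ext fun a w => ?_
  have h1 : a ⊗ₜ[ℚ] w = a • ((1 : ℂ) ⊗ₜ[ℚ] w) := by rw [smul_tmul', smul_eq_mul, mul_one]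
  have h2 : y ((1 : ℂ) ⊗ₜ[ℚ] w) = 0 := by
    apply eq_zero_of_cmp (k := ℚ)
    intro lam
    rw [← cmpE_apply, h lam]
    rfl
  rw [h1, map_smul, h2, smul_zero]
  rfl

theorem cmpE_zero (lam : ℂ →ₗ[ℚ] ℚ) : cmpE lam (0 : Module.End ℂ (ℂ ⊗[ℚ] W)) = 0 := by
  ext w
  rw [cmpE_apply, LinearMap.zero_apply, map_zero]
  rfl

variable {𝔤 𝔥 : Submodule ℚ (Module.End ℚ W)} (hle : 𝔥 ≤ 𝔤)

include hle in
/-- The dichotomy over the rational numbers. -/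
theorem rat_dich (hg : ∀ X ∈ 𝔤, ∀ Y ∈ 𝔤, X * Y - Y * X ∈ 𝔤)
    (hh : ∀ X ∈ 𝔥, ∀ Y ∈ 𝔥, X * Y - Y * X ∈ 𝔥)
    {Ps Pt : Module.End ℚ W} (cs : ∀ X ∈ 𝔤, Ps * X = X * Ps) (ct : ∀ X ∈ 𝔤, Pt * X = X * Pt)
    (surj : ∀ X ∈ 𝔤, ∃ Y ∈ 𝔥, Pt * Y = Pt * X)
    (simple : ∀ J : Submodule ℚ (Module.End ℚ W), J ≤ 𝔤 →
      (∀ Z ∈ 𝔤, ∀ X ∈ J, Z * X - X * Z ∈ J) →
      (∀ X ∈ J, Pt * X = 0) ∨ ∀ Z ∈ 𝔤, ∃ X ∈ J, Pt * X = Pt * Z) :
    (∀ Y ∈ 𝔥, Ps * Y = 0 → Pt * Y = 0) ∨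
      ∀ X ∈ 𝔤, ∃ Y ∈ 𝔥, Pt * Y = Pt * X ∧ Ps * Y = 0 := by
  let J : Submodule ℚ (Module.End ℚ W) :=
    { carrier := {X | X ∈ 𝔤 ∧ ∃ Y ∈ 𝔥, Pt * Y = Pt * X ∧ Ps * Y = 0}
      zero_mem' := ⟨𝔤.zero_mem, 0, 𝔥.zero_mem, rfl, mul_zero _⟩
      add_mem' := by
        rintro X X' ⟨h1, Y, h2, h3, h4⟩ ⟨h1', Y', h2', h3', h4'⟩
        exact ⟨𝔤.add_mem h1 h1', Y + Y', 𝔥.add_mem h2 h2', by rw [mul_add, mul_add, h3, h3'],
          by rw [mul_add, h4, h4', add_zero]⟩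
      smul_mem' := by
        rintro r X ⟨h1, Y, h2, h3, h4⟩
        exact ⟨𝔤.smul_mem r h1, r • Y, 𝔥.smul_mem r h2, by rw [mul_smul_comm, mul_smul_comm, h3],
          by rw [mul_smul_comm, h4, smul_zero]⟩ }
  have hJ : ∀ Z ∈ 𝔤, ∀ X ∈ J, Z * X - X * Z ∈ J := by
    rintro Z hZ X ⟨h1, Y, h2, h3, h4⟩
    obtain ⟨Z', hZ', hZZ⟩ := surj Z hZ
    refine ⟨hg Z hZ X h1, Z' * Y - Y * Z', hh Z' hZ' Y h2, ?_, ?_⟩
    · have e1 : Pt * (Z' * Y) = Pt * (Z * X) := by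
        rw [← mul_assoc, hZZ, ct Z hZ, mul_assoc, h3, ← mul_assoc, ← ct Z hZ, mul_assoc]
      have e2 : Pt * (Y * Z') = Pt * (X * Z) := by
        rw [← mul_assoc, h3, ct X h1, mul_assoc, hZZ, ← mul_assoc, ← ct X h1, mul_assoc]
      rw [mul_sub, mul_sub, e1, e2]
    · rw [mul_sub, ← mul_assoc, cs Z' (hle hZ'), mul_assoc, h4, mul_zero, ← mul_assoc, h4,
        zero_mul, sub_zero]
  rcases simple J (fun X hX => hX.1) hJ with h1 | h1
  · left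
    intro Y hY h2
    exact h1 Y ⟨hle hY, Y, hY, rfl, h2⟩
  · right
    intro X hX
    obtain ⟨X', ⟨-, Y, h2, h3, h4⟩, h5⟩ := h1 X hX
    exact ⟨Y, h2, h3.trans h5, h4⟩

/-- The first alternative, over the complex numbers. -/
theorem cx_alt1 {Ps Pt : Module.End ℚ W} (h : ∀ Y ∈ 𝔥, Ps * Y = 0 → Pt * Y = 0)
    {y : Module.End ℂ (ℂ ⊗[ℚ] W)} (hy : y ∈ cx 𝔥) (h0 : Ps.baseChange ℂ * y = 0) :
    Pt.baseChange ℂ * y = 0 := by
  apply eq_zero_of_cmpE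
  intro lam
  rw [cmpE_bc_mul]
  refine h _ (cmp_of_ext 𝔥 hy lam) ?_
  rw [← cmpE_bc_mul, h0, cmpE_zero]

/-- The second alternative, over the complex numbers. -/
theorem cx_alt2 {Ps Pt : Module.End ℚ W} (h : ∀ X ∈ 𝔤, ∃ Y ∈ 𝔥, Pt * Y = Pt * X ∧ Ps * Y = 0)
    {x : Module.End ℂ (ℂ ⊗[ℚ] W)} (hx : x ∈ cx 𝔤) :
    ∃ y ∈ cx 𝔥, Pt.baseChange ℂ * y = Pt.baseChange ℂ * x ∧ Ps.baseChange ℂ * y = 0 := by
  induction hx using Submodule.span_induction with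
  | mem x hx =>
    obtain ⟨X, hX, rfl⟩ := hx
    obtain ⟨Y, h1, h2, h3⟩ := h X hX
    refine ⟨Y.baseChange ℂ, bc_mem h1, ?_, ?_⟩
    · rw [← bc_mul, ← bc_mul, h2]
    · rw [← bc_mul, h3, LinearMap.baseChange_zero]
  | zero => exact ⟨0, Submodule.zero_mem _, rfl, mul_zero _⟩
  | add a b _ _ ha hb =>
    obtain ⟨Y, h1, h2, h3⟩ := ha
    obtain ⟨Y', h1', h2', h3'⟩ := hb
    exact ⟨Y + Y', Submodule.add_mem _ h1 h1', by rw [mul_add, mul_add, h2, h2'],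
      by rw [mul_add, h3, h3', add_zero]⟩
  | smul r a _ ha =>
    obtain ⟨Y, h1, h2, h3⟩ := ha
    exact ⟨r • Y, Submodule.smul_mem _ r h1, by rw [mul_smul_comm, mul_smul_comm, h2],
      by rw [mul_smul_comm, h3, smul_zero]⟩

/-- Surjectivity descends to the rational numbers. -/
theorem rat_surj {P : Module.End ℚ W}
    (h : ∀ x ∈ cx 𝔤, ∃ y ∈ cx 𝔥, P.baseChange ℂ * y = P.baseChange ℂ * x) {X : Module.End ℚ W}
    (hX : X ∈ 𝔤) : ∃ Y ∈ 𝔥, P * Y = P * X := by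
  have h1 : P * X ∈ 𝔥.map (LinearMap.mulLeft ℚ P) := by
    refine mem_of_bc ?_
    rw [bc_mul]
    obtain ⟨y, hy, hyx⟩ := h _ (bc_mem hX)
    rw [← hyx]
    clear hyx
    induction hy using Submodule.span_induction with
    | mem y hy =>
      obtain ⟨Y, hY, rfl⟩ := hy
      rw [← bc_mul]
      exact bc_mem ⟨Y, hY, rfl⟩
    | zero => rw [mul_zero]; exact Submodule.zero_mem _
    | add a b _ _ ha hb => rw [mul_add]; exact Submodule.add_mem _ ha hb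
    | smul r a _ ha => rw [mul_smul_comm]; exact Submodule.smul_mem _ r ha
  obtain ⟨Y, hY, h2⟩ := h1
  exact ⟨Y, hY, h2⟩

theorem bc_inj {X Y : Module.End ℚ W} (h : X.baseChange ℂ = Y.baseChange ℂ) : X = Y := by
  obtain ⟨lam, hlam⟩ := exists_lam
  have key : ∀ X : Module.End ℚ W, cmpE lam (X.baseChange ℂ) = X := by
    intro X
    ext w
    rw [cmpE_apply, LinearMap.baseChange_tmul, cmp_tmul, hlam, one_smul]
  rw [← key X, h, key]

end rat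

/-! ### Abelian varieties -/

variable {g : ℕ} {A : AbVar g} {𝔥 : Submodule ℚ (Module.End ℚ A.H1)}

theorem red_of_full (h : A.Full 𝔥) : Red (cx A.NA) (cx 𝔥) (cx (der 𝔥)) where
  le := cx_mono h.le
  dle := cx_mono h.der_le
  br := h.cx_br'
  perf := h.cx_perfect
  dec := h.cx_dec
  com := h.cx_com
  gen := h.cx_adjoin

/-- The image of the Lie algebra under `P` is simple over the rational numbers. -/
def SimpleQ (A : AbVar g) (P : Module.End ℚ A.H1) : Prop :=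
  ∀ J : Submodule ℚ (Module.End ℚ A.H1), J ≤ A.NA →
    (∀ Z ∈ A.NA, ∀ X ∈ J, Z * X - X * Z ∈ J) →
    (∀ X ∈ J, P * X = 0) ∨ ∀ Z ∈ A.NA, ∃ X ∈ J, P * X = P * Z

section fam

variable {m : ℕ} {π : Fin m → Module.End ℂ (ℂ ⊗[ℚ] A.H1)}
    {N k : Fin m → ℕ} {E : ∀ b, Fin (N b) → Module.End ℂ (ℂ ⊗[ℚ] A.H1)}
    {c : ∀ b, Fin (N b) → Fin (k b)}

/-- The family of blocks of an abelian variety. -/
theorem fm_of_full (h : A.Full 𝔥) (hb : ∀ b, Blk (cx A.NA) (π b) (E b) (c b))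
    (hq : ∀ t, Single (c t) ∨ (∃ P : Module.End ℚ A.H1, π t = P.baseChange ℂ ∧ SimpleQ A P) ∧
      ∀ s, Like (c s) (c t) → ∃ P : Module.End ℚ A.H1, π s = P.baseChange ℂ) :
    Fm (cx A.NA) (cx 𝔥) (cx (der 𝔥)) π E c where
  red := red_of_full h
  hg := cx_br fun X hX Y hY => by
    rw [← bc_br]
    exact bc_mem (A.NA_bracket hX hY)
  blk := hb
  dich := by
    intro s t hst hl
    rcases hq t with h1 | ⟨⟨Pt, hPt, hsim⟩, h2⟩
    · exact Or.inl h1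
    right
    obtain ⟨Ps, hPs⟩ := h2 s hl
    have cs : ∀ X ∈ A.NA, Ps * X = X * Ps := fun X hX => bc_inj (by
      rw [bc_mul, bc_mul, ← hPs]
      exact (hb s).comm _ (bc_mem hX))
    have ct : ∀ X ∈ A.NA, Pt * X = X * Pt := fun X hX => bc_inj (by
      rw [bc_mul, bc_mul, ← hPt]
      exact (hb t).comm _ (bc_mem hX))
    have hle : cx 𝔥 ≤ cx A.NA := cx_mono h.le
    have e : ∀ b, ∀ x ∈ cx A.NA, ∀ y ∈ cx A.NA, cmp (π b) x = cmp (π b) y ↔ π b * x = π b * y :=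
      fun b x hx y hy => cmp_eq_iff (hb b).idem ((hb b).comm x hx) ((hb b).comm y hy)
    have e0 : ∀ b, ∀ x ∈ cx A.NA, cmp (π b) x = 0 ↔ π b * x = 0 := by
      intro b x hx
      have := e b x hx 0 (Submodule.zero_mem _)
      rwa [map_zero, mul_zero] at this
    have hsurj : ∀ X ∈ A.NA, ∃ Y ∈ 𝔥, Pt * Y = Pt * X := fun X hX => by
      refine rat_surj (fun x hx => ?_) hX
      obtain ⟨y, hy, hyx⟩ := (hb t).surj (red_of_full h) x hx
      refine ⟨y, hy, ?_⟩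
      rw [← hPt]
      exact (e t y (hle hy) x hx).1 hyx
    rcases rat_dich h.le (fun X hX Y hY => A.NA_bracket hX hY) h.br cs ct hsurj hsim with h3 | h3
    · left
      intro y hy h4
      rw [e0 s y (hle hy), hPs] at h4
      rw [e0 t y (hle hy), hPt]
      exact cx_alt1 h3 hy h4
    · right
      intro x hx
      obtain ⟨y, hy, h4, h5⟩ := cx_alt2 h3 hx
      refine ⟨y, hy, (e t y (hle hy) x hx).2 ?_, (e0 s y (hle hy)).2 ?_⟩
      · rw [hPt]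
        exact h4
      · rw [hPs]
        exact h5

end fam

/-! ### Matrices -/

section mat

variable {m : ℕ} {π : Fin m → Matrix (Fin (2 * g)) (Fin (2 * g)) ℂ}
    {N k : Fin m → ℕ} {E : ∀ b, Fin (N b) → Matrix (Fin (2 * g)) (Fin (2 * g)) ℂ}
    {c : ∀ b, Fin (N b) → Fin (k b)}

theorem matE_mem {S : Submodule ℚ (Module.End ℚ A.H1)} {x : Module.End ℂ (ℂ ⊗[ℚ] A.H1)}
    (hx : x ∈ cx S) : ∃ y ∈ Submodule.span ℂ {Y | ∃ X ∈ S, Y = toC X}, matE (2 * g) y = x := by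
  rw [← map_lie] at hx
  obtain ⟨y, hy, hyx⟩ := hx
  exact ⟨y, hy, hyx⟩

theorem blk_of_mat {π : Matrix (Fin (2 * g)) (Fin (2 * g)) ℂ} {N k : ℕ}
    {E : Fin N → Matrix (Fin (2 * g)) (Fin (2 * g)) ℂ} {c : Fin N → Fin k}
    (idem : π * π = π) (ne : π ≠ 0) (comm : ∀ X ∈ A.NA, π * toC X = toC X * π)
    (sq : ∀ i, E i * E i = π) (anti : ∀ i j, i ≠ j → E i * E j = -(E j * E i))
    (l : ∀ i, π * E i = E i)
    (img : (Submodule.span ℂ {Y | ∃ X ∈ A.NA, Y = toC X}).map (LinearMap.mulLeft ℂ π) =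
      Submodule.span ℂ {Y | ∃ i j, i ≠ j ∧ c i = c j ∧ Y = E i * E j})
    (kind : (∀ s, (Finset.univ.filter fun j => c j = s).card = 3) ∨
      ∀ i, 6 ≤ (Finset.univ.filter fun j => c j = c i).card) :
    Blk (cx A.NA) (matE (2 * g) π) (fun i => matE (2 * g) (E i)) c where
  idem := by rw [← map_mul, idem]
  ne := fun h => ne ((map_eq_zero_iff _ (matE (2 * g)).injective).1 h)
  comm := cx_comm fun X hX => by rw [← matE_toC, ← map_mul, ← map_mul, comm X hX]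
  sq := fun i => by rw [← map_mul, sq]
  anti := fun i j hij => by rw [← map_mul, anti i j hij, map_neg, map_mul]
  l := fun i => by rw [← map_mul, l]
  img1 := by
    intro x hx
    obtain ⟨y, hy, rfl⟩ := matE_mem hx
    rw [← map_mul]
    have h1 : π * y ∈ Submodule.span ℂ {Y | ∃ i j, i ≠ j ∧ c i = c j ∧ Y = E i * E j} := by
      rw [← img]
      exact ⟨y, hy, rfl⟩
    have h2 := Submodule.mem_map_of_mem (f := (matE (2 * g)).toLinearMap) h1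
    rw [Submodule.map_span] at h2
    refine (Submodule.span_mono ?_) h2
    rintro _ ⟨_, ⟨i, j, a, b, rfl⟩, rfl⟩
    exact ⟨i, j, a, b, map_mul (matE (2 * g)) _ _⟩
  img2 := by
    intro i j hij hc
    have h1 : E i * E j ∈ (Submodule.span ℂ {Y | ∃ X ∈ A.NA, Y = toC X}).map
        (LinearMap.mulLeft ℂ π) := by
      rw [img]
      exact Submodule.subset_span ⟨i, j, hij, hc, rfl⟩
    obtain ⟨y, hy, hy2⟩ := h1
    refine ⟨matE (2 * g) y, ?_, ?_⟩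
    · rw [← map_lie]
      exact ⟨y, hy, rfl⟩
    · rw [← map_mul, ← map_mul]
      exact congrArg _ hy2
  kind := kind

/-- **Theorem.** The subalgebras of a Lie algebra with blocks of spin type which are full. -/
theorem full_mat (h : A.Full 𝔥)
    (idem : ∀ b, π b * π b = π b) (ne : ∀ b, π b ≠ 0)
    (comm : ∀ b, ∀ X ∈ A.NA, π b * toC X = toC X * π b)
    (sq : ∀ b i, E b i * E b i = π b) (anti : ∀ b i j, i ≠ j → E b i * E b j = -(E b j * E b i))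
    (l : ∀ b i, π b * E b i = E b i)
    (img : ∀ b, (Submodule.span ℂ {Y | ∃ X ∈ A.NA, Y = toC X}).map (LinearMap.mulLeft ℂ (π b)) =
      Submodule.span ℂ {Y | ∃ i j, i ≠ j ∧ c b i = c b j ∧ Y = E b i * E b j})
    (kind : ∀ b, (∀ s, (Finset.univ.filter fun j => c b j = s).card = 3) ∨
      ∀ i, 6 ≤ (Finset.univ.filter fun j => c b j = c b i).card)
    (hq : ∀ t, Single (c t) ∨ (∃ P : Module.End ℚ A.H1, π t = toC P ∧ SimpleQ A P) ∧
      ∀ s, Like (c s) (c t) → ∃ P : Module.End ℚ A.H1, π s = toC P) :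
    ((∀ X ∈ A.NA, ∀ Y ∈ A.NA, (∑ b, π b) * (toC X * toC Y - toC Y * toC X) =
        toC X * toC Y - toC Y * toC X) → ∀ X ∈ A.NA, ∀ Y ∈ A.NA, X * Y - Y * X ∈ 𝔥) ∧
      (∑ b, π b = 1 → A.NA ≤ 𝔥) := by
  have hF := fm_of_full h
    (fun b => blk_of_mat (idem b) (ne b) (comm b) (sq b) (anti b) (l b) (img b) (kind b))
    (fun t => by
      rcases hq t with h1 | ⟨⟨P, hP, hs⟩, h2⟩
      · exact Or.inl h1
      · refine Or.inr ⟨⟨P, by rw [hP, matE_toC], hs⟩, fun s hl => ?_⟩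
        obtain ⟨P', hP'⟩ := h2 s hl
        exact ⟨P', by rw [hP', matE_toC]⟩)
  constructor
  · intro hr X hX Y hY
    refine mem_of_bc ?_
    rw [bc_br]
    refine hF.br_mem ?_ (bc_mem hX) (bc_mem hY)
    have key : ∀ x ∈ cx A.NA, ∀ y ∈ cx A.NA, x * y - y * x ∈
        LinearMap.ker (LinearMap.mulLeft ℂ (∑ b, matE (2 * g) (π b)) - LinearMap.id) := by
      refine cx_br fun X hX Y hY => ?_
      rw [LinearMap.mem_ker, LinearMap.sub_apply, LinearMap.mulLeft_apply, LinearMap.id_apply,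
        sub_eq_zero, ← map_sum, ← matE_toC, ← matE_toC, ← map_mul, ← map_mul, ← map_sub,
        ← map_mul, hr X hX Y hY]
    intro x hx y hy
    have h1 := key x hx y hy
    rw [LinearMap.mem_ker, LinearMap.sub_apply, LinearMap.mulLeft_apply, LinearMap.id_apply,
      sub_eq_zero] at h1
    exact h1
  · intro hs X hX
    refine mem_of_bc ?_
    refine hF.full ?_ (bc_mem hX)
    rw [← map_sum, hs, map_one]

end mat

end Pool.Agent.K1H15.K3
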