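import Mathlib

set_option autoImplicit false
set_option linter.unusedSectionVars false
set_option linter.unusedVariables false

/-!
# A lemma of Goursat type for Lie algebras with simple factors
-/

open Module

namespace Pool.Agent.K1H15.K3

/-- `𝔥 ⊆ 𝔤` are Lie algebras, `f b : 𝔤 → S b` are homomorphisms with simple images, which are
also the images of `𝔥`. -/
structure Gd {R : Type} [Ring R] [Algebra ℂ R] (𝔤 𝔥 : Submodule ℂ R) {B : Type} (S : B → Type)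
    [∀ b, Ring (S b)] [∀ b, Algebra ℂ (S b)] (f : ∀ b, R →ₗ[ℂ] S b) : Prop where
  le : 𝔥 ≤ 𝔤
  hg : ∀ x ∈ 𝔤, ∀ y ∈ 𝔤, x * y - y * x ∈ 𝔤
  hh : ∀ x ∈ 𝔥, ∀ y ∈ 𝔥, x * y - y * x ∈ 𝔥
  hf : ∀ b, ∀ x ∈ 𝔤, ∀ y ∈ 𝔤, f b (x * y - y * x) = f b x * f b y - f b y * f b x
  surj : ∀ b, ∀ x ∈ 𝔤, ∃ y ∈ 𝔥, f b y = f b x
  simple : ∀ b (J : Submodule ℂ (S b)), J ≤ 𝔤.map (f b) →
    (∀ x ∈ 𝔤.map (f b), ∀ y ∈ J, x * y - y * x ∈ J) → J = ⊥ ∨ J = 𝔤.map (f b)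
  perf : ∀ b, 𝔤.map (f b) ≤ Submodule.span ℂ {z | ∃ x ∈ 𝔤.map (f b), ∃ y ∈ 𝔤.map (f b),
    z = x * y - y * x}

namespace Gd

variable {R : Type} [Ring R] [Algebra ℂ R] {𝔤 𝔥 : Submodule ℂ R} {B : Type} {S : B → Type}
    [∀ b, Ring (S b)] [∀ b, Algebra ℂ (S b)] {f : ∀ b, R →ₗ[ℂ] S b} (h : Gd 𝔤 𝔥 S f)
include h

/-- The dichotomy for two factors. -/
theorem dich (b b' : B) : (∀ y ∈ 𝔥, f b' y = 0 → f b y = 0) ∨
    ∀ x ∈ 𝔤, ∃ y ∈ 𝔥, f b y = f b x ∧ f b' y = 0 := by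
  have hJ := h.simple b ((𝔥 ⊓ LinearMap.ker (f b')).map (f b)) ?_ ?_
  · rcases hJ with hJ | hJ
    · left
      intro y hy hy0
      have h1 : f b y ∈ (𝔥 ⊓ LinearMap.ker (f b')).map (f b) := ⟨y, ⟨hy, hy0⟩, rfl⟩
      rw [hJ] at h1
      exact (Submodule.mem_bot ℂ).1 h1
    · right
      intro x hx
      have h1 : f b x ∈ (𝔥 ⊓ LinearMap.ker (f b')).map (f b) := by
        rw [hJ]
        exact ⟨x, hx, rfl⟩
      obtain ⟨y, hy, hyx⟩ := h1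
      exact ⟨y, hy.1, hyx, hy.2⟩
  · exact Submodule.map_mono (inf_le_left.trans h.le)
  · rintro _ ⟨x, hx, rfl⟩ _ ⟨y, hy, rfl⟩
    obtain ⟨x', hx', hxx⟩ := h.surj b x hx
    refine ⟨x' * y - y * x', ⟨h.hh x' hx' y hy.1, ?_⟩, ?_⟩
    · have h1 : f b' y = 0 := hy.2
      change f b' (x' * y - y * x') = 0
      rw [h.hf b' x' (h.le hx') y (h.le hy.1), h1, mul_zero, zero_mul, sub_zero]
    · rw [h.hf b x' (h.le hx') y (h.le hy.1), hxx]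

/-- Links are symmetric. -/
theorem symm {b b' : B} (hl : ∀ y ∈ 𝔥, f b' y = 0 → f b y = 0) (hb : ∃ x ∈ 𝔤, f b x ≠ 0) :
    ∀ y ∈ 𝔥, f b y = 0 → f b' y = 0 := by
  rcases h.dich b' b with h1 | h1
  · exact h1
  · exfalso
    obtain ⟨x, hx, hx0⟩ := hb
    obtain ⟨y, hy, hyx⟩ := h.surj b x hx
    obtain ⟨y', hy', h2, h3⟩ := h1 y (h.le hy)
    have h4 := hl (y - y') (𝔥.sub_mem hy hy') (by rw [map_sub, h2, sub_self])
    rw [map_sub, h3, sub_zero, hyx] at h4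
    exact hx0 h4

/-- Ribet's lemma. -/
theorem ribet [DecidableEq B] (b : B) (Q : Finset B)
    (hQ : ∀ b' ∈ Q, ∀ x ∈ 𝔤, ∃ y ∈ 𝔥, f b y = f b x ∧ f b' y = 0) :
    ∀ x ∈ 𝔤, ∃ y ∈ 𝔥, f b y = f b x ∧ ∀ b' ∈ Q, f b' y = 0 := by
  induction Q using Finset.induction_on with
  | empty =>
    intro x hx
    obtain ⟨y, hy, hyx⟩ := h.surj b x hx
    exact ⟨y, hy, hyx, fun b' hb' => absurd hb' (Finset.notMem_empty _)⟩
  | insert t Q ht ih =>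
    have ih' := ih (fun b' hb' => hQ b' (Finset.mem_insert_of_mem hb'))
    have ht' := hQ t (Finset.mem_insert_self _ _)
    let K : Submodule ℂ R := 𝔥 ⊓ ⨅ t' ∈ insert t Q, LinearMap.ker (f t')
    have hK : ∀ y, y ∈ K ↔ y ∈ 𝔥 ∧ ∀ t' ∈ insert t Q, f t' y = 0 := by
      intro y
      simp only [K, Submodule.mem_inf, Submodule.mem_iInf, LinearMap.mem_ker]
    have hle : Submodule.span ℂ {z | ∃ x ∈ 𝔤.map (f b), ∃ y ∈ 𝔤.map (f b),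
        z = x * y - y * x} ≤ K.map (f b) := by
      refine Submodule.span_le.2 ?_
      rintro _ ⟨_, ⟨x1, hx1, rfl⟩, _, ⟨x2, hx2, rfl⟩, rfl⟩
      obtain ⟨y1, hy1, h1, h2⟩ := ih' x1 hx1
      obtain ⟨y2, hy2, h3, h4⟩ := ht' x2 hx2
      refine ⟨y1 * y2 - y2 * y1, (hK _).2 ⟨h.hh y1 hy1 y2 hy2, fun t' ht1 => ?_⟩, ?_⟩
      · rw [h.hf t' y1 (h.le hy1) y2 (h.le hy2)]
        rcases Finset.mem_insert.1 ht1 with rfl | h5
        · rw [h4, mul_zero, zero_mul, sub_zero]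
        · rw [h2 t' h5, mul_zero, zero_mul, sub_zero]
      · rw [h.hf b y1 (h.le hy1) y2 (h.le hy2), h1, h3]
    intro x hx
    obtain ⟨y, hy, hyx⟩ := hle (h.perf b ⟨x, hx, rfl⟩)
    exact ⟨y, ((hK y).1 hy).1, hyx, ((hK y).1 hy).2⟩

/-- **Goursat's lemma.** If all links for `𝔥` are links for `𝔤`, then `𝔤` and `𝔥` have the same
image. -/
theorem main [DecidableEq B]
    (lnk : ∀ b b', (∀ y ∈ 𝔥, f b' y = 0 → f b y = 0) → ∀ x ∈ 𝔤, f b' x = 0 → f b x = 0)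
    (Q : Finset B) : ∀ x ∈ 𝔤, ∃ y ∈ 𝔥, ∀ b ∈ Q, f b y = f b x := by
  induction Q using Finset.induction_on with
  | empty => exact fun x hx => ⟨0, 𝔥.zero_mem, fun b hb => absurd hb (Finset.notMem_empty _)⟩
  | insert t Q ht ih =>
    intro x hx
    obtain ⟨y, hy, hyx⟩ := ih x hx
    by_cases hl : ∃ b' ∈ Q, ∀ y ∈ 𝔥, f b' y = 0 → f t y = 0
    · obtain ⟨b', hb', hl⟩ := hl
      have h1 := lnk t b' hl (y - x) (𝔤.sub_mem (h.le hy) hx) (by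
        rw [map_sub, hyx b' hb', sub_self])
      rw [map_sub, sub_eq_zero] at h1
      refine ⟨y, hy, fun b hb => ?_⟩
      rcases Finset.mem_insert.1 hb with rfl | hb
      · exact h1
      · exact hyx b hb
    · push Not at hl
      have hQ : ∀ b' ∈ Q, ∀ x ∈ 𝔤, ∃ y ∈ 𝔥, f t y = f t x ∧ f b' y = 0 := by
        intro b' hb'
        rcases h.dich t b' with h1 | h1
        · obtain ⟨z, hz, hz1, hz2⟩ := hl b' hb'
          exact absurd (h1 z hz hz1) hz2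
        · exact h1
      obtain ⟨z, hz, hz1, hz2⟩ := h.ribet t Q hQ (x - y) (𝔤.sub_mem hx (h.le hy))
      refine ⟨y + z, 𝔥.add_mem hy hz, fun b hb => ?_⟩
      rcases Finset.mem_insert.1 hb with rfl | hb
      · rw [map_add, hz1, map_sub, add_sub_cancel]
      · rw [map_add, hz2 b hb, add_zero, hyx b hb]

end Gd

end Pool.Agent.K1H15.K3
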