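import Pool.Agent.K1H15.K3.Link
import Pool.Agent.K1H15.K3.Gours
import Pool.Agent.Y102.SP.Small
import Pool.Agent.Y102.T4

set_option autoImplicit false
set_option linter.unusedSectionVars false
set_option linter.unusedVariables false

/-!
# Blocks of spin type
-/

open Module

namespace Pool.Agent.K1H15.K3

open Pool.Agent.Y102.SP

variable {W : Type} [AddCommGroup W] [Module ℂ W] [FiniteDimensional ℂ W]

/-- The compression to the range of a projector. -/
noncomputable def cmp (π : Module.End ℂ W) :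
    Module.End ℂ W →ₗ[ℂ] Module.End ℂ (LinearMap.range π) where
  toFun x := (π ∘ₗ x ∘ₗ (LinearMap.range π).subtype).codRestrict (LinearMap.range π)
    (fun u => ⟨_, rfl⟩)
  map_add' x y := by
    ext u
    simp
  map_smul' c x := by
    ext u
    simp

theorem cmp_val (π x : Module.End ℂ W) (u : LinearMap.range π) :
    ((cmp π x u : LinearMap.range π) : W) = π (x u) := rfl

theorem range_fix {π : Module.End ℂ W} (hπ : π * π = π) (u : LinearMap.range π) :
    π (u : W) = u := by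
  obtain ⟨u, v, rfl⟩ := u
  exact LinearMap.congr_fun hπ v

theorem cmp_mul {π : Module.End ℂ W} (hπ : π * π = π) (x : Module.End ℂ W) {y : Module.End ℂ W}
    (hy : π * y = y * π) : cmp π (x * y) = cmp π x * cmp π y := by
  ext u
  rw [Module.End.mul_apply, cmp_val, cmp_val, cmp_val, Module.End.mul_apply]
  have h1 := LinearMap.congr_fun hy (u : W)
  rw [Module.End.mul_apply, Module.End.mul_apply, range_fix hπ] at h1
  rw [h1]

theorem cmp_one {π : Module.End ℂ W} (hπ : π * π = π) : cmp π 1 = 1 := by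
  ext u
  rw [cmp_val, Module.End.one_apply, Module.End.one_apply, range_fix hπ]

theorem cmp_eq_iff {π : Module.End ℂ W} (hπ : π * π = π) {x y : Module.End ℂ W}
    (hx : π * x = x * π) (hy : π * y = y * π) : cmp π x = cmp π y ↔ π * x = π * y := by
  constructor
  · intro h
    ext v
    have h1 := congrArg Subtype.val (LinearMap.congr_fun h ⟨π v, v, rfl⟩)
    rw [cmp_val, cmp_val] at h1
    have e : ∀ z : Module.End ℂ W, π * z = z * π → π (z (π v)) = (π * z) v := by
      intro z hz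
      have h2 := LinearMap.congr_fun hz v
      rw [Module.End.mul_apply, Module.End.mul_apply] at h2
      rw [← h2, Module.End.mul_apply]
      exact LinearMap.congr_fun hπ (z v)
    rw [← e x hx, ← e y hy]
    exact h1
  · intro h
    ext u
    rw [cmp_val, cmp_val]
    exact LinearMap.congr_fun h (u : W)

/-- A block of spin type. -/
structure Blk (𝔤 : Submodule ℂ (Module.End ℂ W)) (π : Module.End ℂ W) {N k : ℕ}
    (E : Fin N → Module.End ℂ W) (c : Fin N → Fin k) : Prop where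
  idem : π * π = π
  ne : π ≠ 0
  comm : ∀ x ∈ 𝔤, π * x = x * π
  sq : ∀ i, E i * E i = π
  anti : ∀ i j, i ≠ j → E i * E j = -(E j * E i)
  l : ∀ i, π * E i = E i
  img1 : ∀ x ∈ 𝔤, π * x ∈ soC E c
  img2 : ∀ i j, i ≠ j → c i = c j → ∃ x ∈ 𝔤, π * x = E i * E j
  kind : (∀ s, size c s = 3) ∨ ∀ i, 6 ≤ size c (c i)

/-- The properties of the subalgebra `𝔥`: it is reductive, with the same commutant and the same
enveloping algebra as `𝔤`. -/
structure Red (𝔤 𝔥 D : Submodule ℂ (Module.End ℂ W)) : Prop where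
  le : 𝔥 ≤ 𝔤
  dle : D ≤ 𝔥
  br : ∀ x ∈ 𝔥, ∀ y ∈ 𝔥, x * y - y * x ∈ 𝔥
  perf : D ≤ Submodule.span ℂ {z | ∃ x ∈ D, ∃ y ∈ D, z = x * y - y * x}
  dec : ∀ x ∈ 𝔥, ∃ z ∈ 𝔥, ∃ d ∈ D, x = z + d ∧ ∀ y ∈ 𝔥, z * y = y * z
  com : ∀ T : Module.End ℂ W, (∀ x ∈ 𝔥, T * x = x * T) → ∀ x ∈ 𝔤, T * x = x * T
  gen : ∀ x ∈ 𝔤, x ∈ Algebra.adjoin ℂ (𝔥 : Set (Module.End ℂ W))

namespace Blk

variable {𝔤 : Submodule ℂ (Module.End ℂ W)} {π : Module.End ℂ W} {N k : ℕ}
    {E : Fin N → Module.End ℂ W} {c : Fin N → Fin k} (h : Blk 𝔤 π E c)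
include h

theorem r (i : Fin N) : E i * π = E i := by
  rw [← h.sq i, ← mul_assoc, h.sq i, h.l i]

theorem nontriv : Nontrivial (LinearMap.range π) := by
  rw [Submodule.nontrivial_iff_ne_bot]
  intro h1
  exact h.ne (LinearMap.range_eq_bot.1 h1)

theorem good : GoodC c := by
  rcases h.kind with h1 | h1
  · intro i
    left
    exact h1 _
  · intro i
    right
    have := h1 i
    omega

theorem ce : CE (fun i => cmp π (E i)) := by
  refine ⟨fun i => ?_, fun i j hij => ?_⟩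
  · rw [← cmp_mul h.idem _ (by rw [h.l, h.r]), h.sq]
    have h1 : cmp π π = cmp π 1 := by
      rw [cmp_eq_iff h.idem rfl (by rw [one_mul, mul_one]), h.idem, mul_one]
    rw [h1, cmp_one h.idem]
  · rw [← cmp_mul h.idem _ (by rw [h.l, h.r]), ← cmp_mul h.idem _ (by rw [h.l, h.r]),
      h.anti i j hij, map_neg]

theorem cmp_prod (i j : Fin N) : cmp π (E i * E j) = cmp π (E i) * cmp π (E j) :=
  cmp_mul h.idem _ (by rw [h.l, h.r])

theorem cmp_pi {x : Module.End ℂ W} (hx : π * x = x * π) : cmp π (π * x) = cmp π x := by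
  rw [cmp_eq_iff h.idem (by rw [mul_assoc, ← hx]) hx, ← mul_assoc, h.idem]

theorem soC_comm {x : Module.End ℂ W} (hx : x ∈ soC E c) : π * x = x * π := by
  induction hx using Submodule.span_induction with
  | mem x hx =>
    obtain ⟨i, j, -, -, rfl⟩ := hx
    rw [← mul_assoc, h.l, mul_assoc, h.r]
  | zero => rw [mul_zero, zero_mul]
  | add x y _ _ hx hy => rw [mul_add, add_mul, hx, hy]
  | smul r x _ hx => rw [mul_smul_comm, smul_mul_assoc, hx]

theorem map_soC : (soC E c).map (cmp π) = soC (fun i => cmp π (E i)) c := by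
  unfold soC
  rw [Submodule.map_span]
  congr 1
  ext z
  constructor
  · rintro ⟨_, ⟨i, j, hij, hc, rfl⟩, rfl⟩
    exact ⟨i, j, hij, hc, h.cmp_prod i j⟩
  · rintro ⟨i, j, hij, hc, rfl⟩
    exact ⟨_, ⟨i, j, hij, hc, rfl⟩, h.cmp_prod i j⟩

theorem map_g : 𝔤.map (cmp π) = soC (fun i => cmp π (E i)) c := by
  refine le_antisymm ?_ ?_
  · rintro _ ⟨x, hx, rfl⟩
    rw [← h.map_soC, ← h.cmp_pi (h.comm x hx)]
    exact ⟨_, h.img1 x hx, rfl⟩
  · refine Submodule.span_le.2 ?_
    rintro _ ⟨i, j, hij, hc, rfl⟩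
    obtain ⟨x, hx, hxe⟩ := h.img2 i j hij hc
    refine ⟨x, hx, ?_⟩
    rw [← h.cmp_pi (h.comm x hx), hxe, h.cmp_prod]

theorem cmp_mem {x : Module.End ℂ W} (hx : x ∈ 𝔤) :
    cmp π x ∈ soC (fun i => cmp π (E i)) c := by
  rw [← h.map_g]
  exact ⟨x, hx, rfl⟩

theorem cmp_br {x y : Module.End ℂ W} (hx : x ∈ 𝔤) (hy : y ∈ 𝔤) :
    cmp π (x * y - y * x) = cmp π x * cmp π y - cmp π y * cmp π x := by
  rw [map_sub, cmp_mul h.idem _ (h.comm y hy), cmp_mul h.idem _ (h.comm x hx)]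

section adj

variable {𝔥 : Submodule ℂ (Module.End ℂ W)} (hle : 𝔥 ≤ 𝔤)
include hle

theorem adj_cmp {a : Module.End ℂ W} (ha : a ∈ Algebra.adjoin ℂ (𝔥 : Set (Module.End ℂ W))) :
    π * a = a * π ∧ cmp π a ∈ Algebra.adjoin ℂ (𝔥.map (cmp π) : Set _) := by
  induction ha using Algebra.adjoin_induction with
  | mem x hx => exact ⟨h.comm x (hle hx), Algebra.subset_adjoin ⟨x, hx, rfl⟩⟩
  | algebraMap r =>
    refine ⟨(Algebra.commutes r π).symm, ?_⟩
    rw [Algebra.algebraMap_eq_smul_one, map_smul, cmp_one h.idem]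
    exact Subalgebra.smul_mem _ (Subalgebra.one_mem _) r
  | add x y _ _ hx hy =>
    refine ⟨by rw [mul_add, add_mul, hx.1, hy.1], ?_⟩
    rw [map_add]
    exact Subalgebra.add_mem _ hx.2 hy.2
  | mul x y _ _ hx hy =>
    refine ⟨by rw [← mul_assoc, hx.1, mul_assoc, hy.1, mul_assoc], ?_⟩
    rw [cmp_mul h.idem _ hy.1]
    exact Subalgebra.mul_mem _ hx.2 hy.2

end adj

omit h in
/-- Extension by zero. -/
theorem cmp_ext (π : Module.End ℂ W) (hπ : π * π = π) (T : Module.End ℂ (LinearMap.range π)) :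
    ∃ T' : Module.End ℂ W, ∀ x, π * x = x * π →
      (T' * x = x * T' ↔ T * cmp π x = cmp π x * T) := by
  refine ⟨(LinearMap.range π).subtype ∘ₗ T ∘ₗ π.codRestrict (LinearMap.range π) fun u => ⟨u, rfl⟩,
    fun x hx => ?_⟩
  have e1 : ∀ v, π.codRestrict (LinearMap.range π) (fun u => ⟨u, rfl⟩) (x v) =
      cmp π x (π.codRestrict (LinearMap.range π) (fun u => ⟨u, rfl⟩) v) := by
    intro v
    apply Subtype.ext
    rw [cmp_val]
    change π (x v) = π (x (π v))
    have h1 := LinearMap.congr_fun hx v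
    rw [Module.End.mul_apply, Module.End.mul_apply] at h1
    rw [← h1]
    exact (LinearMap.congr_fun hπ (x v)).symm
  have e2 : ∀ u : LinearMap.range π, x (u : W) = (cmp π x u : LinearMap.range π) := by
    intro u
    rw [cmp_val]
    have h1 := LinearMap.congr_fun hx (u : W)
    rw [Module.End.mul_apply, Module.End.mul_apply, range_fix hπ] at h1
    exact h1.symm
  constructor
  · intro h1
    ext u
    have h2 := LinearMap.congr_fun h1 (u : W)
    rw [Module.End.mul_apply, Module.End.mul_apply] at h2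
    have e3 : π.codRestrict (LinearMap.range π) (fun u => ⟨u, rfl⟩) (u : W) = u :=
      Subtype.ext (range_fix hπ u)
    change ((T (π.codRestrict (LinearMap.range π) (fun u => ⟨u, rfl⟩) (x u)) :
      LinearMap.range π) : W) = x (T (π.codRestrict (LinearMap.range π) (fun u => ⟨u, rfl⟩) u)) at h2
    rw [e1, e3, e2 (T u)] at h2
    exact h2
  · intro h1
    ext v
    have h2 := LinearMap.congr_fun h1 (π.codRestrict (LinearMap.range π) (fun u => ⟨u, rfl⟩) v)
    rw [Module.End.mul_apply, Module.End.mul_apply] at h2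
    change ((T (π.codRestrict (LinearMap.range π) (fun u => ⟨u, rfl⟩) (x v)) :
      LinearMap.range π) : W) = x (T (π.codRestrict (LinearMap.range π) (fun u => ⟨u, rfl⟩) v))
    rw [e1, h2, e2]

variable {𝔥 D : Submodule ℂ (Module.End ℂ W)} (hr : Red 𝔤 𝔥 D)
include hr

/-- The Lie algebra `𝔥` has the same image in a block. -/
theorem surj : ∀ x ∈ 𝔤, ∃ y ∈ 𝔥, cmp π y = cmp π x := by
  have hle := hr.le
  have hnt := h.nontriv
  have h1 : 𝔥.map (cmp π) ≤ soC (fun i => cmp π (E i)) c := by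
    rw [← h.map_g]
    exact Submodule.map_mono hle
  have h2 : ∀ x ∈ 𝔥.map (cmp π), ∀ y ∈ 𝔥.map (cmp π), x * y - y * x ∈ 𝔥.map (cmp π) := by
    rintro _ ⟨x, hx, rfl⟩ _ ⟨y, hy, rfl⟩
    exact ⟨x * y - y * x, hr.br x hx y hy, h.cmp_br (hle hx) (hle hy)⟩
  have h3 : ∀ i j, c i = c j → cmp π (E i) * cmp π (E j) ∈
      Algebra.adjoin ℂ (𝔥.map (cmp π) : Set _) := by
    intro i j hc
    by_cases hij : i = j
    · subst hij
      rw [h.ce.sq]
      exact Subalgebra.one_mem _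
    · obtain ⟨x, hx, hxe⟩ := h.img2 i j hij hc
      have h4 := (h.adj_cmp hle (hr.gen x hx)).2
      rwa [← h.cmp_pi (h.comm x hx), hxe, h.cmp_prod] at h4
  have key : soC (fun i => cmp π (E i)) c ≤ 𝔥.map (cmp π) := by
    rcases h.kind with hc | hc
    · obtain ⟨n, φ, ht⟩ := typeA_small (Or.inl rfl) h.ce hc
      have h5 : ∀ i, 3 ≤ (Finset.univ.filter fun j => c j = c i).card := fun i =>
        (hc (c i)).symm.le
      refine (soC_perfect h.ce h5).trans (Submodule.span_le.2 ?_)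
      rintro _ ⟨x, hx, y, hy, rfl⟩
      refine ht.br_mem (L := 𝔥.map (cmp π)) (D := D.map (cmp π)) h1 (Submodule.map_mono hr.dle) h2
        ?_ ?_ ?_ hx hy
      · rintro _ ⟨d, hd, rfl⟩
        have h6 := Submodule.mem_map_of_mem (f := cmp π) (hr.perf hd)
        rw [Submodule.map_span] at h6
        refine (Submodule.span_mono ?_) h6
        rintro _ ⟨_, ⟨x, hx, y, hy, rfl⟩, rfl⟩
        exact ⟨_, ⟨x, hx, rfl⟩, _, ⟨y, hy, rfl⟩, h.cmp_br (hle (hr.dle hx)) (hle (hr.dle hy))⟩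
      · rintro _ ⟨x, hx, rfl⟩
        obtain ⟨z, hz, d, hd, rfl, hcz⟩ := hr.dec x hx
        refine ⟨_, ⟨z, hz, rfl⟩, _, ⟨d, hd, rfl⟩, map_add _ _ _, ?_⟩
        rintro _ ⟨y, hy, rfl⟩
        rw [← cmp_mul h.idem _ (h.comm y (hle hy)), ← cmp_mul h.idem _ (h.comm z (hle hz)),
          hcz y hy]
      · intro T hT
        obtain ⟨T', hT'⟩ := cmp_ext π h.idem T
        have h6 := hr.com T' fun x hx => (hT' x (h.comm x (hle hx))).2 (hT _ ⟨x, hx, rfl⟩)
        rw [← h.map_g]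
        rintro _ ⟨x, hx, rfl⟩
        exact (hT' x (h.comm x hx)).1 (h6 x hx)
    · exact main_col h.ce hc _ h1 h2 h3
  intro x hx
  obtain ⟨y, hy, hyx⟩ := key (h.cmp_mem hx)
  exact ⟨y, hy, hyx⟩

end Blk

/-! ### Two blocks -/

section two

variable {𝔤 𝔥 D : Submodule ℂ (Module.End ℂ W)} {π π' : Module.End ℂ W} {N k N' k' : ℕ}
    {E : Fin N → Module.End ℂ W} {c : Fin N → Fin k} {E' : Fin N' → Module.End ℂ W}
    {c' : Fin N' → Fin k'} (h : Blk 𝔤 π E c) (h' : Blk 𝔤 π' E' c') (hr : Red 𝔤 𝔥 D)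
include h h' hr

/-- The linking lemma for two blocks. -/
theorem two_no_sep (l1 : ∀ y ∈ 𝔥, cmp π y = 0 → cmp π' y = 0)
    (l2 : ∀ y ∈ 𝔥, cmp π' y = 0 → cmp π y = 0) {a : Module.End ℂ W}
    (ha : a ∈ Algebra.adjoin ℂ (𝔥 : Set (Module.End ℂ W))) (h0 : cmp π a = 0)
    (h1 : cmp π' a = 1) : False := by
  have hle := hr.le
  have hbr := hr.br
  have hnt := h.nontriv
  have hnt' := h'.nontriv
  -- the linear map
  obtain ⟨θ, hθ⟩ : ∃ θ : Module.End ℂ (LinearMap.range π) →ₗ[ℂ] Module.End ℂ (LinearMap.range π'),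
      ∀ y ∈ 𝔥, θ (cmp π y) = cmp π' y := by
    let f : 𝔥 →ₗ[ℂ] Module.End ℂ (LinearMap.range π) := (cmp π) ∘ₗ 𝔥.subtype
    let g : 𝔥 →ₗ[ℂ] Module.End ℂ (LinearMap.range π') := (cmp π') ∘ₗ 𝔥.subtype
    have hk : LinearMap.ker f ≤ LinearMap.ker g := fun y hy => l1 y.1 y.2 hy
    obtain ⟨r, hr⟩ := LinearMap.exists_leftInverse_of_injective
      ((LinearMap.ker f).liftQ f le_rfl) (Submodule.ker_liftQ_eq_bot _ _ _ le_rfl)
    refine ⟨(LinearMap.ker f).liftQ g hk ∘ₗ r, fun y hy => ?_⟩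
    have e1 := LinearMap.congr_fun hr (Submodule.Quotient.mk ⟨y, hy⟩)
    rw [LinearMap.comp_apply, Submodule.liftQ_apply, LinearMap.id_apply] at e1
    change (LinearMap.ker f).liftQ g hk (r (f ⟨y, hy⟩)) = g ⟨y, hy⟩
    rw [e1, Submodule.liftQ_apply]
  have s1 := h.surj hr
  have s2 := h'.surj hr
  have lift : ∀ x ∈ soC (fun i => cmp π (E i)) c, ∃ y ∈ 𝔥, cmp π y = x := by
    intro x hx
    rw [← h.map_g] at hx
    obtain ⟨z, hz, rfl⟩ := hx
    exact s1 z hz
  have lift' : ∀ x ∈ soC (fun i => cmp π' (E' i)) c', ∃ y ∈ 𝔥, cmp π' y = x := by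
    intro x hx
    rw [← h'.map_g] at hx
    obtain ⟨z, hz, rfl⟩ := hx
    exact s2 z hz
  have hLD : LD (fun i => cmp π (E i)) c (fun i => cmp π' (E' i)) c' θ := by
    refine ⟨h.ce, h'.ce, h.good, h'.good, ?_, ?_, ?_, ?_⟩
    · intro x hx' y hy'
      obtain ⟨x, hx, rfl⟩ := lift x hx'
      obtain ⟨y, hy, rfl⟩ := lift y hy'
      rw [← h.cmp_br (hle hx) (hle hy), hθ _ (hbr x hx y hy), hθ x hx, hθ y hy,
        h'.cmp_br (hle hx) (hle hy)]
    · intro x hx' h2
      obtain ⟨x, hx, rfl⟩ := lift x hx'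
      rw [hθ x hx] at h2
      exact l2 x hx h2
    · intro x hx'
      obtain ⟨x, hx, rfl⟩ := lift x hx'
      rw [hθ x hx]
      exact h'.cmp_mem (hle hx)
    · intro y hy'
      obtain ⟨y, hy, rfl⟩ := lift' y hy'
      exact ⟨cmp π y, h.cmp_mem (hle hy), hθ y hy⟩
  refine hLD.no_sep (a := (cmp π a).prodMap (cmp π' a)) ?_ (fun u => ?_) (fun u => ?_)
  · have key : ∀ a ∈ Algebra.adjoin ℂ (𝔥 : Set (Module.End ℂ W)),
        (cmp π a).prodMap (cmp π' a) ∈ Algebra.adjoin ℂ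
          {z | ∃ x ∈ soC (fun i => cmp π (E i)) c, z = x.prodMap (θ x)} := by
      intro a ha
      induction ha using Algebra.adjoin_induction with
      | mem x hx =>
        refine Algebra.subset_adjoin ⟨cmp π x, h.cmp_mem (hle hx), ?_⟩
        rw [hθ x hx]
      | algebraMap r =>
        rw [Algebra.algebraMap_eq_smul_one, map_smul, map_smul, cmp_one h.idem, cmp_one h'.idem]
        have e : ((r • (1 : Module.End ℂ (LinearMap.range π))).prodMap
            (r • (1 : Module.End ℂ (LinearMap.range π')))) = r • 1 := rfl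
        rw [e]
        exact Subalgebra.smul_mem _ (Subalgebra.one_mem _) r
      | add x y _ _ hx hy =>
        rw [map_add, map_add]
        exact Subalgebra.add_mem _ hx hy
      | mul x y _ hy1 hx hy =>
        rw [cmp_mul h.idem _ (h.adj_cmp hle hy1).1, cmp_mul h'.idem _ (h'.adj_cmp hle hy1).1]
        exact Subalgebra.mul_mem _ hx hy
    exact key a ha
  · change (cmp π a u, cmp π' a 0) = 0
    rw [h0, map_zero]
    rfl
  · change (cmp π a 0, cmp π' a u) = (0, u)
    rw [h1, map_zero]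
    rfl

/-- Linked blocks are linked for the larger Lie algebra. -/
theorem two_link (hg : ∀ x ∈ 𝔤, ∀ y ∈ 𝔤, x * y - y * x ∈ 𝔤)
    (l1 : ∀ y ∈ 𝔥, cmp π y = 0 → cmp π' y = 0)
    (l2 : ∀ y ∈ 𝔥, cmp π' y = 0 → cmp π y = 0) : ∀ x ∈ 𝔤, cmp π x = 0 → cmp π' x = 0 := by
  have gen := hr.gen
  have hnt := h.nontriv
  have hnt' := h'.nontriv
  intro x0 hx0 hx00
  by_contra hne
  set F : Fin N' → Module.End ℂ (LinearMap.range π') := fun i => cmp π' (E' i) with hF
  have hFce : CE F := h'.ce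
  let J : Submodule ℂ (Module.End ℂ (LinearMap.range π')) :=
    (𝔤 ⊓ LinearMap.ker (cmp π)).map (cmp π')
  have hJle : J ≤ soC F c' := by
    rintro _ ⟨x, hx, rfl⟩
    exact h'.cmp_mem hx.1
  have hJbr : ∀ x ∈ soC F c', ∀ y ∈ J, x * y - y * x ∈ J := by
    rintro x hx _ ⟨y, hy, rfl⟩
    rw [← h'.map_g] at hx
    obtain ⟨z, hz, rfl⟩ := hx
    refine ⟨z * y - y * z, ⟨hg z hz y hy.1, ?_⟩, h'.cmp_br hz hy.1⟩
    have h2 : cmp π y = 0 := hy.2
    change cmp π (z * y - y * z) = 0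
    rw [h.cmp_br hz hy.1, h2, mul_zero, zero_mul, sub_zero]
  have hz : cmp π' x0 ∈ J := ⟨x0, ⟨hx0, hx00⟩, rfl⟩
  obtain ⟨t, ht⟩ : ∃ t, pS F c' t (cmp π' x0) ≠ 0 := by
    by_contra hcon
    push Not at hcon
    apply hne
    rw [pS_sum hFce (hJle hz)]
    exact Finset.sum_eq_zero fun t _ => hcon t
  have hJt : soS F c' t ≤ J := by
    rcases soS_simple hFce h'.good (J ⊓ soS F c' t) inf_le_right (fun x hx y hy =>
      ⟨hJbr x (soS_le t hx) y hy.1, soS_br hFce hx hy.2⟩) with h2 | h2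
    · exfalso
      -- the projection would be central
      have h3 : ∀ x ∈ soS F c' t, x * pS F c' t (cmp π' x0) - pS F c' t (cmp π' x0) * x = 0 := by
        intro x hx
        have h4 := Link_part hFce hx (hJle hz)
        have h5 : x * cmp π' x0 - cmp π' x0 * x ∈ J ⊓ soS F c' t := by
          refine ⟨hJbr x (soS_le t hx) _ hz, ?_⟩
          have h6 : x * cmp π' x0 - cmp π' x0 * x =
              -(cmp π' x0 * x - x * cmp π' x0) := by abel
          rw [h6]
          exact Submodule.neg_mem _ (br_soS hFce (hJle hz) hx)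
        rw [h2, Submodule.mem_bot] at h5
        rw [← neg_eq_zero, neg_sub, ← h4, ← neg_eq_zero, neg_sub]
        exact h5
      have h4 := soS_simple hFce h'.good (Submodule.span ℂ {pS F c' t (cmp π' x0)})
        (by
          rw [Submodule.span_singleton_le_iff_mem]
          exact pS_mem hFce (hJle hz))
        (fun x hx y hy => by
          obtain ⟨r, rfl⟩ := Submodule.mem_span_singleton.1 hy
          rw [mul_smul_comm, smul_mul_assoc, ← smul_sub, h3 x hx, smul_zero]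
          exact Submodule.zero_mem _)
      rcases h4 with h4 | h4
      · rw [Submodule.span_singleton_eq_bot] at h4
        exact ht h4
      · have h5 := soS_perfect hFce h'.good t
        have h6 : Submodule.span ℂ {z | ∃ x ∈ soS F c' t, ∃ y ∈ soS F c' t,
            z = x * y - y * x} ≤ ⊥ := by
          refine Submodule.span_le.2 ?_
          rintro _ ⟨x, hx, y, hy, rfl⟩
          rw [← h4] at hy
          obtain ⟨r, rfl⟩ := Submodule.mem_span_singleton.1 hy
          rw [mul_smul_comm, smul_mul_assoc, ← smul_sub, h3 x hx, smul_zero]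
          exact Submodule.zero_mem _
        have h7 := h6 (h5 (pS_mem (σ := t) hFce (hJle hz)))
        rw [Submodule.mem_bot] at h7
        exact ht h7
    · exact inf_eq_right.1 h2
  -- a product of two generators
  obtain ⟨i, hi⟩ : ∃ i, c' i = t := by
    by_contra hcon
    push Not at hcon
    have h1 := pS_mem (σ := t) hFce (hJle hz)
    rw [soS_empty hcon, Submodule.mem_bot] at h1
    exact ht h1
  obtain ⟨j, hj, hij⟩ : ∃ j, c' j = t ∧ i ≠ j := by
    have h1 := (h'.good i).three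
    unfold size at h1
    rw [hi] at h1
    obtain ⟨a, ha, b, hb, hab⟩ := Finset.one_lt_card.1 (lt_of_lt_of_le (by norm_num : 1 < 3) h1)
    by_cases hai : a = i
    · exact ⟨b, (Finset.mem_filter.1 hb).2, fun h2 => hab (by rw [hai, h2])⟩
    · exact ⟨a, (Finset.mem_filter.1 ha).2, fun h2 => hai h2.symm⟩
  obtain ⟨x, hx, hxe⟩ := hJt (Submodule.subset_span ⟨i, j, hij, hi, hj, rfl⟩)
  have hxk : cmp π x = 0 := hx.2
  refine two_no_sep h h' hr l1 l2 (a := -(x * x))
    (Subalgebra.neg_mem _ (Subalgebra.mul_mem _ (gen x hx.1) (gen x hx.1))) ?_ ?_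
  · rw [map_neg, cmp_mul h.idem _ (h.comm x hx.1), hxk, mul_zero, neg_zero]
  · rw [map_neg, cmp_mul h'.idem _ (h'.comm x hx.1), hxe, simple_sq hFce hij, neg_neg]

end two

end Pool.Agent.K1H15.K3
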