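import Pool.Agent.K1H15.K3.Sp

set_option autoImplicit false
set_option linter.unusedSectionVars false
set_option linter.unusedVariables false

/-!
# The classes of integral weights modulo the root lattice
-/

open Module

namespace Pool.Agent.K1H15.K3

open Pool.Agent.Y102.SP

variable {L T U : Type} [LieRing L] [LieAlgebra ℂ L] [AddCommGroup T] [Module ℂ T]
  [AddCommGroup U] [Module ℂ U]
variable [FiniteDimensional ℂ U] [Nontrivial U] (S : Spin L U) (A : AbsRoot L T)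

namespace Spin

include S in
theorem phi_ne : A.R.Φ.Nonempty := by
  by_contra hcon
  rw [Set.not_nonempty_iff_eq_empty] at hcon
  have h1 := S.hspan A
  rw [hcon, Set.image_empty, Submodule.span_empty, sup_bot_eq] at h1
  have hn := S.hn
  let i : Fin S.n := ⟨0, by omega⟩
  let j : Fin S.n := ⟨1, by omega⟩
  let k : Fin S.n := ⟨2, by omega⟩
  have hij : i ≠ j := by simp [i, j]
  have hjk : j ≠ k := by simp [j, k]
  have hik : i ≠ k := by simp [i, k]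
  obtain ⟨s, hs⟩ := h1 (Submodule.subset_span ⟨i, j, hij, rfl⟩)
  obtain ⟨t, ht⟩ := h1 (Submodule.subset_span ⟨j, k, hjk, rfl⟩)
  have h2 := rep_comm A S.rep s t
  rw [hs, ht] at h2
  have h3 : S.E i * S.E j * (S.E j * S.E k) = S.E i * S.E k := by
    rw [mul_assoc, ← mul_assoc (S.E j), S.hE.sq, one_mul]
  have h4 : S.E j * S.E k * (S.E i * S.E j) = -(S.E i * S.E k) := by
    calc S.E j * S.E k * (S.E i * S.E j) = S.E j * (S.E k * S.E i) * S.E j := by noncomm_ring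
      _ = -((S.E j * S.E i) * (S.E k * S.E j)) := by
        rw [S.hE.anti k i hik.symm]
        noncomm_ring
      _ = -(S.E i * (S.E j * S.E j) * S.E k) := by
        rw [S.hE.anti j i hij.symm, S.hE.anti k j hjk.symm]
        noncomm_ring
      _ = -(S.E i * S.E k) := by rw [S.hE.sq, mul_one]
  rw [h3, h4] at h2
  have h5 : (2 : ℂ) • (S.E i * S.E k) = 0 := by
    rw [two_smul]
    nth_rewrite 1 [h2]
    exact neg_add_cancel _
  have h6 : S.E i * S.E k = 0 := (smul_eq_zero.1 h5).resolve_left two_ne_zero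
  have h7 : S.E i * (S.E i * S.E k) * S.E k = 1 := by
    rw [← mul_assoc, S.hE.sq, one_mul, S.hE.sq]
  rw [h6, mul_zero, zero_mul] at h7
  exact zero_ne_one h7

/-- The coordinates. -/
noncomputable def co (χ : Module.Dual ℂ T) : T :=
  open Classical in
  if h : χ ∈ S.Om A ∧ χ ≠ 0 then (S.exists_co A h.1 h.2).choose else 0

theorem co_spec {χ : Module.Dual ℂ T} (hχ : χ ∈ S.Om A) (h0 : χ ≠ 0) :
    ∃ x y, S.Co A χ (S.co A χ) x y := by
  unfold co
  rw [dif_pos ⟨hχ, h0⟩]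
  exact (S.exists_co A hχ h0).choose_spec

/-- The positive weights. -/
def Pos (φ : Module.Dual ℂ T →ₗ[ℚ] ℚ) (F : Finset (Module.Dual ℂ T)) : Prop :=
  (∀ ω ∈ S.Om A, ω ≠ 0 → φ ω ≠ 0) ∧ ∀ χ, χ ∈ F ↔ χ ∈ S.Om A ∧ 0 < φ χ

variable {S A}

theorem Pos.ne {φ : Module.Dual ℂ T →ₗ[ℚ] ℚ} {F : Finset (Module.Dual ℂ T)} (h : S.Pos A φ F)
    {χ : Module.Dual ℂ T} (hχ : χ ∈ F) : χ ≠ 0 := by
  rintro rfl
  have := ((h.2 0).1 hχ).2
  rw [map_zero] at this
  exact lt_irrefl _ this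

theorem Pos.complete {φ : Module.Dual ℂ T →ₗ[ℚ] ℚ} {F : Finset (Module.Dual ℂ T)}
    (h : S.Pos A φ F) (t : T) : t = ∑ χ ∈ F, χ t • S.co A χ := by
  obtain ⟨z, hz⟩ : ∃ z, z = t - ∑ χ ∈ F, χ t • S.co A χ := ⟨_, rfl⟩
  suffices hz0 : z = 0 by
    rw [hz0] at hz
    exact (sub_eq_zero.1 hz.symm)
  have hkey : ∀ ψ ∈ S.Om A, ψ z = 0 := by
    intro ψ hψ
    rw [hz, map_sub, map_sum]
    by_cases h0 : ψ = 0
    · subst h0
      simp
    obtain ⟨x, y, hc⟩ := S.co_spec A hψ h0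
    rcases lt_or_gt_of_ne (h.1 ψ hψ h0) with hn | hp
    · have hmem : -ψ ∈ F := (h.2 _).2 ⟨S.om_neg A hψ, by rw [map_neg]; linarith⟩
      rw [Finset.sum_eq_single (-ψ)]
      · obtain ⟨x', y', hc'⟩ := S.co_spec A (S.om_neg A hψ) (neg_ne_zero.2 h0)
        have h1 := hc'.self
        rw [LinearMap.neg_apply] at h1
        rw [map_smul, smul_eq_mul, LinearMap.neg_apply]
        linear_combination -(ψ t) * h1
      · intro χ hχ hne
        obtain ⟨x', y', hc'⟩ := S.co_spec A ((h.2 χ).1 hχ).1 (h.ne hχ)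
        rw [map_smul, hc'.other hψ, smul_zero]
        · rintro rfl
          have := ((h.2 ψ).1 hχ).2
          linarith
        · intro h1
          apply hne
          rw [h1, neg_neg]
      · intro h1
        exact absurd hmem h1
    · have hmem : ψ ∈ F := (h.2 _).2 ⟨hψ, hp⟩
      rw [Finset.sum_eq_single ψ]
      · rw [map_smul, smul_eq_mul, hc.self, mul_one, sub_self]
      · intro χ hχ hne
        obtain ⟨x', y', hc'⟩ := S.co_spec A ((h.2 χ).1 hχ).1 (h.ne hχ)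
        rw [map_smul, hc'.other hψ hne.symm, smul_zero]
        rintro h1
        have h2 := ((h.2 χ).1 hχ).2
        rw [h1, map_neg] at hp
        linarith
      · intro h1
        exact absurd hmem h1
  -- `z` acts trivially on the vectors
  have hV : ∀ v ∈ VE S.E, io A S.ρ z * v - v * io A S.ρ z = 0 := by
    intro v hv
    have h1 := (S.sys A).vspan hv
    refine Submodule.iSup_induction (fun χ => VE S.E ⊓ wsp (io A S.ρ) χ)
      (motive := fun v => io A S.ρ z * v - v * io A S.ρ z = 0) h1 ?_ ?_ ?_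
    · intro χ v hv
      by_cases hv0 : v = 0
      · rw [hv0, mul_zero, zero_mul, sub_zero]
      · have h2 : χ ∈ S.Om A := S.om_mem A (χ := χ) hv hv0
        rw [hv.2 z, hkey χ h2, zero_smul]
    · rw [mul_zero, zero_mul, sub_zero]
    · intro v w h1 h2
      have : io A S.ρ z * (v + w) - (v + w) * io A S.ρ z =
          (io A S.ρ z * v - v * io A S.ρ z) + (io A S.ρ z * w - w * io A S.ρ z) := by
        noncomm_ring
      rw [this, h1, h2, add_zero]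
  have h1 : (4 : ℂ) • io A S.ρ z = 0 := by
    rw [io_apply, soE_rec S.hE (S.mem (A.ι z))]
    refine Finset.sum_eq_zero fun i _ => ?_
    have := hV (S.E i) (Submodule.subset_span ⟨i, rfl⟩)
    rw [io_apply] at this
    rw [this, zero_mul]
  have h2 : io A S.ρ z = 0 := (smul_eq_zero.1 h1).resolve_left (by norm_num)
  apply A.inj
  apply S.inj
  rw [map_zero, map_zero]
  exact h2

theorem Pos.expand {φ : Module.Dual ℂ T →ₗ[ℚ] ℚ} {F : Finset (Module.Dual ℂ T)}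
    (h : S.Pos A φ F) (ψ : Module.Dual ℂ T) : ψ = ∑ χ ∈ F, ψ (S.co A χ) • χ := by
  ext t
  conv_lhs => rw [h.complete t]
  rw [map_sum, LinearMap.sum_apply]
  refine Finset.sum_congr rfl fun χ _ => ?_
  rw [map_smul, LinearMap.smul_apply, smul_eq_mul, smul_eq_mul, mul_comm]

/-- Integral weights. -/
def IntW (A : AbsRoot L T) (ψ : Module.Dual ℂ T) : Prop := ∀ α ∈ A.R.Φ, ∃ m : ℤ, ψ (A.h α) = m

theorem Co.int_sub {χ χ' : Module.Dual ℂ T} {t t' : T} {x y x' y' : Module.End ℂ U}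
    (h : S.Co A χ t x y) (h' : S.Co A χ' t' x' y') (h1 : χ' ≠ χ) (h2 : χ' ≠ -χ)
    {ψ : Module.Dual ℂ T} (hψ : IntW A ψ) : ∃ m : ℤ, ψ t - ψ t' = m := by
  obtain ⟨h3, h4⟩ := h.coroot h'.neg (fun h5 => h2 (by rw [← h5, neg_neg]))
    (fun h5 => h1 (neg_injective h5))
  obtain ⟨m, hm⟩ := hψ _ h3
  refine ⟨m, ?_⟩
  rw [← hm, h4, map_add, map_neg]
  ring

theorem Co.int_add {χ χ' : Module.Dual ℂ T} {t t' : T} {x y x' y' : Module.End ℂ U}
    (h : S.Co A χ t x y) (h' : S.Co A χ' t' x' y') (h1 : χ' ≠ χ) (h2 : χ' ≠ -χ)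
    {ψ : Module.Dual ℂ T} (hψ : IntW A ψ) : ∃ m : ℤ, ψ t + ψ t' = m := by
  obtain ⟨h3, h4⟩ := h.coroot h' h1 h2
  obtain ⟨m, hm⟩ := hψ _ h3
  refine ⟨m, ?_⟩
  rw [← hm, h4, map_add]

theorem Pos.int_sub {φ : Module.Dual ℂ T →ₗ[ℚ] ℚ} {F : Finset (Module.Dual ℂ T)}
    (h : S.Pos A φ F) {ψ : Module.Dual ℂ T} (hψ : IntW A ψ) {χ χ' : Module.Dual ℂ T}
    (hχ : χ ∈ F) (hχ' : χ' ∈ F) : ∃ m : ℤ, ψ (S.co A χ) - ψ (S.co A χ') = m := by
  by_cases h1 : χ' = χ
  · exact ⟨0, by rw [h1, sub_self, Int.cast_zero]⟩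
  · obtain ⟨x, y, hc⟩ := S.co_spec A ((h.2 χ).1 hχ).1 (h.ne hχ)
    obtain ⟨x', y', hc'⟩ := S.co_spec A ((h.2 χ').1 hχ').1 (h.ne hχ')
    refine hc.int_sub hc' h1 ?_ hψ
    intro h2
    have h3 := ((h.2 χ).1 hχ).2
    have h4 := ((h.2 χ').1 hχ').2
    rw [h2, map_neg] at h4
    linarith

variable (S A)

/-- In the even case there are other weights. -/
theorem exists_other (h0 : (0 : Module.Dual ℂ T) ∉ S.Om A) (χ : Module.Dual ℂ T) :
    ∃ ψ ∈ S.Om A, ψ ≠ 0 ∧ ψ ≠ χ ∧ ψ ≠ -χ := by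
  obtain ⟨α, hα⟩ := S.phi_ne A
  obtain ⟨a, b, hab, v, hv, w, hw, hne, -⟩ := S.root_form A hα
  have hv0 : v ≠ 0 := by
    rintro rfl
    exact hne (zero_mul _)
  have hw0 : w ≠ 0 := by
    rintro rfl
    exact hne (mul_zero _)
  have ha := S.om_mem A hv hv0
  have hb := S.om_mem A hw hw0
  have ha0 : a ≠ 0 := fun h => h0 (h ▸ ha)
  have hb0 : b ≠ 0 := fun h => h0 (h ▸ hb)
  have h1 : a ≠ b := by
    rintro rfl
    obtain ⟨t, x, y, hc⟩ := S.exists_co A ha ha0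
    apply hne
    rw [hc.line hv, hc.line hw, smul_mul_assoc, mul_smul_comm, S.sq_zero A hc.hx ha0, smul_zero,
      smul_zero]
  have h2 : a ≠ -b := by
    rintro rfl
    rw [neg_add_cancel] at hab
    exact A.R.zero (hab ▸ hα)
  by_cases h3 : a = χ
  · refine ⟨b, hb, hb0, fun h4 => h1 (by rw [h3, h4]), fun h4 => h2 (by rw [h3, h4, neg_neg])⟩
  by_cases h4 : a = -χ
  · refine ⟨b, hb, hb0, fun h5 => h2 (by rw [h4, h5]), fun h5 => h1 (by rw [h4, h5])⟩
  exact ⟨a, ha, ha0, h3, h4⟩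

/-- In the even case the pairings of the weights of the vectors are at most one. -/
theorem om_pr (h0 : (0 : Module.Dual ℂ T) ∉ S.Om A) {χ : Module.Dual ℂ T} (hχ : χ ∈ S.Om A)
    {α : Module.Dual ℂ T} (hα : α ∈ A.R.Φ) : A.R.pr α χ ≤ 1 := by
  obtain ⟨a, b, hab, v, hv, w, hw, hne, -⟩ := S.root_form A hα
  have hv0 : v ≠ 0 := by
    rintro rfl
    exact hne (zero_mul _)
  have hw0 : w ≠ 0 := by
    rintro rfl
    exact hne (mul_zero _)
  have ha := S.om_mem A hv hv0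
  have hb := S.om_mem A hw hw0
  have ha0 : a ≠ 0 := fun h => h0 (h ▸ ha)
  have hb0 : b ≠ 0 := fun h => h0 (h ▸ hb)
  obtain ⟨t, x, y, hc⟩ := S.exists_co A ha ha0
  obtain ⟨t', x', y', hc'⟩ := S.exists_co A hb hb0
  have h1 : b ≠ a := by
    rintro rfl
    apply hne
    rw [hc.line hv, hc.line hw, smul_mul_assoc, mul_smul_comm, S.sq_zero A hc.hx ha0, smul_zero,
      smul_zero]
  have h2 : b ≠ -a := by
    rintro rfl
    rw [add_neg_cancel] at hab
    exact A.R.zero (hab ▸ hα)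
  obtain ⟨-, h3⟩ := hc.coroot hc' h1 h2
  rw [hab] at h3
  have key : ∀ (c d : Module.Dual ℂ T) (t t' : T) (x y x' y' : Module.End ℂ U),
      S.Co A c t x y → S.Co A d t' x' y' → c ≠ d → c ≠ -d → χ = c → χ (t + t') = 1 := by
    rintro c d t t' x y x' y' hc hc' h1 h2 rfl
    rw [map_add, hc.self, hc'.other hχ h1 h2, add_zero]
  have hval : χ (A.h α) = 1 ∨ χ (A.h α) = 0 ∨ χ (A.h α) = -1 := by
    rw [h3]
    have h1' : a ≠ b := h1.symm
    have h2' : a ≠ -b := fun h4 => h2 (by rw [h4, neg_neg])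
    by_cases e1 : χ = a
    · exact Or.inl (key a b t t' x y x' y' hc hc' h1' h2' e1)
    by_cases e2 : χ = b
    · left
      rw [add_comm]
      exact key b a t' t x' y' x y hc' hc h1 h2 e2
    by_cases e3 : χ = -a
    · right; right
      have := key (-a) (-b) (-t) (-t') y x y' x' hc.neg hc'.neg (fun h4 => h1' (neg_injective h4))
        (fun h4 => h2' (neg_injective (by rw [h4]))) e3
      rw [map_add, map_neg, map_neg] at this
      rw [map_add]
      linear_combination -this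
    by_cases e4 : χ = -b
    · right; right
      have := key (-b) (-a) (-t') (-t) y' x' y x hc'.neg hc.neg (fun h4 => h1 (neg_injective h4))
        (fun h4 => h2 (neg_injective (by rw [h4]))) e4
      rw [map_add, map_neg, map_neg] at this
      rw [map_add]
      linear_combination -this
    right; left
    rw [map_add, hc.other hχ e1 e3, hc'.other hχ e2 e4, add_zero]
  have hq : ∃ q : ℚ, χ (A.h α) = q ∧ q ≤ 1 := by
    rcases hval with h | h | h
    · exact ⟨1, by rw [h]; norm_num, le_rfl⟩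
    · exact ⟨0, by rw [h]; norm_num, by norm_num⟩
    · exact ⟨-1, by rw [h]; norm_num, by norm_num⟩
  obtain ⟨q, hq, hq1⟩ := hq
  have h4 := A.prh α hα χ ⟨q, hq⟩
  rw [hq] at h4
  have h5 : q = A.R.pr α χ := Rat.cast_injective h4
  rw [← h5]
  exact hq1

theorem om_notin (h0 : (0 : Module.Dual ℂ T) ∉ S.Om A) {χ : Module.Dual ℂ T} (hχ : χ ∈ S.Om A) :
    χ ∉ Q A.R := by
  intro h
  obtain ⟨α, hα, h2⟩ := exists_two A.R h (fun h1 => h0 (h1 ▸ hχ))
  have := S.om_pr A h0 hχ hα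
  linarith

variable {S A}

theorem two_mem (h0 : (0 : Module.Dual ℂ T) ∉ S.Om A) {χ : Module.Dual ℂ T} (hχ : χ ∈ S.Om A) :
    χ + χ ∈ Q A.R := by
  have hχ0 : χ ≠ 0 := fun h => h0 (h ▸ hχ)
  obtain ⟨ψ, hψ, hψ0, h1, h2⟩ := S.exists_other A h0 χ
  obtain ⟨t, x, y, hc⟩ := S.exists_co A hχ hχ0
  obtain ⟨t', x', y', hc'⟩ := S.exists_co A hψ hψ0
  have h3 := (hc.coroot hc' h1 h2).1
  have h4 := (hc.coroot hc'.neg (fun h5 => h2 (by rw [← h5, neg_neg]))
    (fun h5 => h1 (neg_injective h5))).1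
  have h5 : χ + χ = (χ + ψ) + (χ + -ψ) := by abel
  rw [h5]
  exact add_mem (AddSubgroup.subset_closure h3) (AddSubgroup.subset_closure h4)

theorem diff_mem {χ χ' : Module.Dual ℂ T} (hχ : χ ∈ S.Om A) (hχ' : χ' ∈ S.Om A)
    (h0 : χ ≠ 0) (h0' : χ' ≠ 0) (h1 : χ' ≠ -χ) : χ - χ' ∈ Q A.R := by
  by_cases h2 : χ' = χ
  · rw [h2, sub_self]
    exact zero_mem _
  obtain ⟨t, x, y, hc⟩ := S.exists_co A hχ h0
  obtain ⟨t', x', y', hc'⟩ := S.exists_co A hχ' h0'
  have h3 := (hc.coroot hc'.neg (fun h5 => h1 (by rw [← h5, neg_neg]))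
    (fun h5 => h2 (neg_injective h5))).1
  rw [sub_eq_add_neg]
  exact AddSubgroup.subset_closure h3

theorem int_smul (m : ℤ) (χ : Module.Dual ℂ T) : (m : ℂ) • χ = m • χ := by
  ext t
  simp

/-- Combinations of the positive weights with integral coefficients, even case. -/
theorem Pos.int_even {φ : Module.Dual ℂ T →ₗ[ℚ] ℚ} {F : Finset (Module.Dual ℂ T)}
    (h : S.Pos A φ F) (h0 : (0 : Module.Dual ℂ T) ∉ S.Om A) {χ₀ : Module.Dual ℂ T} (hχ₀ : χ₀ ∈ F)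
    {ψ : Module.Dual ℂ T} (hψ : ∀ χ ∈ F, ∃ m : ℤ, ψ (S.co A χ) = m) :
    ψ ∈ Q A.R ∨ ψ - χ₀ ∈ Q A.R := by
  classical
  choose! m hm using hψ
  have h1 : ψ = ∑ χ ∈ F, m χ • χ := by
    conv_lhs => rw [h.expand ψ]
    refine Finset.sum_congr rfl fun χ hχ => ?_
    rw [hm χ hχ, int_smul]
  have h2 : ∑ χ ∈ F, m χ • (χ - χ₀) ∈ Q A.R := by
    refine sum_mem fun χ hχ => zsmul_mem ?_ _
    refine diff_mem ((h.2 χ).1 hχ).1 ((h.2 χ₀).1 hχ₀).1 (h.ne hχ) (h.ne hχ₀) ?_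
    intro h2
    have h3 := ((h.2 χ).1 hχ).2
    have h4 := ((h.2 χ₀).1 hχ₀).2
    rw [h2, map_neg] at h4
    linarith
  have h3 : ψ = ∑ χ ∈ F, m χ • (χ - χ₀) + (∑ χ ∈ F, m χ) • χ₀ := by
    rw [h1, Finset.sum_smul, ← Finset.sum_add_distrib]
    refine Finset.sum_congr rfl fun χ _ => ?_
    rw [smul_sub, sub_add_cancel]
  have h4 := two_mem (S := S) (A := A) h0 ((h.2 χ₀).1 hχ₀).1
  rcases Int.even_or_odd' (∑ χ ∈ F, m χ) with ⟨k, hk | hk⟩
  · left
    rw [h3, hk]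
    refine add_mem h2 ?_
    have : (2 * k) • χ₀ = k • (χ₀ + χ₀) := by
      rw [mul_comm, mul_smul, two_smul]
    rw [this]
    exact zsmul_mem h4 _
  · right
    have : ψ - χ₀ = ∑ χ ∈ F, m χ • (χ - χ₀) + k • (χ₀ + χ₀) := by
      rw [h3, hk, add_smul, one_smul, mul_comm, mul_smul, two_smul]
      abel
    rw [this]
    exact add_mem h2 (zsmul_mem h4 _)

/-- Combinations of the positive weights with integral coefficients, odd case. -/
theorem Pos.int_odd {φ : Module.Dual ℂ T →ₗ[ℚ] ℚ} {F : Finset (Module.Dual ℂ T)}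
    (h : S.Pos A φ F) (h0 : (0 : Module.Dual ℂ T) ∈ S.Om A)
    {ψ : Module.Dual ℂ T} (hψ : ∀ χ ∈ F, ∃ m : ℤ, ψ (S.co A χ) = m) : ψ ∈ Q A.R := by
  classical
  choose! m hm using hψ
  have h1 : ψ = ∑ χ ∈ F, m χ • χ := by
    conv_lhs => rw [h.expand ψ]
    refine Finset.sum_congr rfl fun χ hχ => ?_
    rw [hm χ hχ, int_smul]
  rw [h1]
  refine sum_mem fun χ hχ => zsmul_mem ?_ _
  obtain ⟨x, y, hc⟩ := S.co_spec A ((h.2 χ).1 hχ).1 (h.ne hχ)
  exact AddSubgroup.subset_closure (hc.coroot0 h0).1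

/-- The coordinates of integral weights are all integral, or all half-integral. -/
theorem Pos.dich {φ : Module.Dual ℂ T →ₗ[ℚ] ℚ} {F : Finset (Module.Dual ℂ T)}
    (h : S.Pos A φ F) {lam : Module.Dual ℂ T} (hlam : ∀ χ ∈ F, lam (S.co A χ) = 1 / 2)
    {χ₀ : Module.Dual ℂ T} (hχ₀ : χ₀ ∈ F) {ψ : Module.Dual ℂ T} (hψ : IntW A ψ) :
    (∀ χ ∈ F, ∃ m : ℤ, ψ (S.co A χ) = m) ∨ ∀ χ ∈ F, ∃ m : ℤ, (ψ - lam) (S.co A χ) = m := by
  obtain ⟨x, y, hc⟩ := S.co_spec A ((h.2 χ₀).1 hχ₀).1 (h.ne hχ₀)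
  have h2 : ∃ k : ℤ, 2 * ψ (S.co A χ₀) = k := by
    by_cases h0 : (0 : Module.Dual ℂ T) ∈ S.Om A
    · obtain ⟨h3, h4⟩ := hc.coroot0 h0
      obtain ⟨k, hk⟩ := hψ _ h3
      refine ⟨k, ?_⟩
      rw [← hk, h4, map_smul, smul_eq_mul]
    · obtain ⟨ω, hω, hω0, h3, h4⟩ := S.exists_other A h0 χ₀
      obtain ⟨t', x', y', hc'⟩ := S.exists_co A hω hω0
      obtain ⟨k, hk⟩ := hc.int_add hc' h3 h4 hψ
      obtain ⟨l, hl⟩ := hc.int_sub hc' h3 h4 hψ
      refine ⟨k + l, ?_⟩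
      push_cast
      rw [← hk, ← hl]
      ring
  obtain ⟨k, hk⟩ := h2
  rcases Int.even_or_odd' k with ⟨l, hl | hl⟩
  · left
    intro χ hχ
    obtain ⟨m, hm⟩ := h.int_sub hψ hχ hχ₀
    refine ⟨m + l, ?_⟩
    rw [hl] at hk
    push_cast at hk ⊢
    linear_combination hm + hk / 2
  · right
    intro χ hχ
    obtain ⟨m, hm⟩ := h.int_sub hψ hχ hχ₀
    refine ⟨m + l, ?_⟩
    rw [hl] at hk
    rw [LinearMap.sub_apply, hlam χ hχ]
    push_cast at hk ⊢
    linear_combination hm + hk / 2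

end Spin

end Pool.Agent.K1H15.K3
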