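import Pool.Agent.K1H15.K3.Cls
import Pool.Agent.Y102.SP.Pr
import Pool.Agent.Y102.SP.Fun

set_option autoImplicit false
set_option linter.unusedSectionVars false
set_option linter.unusedVariables false

/-!
# Two spin representations of the same Lie algebra have a common highest weight
-/

open Module

namespace Pool.Agent.K1H15.K3

open Pool.Agent.Y102.SP

variable {L T U U' : Type} [LieRing L] [LieAlgebra ℂ L] [AddCommGroup T] [Module ℂ T]
  [AddCommGroup U] [Module ℂ U] [AddCommGroup U'] [Module ℂ U']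
variable [FiniteDimensional ℂ U] [Nontrivial U] [FiniteDimensional ℂ U'] [Nontrivial U']
  (S : Spin L U) (S' : Spin L U') (A : AbsRoot L T)

namespace Spin

/-- `ω` is a weight of the spin representation. -/
def IsWt (ω : Module.Dual ℂ T) : Prop := usp (io A S.ρ) ω ≠ ⊥

theorem IsWt.int {S : Spin L U} {A : AbsRoot L T} {ω : Module.Dual ℂ T} (h : S.IsWt A ω) :
    IntW A ω := fun α hα => by
  obtain ⟨m, h1, -, -⟩ := wt_le A S.rep (S.isMin A) hα h
  exact ⟨m, h1⟩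

theorem exists_ne : ∃ χ ∈ S.Om A, χ ≠ 0 := by
  obtain ⟨α, hα⟩ := S.phi_ne A
  obtain ⟨a, b, hab, v, hv, w, hw, hne, -⟩ := S.root_form A hα
  have hv0 : v ≠ 0 := by
    rintro rfl
    exact hne (zero_mul _)
  have hw0 : w ≠ 0 := by
    rintro rfl
    exact hne (mul_zero _)
  by_cases h : a = 0
  · refine ⟨b, S.om_mem A hw hw0, ?_⟩
    rintro rfl
    rw [h, add_zero] at hab
    exact A.R.zero (hab ▸ hα)
  · exact ⟨a, S.om_mem A hv hv0, h⟩

/-- A common highest weight vector. -/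
def Common (φ : Module.Dual ℂ T →ₗ[ℚ] ℚ) : Prop :=
  ∃ χ, (∃ u ∈ usp (io A S.ρ) χ, u ≠ 0 ∧ ∀ α ∈ A.R.Φ, 0 < φ α → S.ρ (A.e α) u = 0) ∧
    ∃ u ∈ usp (io A S'.ρ) χ, u ≠ 0 ∧ ∀ α ∈ A.R.Φ, 0 < φ α → S'.ρ (A.e α) u = 0

variable {S S' A}

theorem common_of {φ : Module.Dual ℂ T →ₗ[ℚ] ℚ} (hφ : ∀ α ∈ A.R.Φ, φ α ≠ 0)
    {ω ω' : Module.Dual ℂ T} (hω : S.IsWt A ω) (hω' : S'.IsWt A ω') (h : ω' - ω ∈ Q A.R) :
    Common S S' A φ := by
  obtain ⟨χ, h1, h2, h3⟩ := exists_dom A S.rep (S.isMin A) φ hω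
  obtain ⟨χ', h1', h2', h3'⟩ := exists_dom A S'.rep (S'.isMin A) φ hω'
  have h4 : χ' = χ := by
    refine h2'.unique hφ h2 ?_
    have h5 : χ' - χ = (χ' - ω') + (ω' - ω) - (χ - ω) := by abel
    rw [h5]
    exact sub_mem (add_mem h1' h) h1
  subst h4
  exact ⟨_, h3, h3'⟩

theorem Common.symm {φ : Module.Dual ℂ T →ₗ[ℚ] ℚ} (h : Common S S' A φ) : Common S' S A φ := by
  obtain ⟨χ, h1, h2⟩ := h
  exact ⟨χ, h2, h1⟩

theorem IsWt.notin {φ : Module.Dual ℂ T →ₗ[ℚ] ℚ} (hφ : ∀ α ∈ A.R.Φ, φ α ≠ 0)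
    {ω : Module.Dual ℂ T} (hω : S.IsWt A ω) : ω ∉ Q A.R := by
  intro h
  obtain ⟨χ, h1, h2, u, hu, hu0, -⟩ := exists_dom A S.rep (S.isMin A) φ hω
  have h3 : χ = 0 := by
    refine h2.unique hφ (Min.zero φ) ?_
    rw [sub_zero]
    have : χ = (χ - ω) + ω := by abel
    rw [this]
    exact add_mem h1 h
  subst h3
  obtain ⟨ψ, hψ, hψ0⟩ := S.exists_ne A
  obtain ⟨t, x, y, hc⟩ := S.exists_co A hψ hψ0
  have h4 : usp (io A S.ρ) 0 ≠ ⊥ := fun h => hu0 (by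
    rw [h, Submodule.mem_bot] at hu
    exact hu)
  rcases hc.half h4 with h5 | h5
  · rw [LinearMap.zero_apply] at h5
    norm_num at h5
  · rw [LinearMap.zero_apply] at h5
    norm_num at h5

variable (S A)

/-- The data of the top weight. -/
structure TopD (φ : Module.Dual ℂ T →ₗ[ℚ] ℚ) (F : Finset (Module.Dual ℂ T))
    (lam : Module.Dual ℂ T) : Prop where
  pos : S.Pos A φ F
  wt : S.IsWt A lam
  half : ∀ χ ∈ F, lam (S.co A χ) = 1 / 2
  low : ∀ χ ∈ F, S.IsWt A (lam - χ)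
  ne : F.Nonempty

theorem exists_topD (φ : Module.Dual ℂ T →ₗ[ℚ] ℚ) (hφ : ∀ ω ∈ S.Om A, ω ≠ 0 → φ ω ≠ 0) :
    ∃ F lam, S.TopD A φ F lam := by
  classical
  have hfin : {χ | χ ∈ S.Om A ∧ 0 < φ χ}.Finite := ((S.sys A).om_finite).subset fun χ h => h.1
  obtain ⟨lam, s, hs⟩ := (S.sys A).exists_top φ
  have hF : ∀ χ, χ ∈ hfin.toFinset ↔ χ ∈ S.Om A ∧ 0 < φ χ := fun χ => by simp
  have hpos : S.Pos A φ hfin.toFinset := ⟨hφ, hF⟩
  have hkill : ∀ χ ∈ hfin.toFinset, ∀ x ∈ S.vw A χ, x s = 0 := fun χ hχ x hx =>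
    Sys.Top.kill (S.sys A) hs ((hF χ).1 hχ).2 hx.2
  refine ⟨hfin.toFinset, lam, hpos, ?_, ?_, ?_, ?_⟩
  · intro h
    have h1 := hs.mem
    change s ∈ usp (io A S.ρ) lam at h1
    rw [h, Submodule.mem_bot] at h1
    exact hs.ne h1
  · intro χ hχ
    obtain ⟨x, y, hc⟩ := S.co_spec A ((hF χ).1 hχ).1 (hpos.ne hχ)
    have h1 : io A S.ρ (S.co A χ) s = lam (S.co A χ) • s := hs.mem _
    have h2 : x s = 0 := hkill χ hχ x hc.hx
    have h3 : (x * y) s = s := by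
      have h4 := LinearMap.congr_fun hc.one s
      rw [LinearMap.add_apply, Module.End.mul_apply y x, h2, map_zero, add_zero,
        Module.End.one_apply] at h4
      exact h4
    rw [hc.eq, LinearMap.smul_apply, LinearMap.sub_apply, h3, Module.End.mul_apply y x, h2,
      map_zero, sub_zero] at h1
    have h4 : (lam (S.co A χ) - 1 / 2) • s = 0 := by rw [sub_smul, ← h1, sub_self]
    exact sub_eq_zero.1 ((smul_eq_zero.1 h4).resolve_right hs.ne)
  · intro χ hχ h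
    obtain ⟨x, y, hc⟩ := S.co_spec A ((hF χ).1 hχ).1 (hpos.ne hχ)
    have h2 : x s = 0 := hkill χ hχ x hc.hx
    have h3 : x (y s) = s := by
      have h4 := LinearMap.congr_fun hc.one s
      rw [LinearMap.add_apply, Module.End.mul_apply y x, h2, map_zero, add_zero,
        Module.End.one_apply] at h4
      exact h4
    have h5 : y s ∈ usp (io A S.ρ) (-χ + lam) := wsp_mul_usp hc.hy.2 hs.mem
    rw [neg_add_eq_sub, h, Submodule.mem_bot] at h5
    rw [h5, map_zero] at h3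
    exact hs.ne h3.symm
  · obtain ⟨χ, hχ, hχ0⟩ := S.exists_ne A
    rcases lt_or_gt_of_ne (hφ χ hχ hχ0) with h | h
    · exact ⟨-χ, (hF _).2 ⟨S.om_neg A hχ, by rw [map_neg]; linarith⟩⟩
    · exact ⟨χ, (hF _).2 ⟨hχ, h⟩⟩

variable {S A}

theorem common_odd {φ : Module.Dual ℂ T →ₗ[ℚ] ℚ} (hφ : ∀ α ∈ A.R.Φ, φ α ≠ 0)
    {F : Finset (Module.Dual ℂ T)} {lam lam' : Module.Dual ℂ T} (h : S.TopD A φ F lam)
    (h0 : (0 : Module.Dual ℂ T) ∈ S.Om A) (h' : S'.IsWt A lam') : Common S S' A φ := by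
  obtain ⟨χ₀, hχ₀⟩ := h.ne
  rcases h.pos.dich h.half hχ₀ h'.int with h1 | h1
  · exact absurd (h.pos.int_odd h0 h1) (h'.notin hφ)
  · exact common_of hφ h.wt h' (h.pos.int_odd h0 h1)

theorem common_even {φ : Module.Dual ℂ T →ₗ[ℚ] ℚ} (hφ : ∀ α ∈ A.R.Φ, φ α ≠ 0)
    {F : Finset (Module.Dual ℂ T)} {lam ω : Module.Dual ℂ T} (h : S.TopD A φ F lam)
    (h0 : (0 : Module.Dual ℂ T) ∉ S.Om A) {χ₀ : Module.Dual ℂ T} (hχ₀ : χ₀ ∈ F)
    (h' : S'.IsWt A ω) : Common S S' A φ ∨ ω - χ₀ ∈ Q A.R := by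
  rcases h.pos.dich h.half hχ₀ h'.int with h1 | h1
  · rcases h.pos.int_even h0 hχ₀ h1 with h2 | h2
    · exact absurd h2 (h'.notin hφ)
    · exact Or.inr h2
  · left
    rcases h.pos.int_even h0 hχ₀ h1 with h2 | h2
    · exact common_of hφ h.wt h' h2
    · refine common_of hφ (h.low χ₀ hχ₀) h' ?_
      have h3 : ω - (lam - χ₀) = (ω - lam - χ₀) + (χ₀ + χ₀) := by abel
      rw [h3]
      exact add_mem h2 (two_mem h0 ((h.pos.2 χ₀).1 hχ₀).1)

variable (S S' A)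

/-- **Linking lemma.** Two spin representations of the same Lie algebra have a common highest
weight. -/
theorem exists_common : ∃ φ : Module.Dual ℂ T →ₗ[ℚ] ℚ, (∀ α ∈ A.R.Φ, φ α ≠ 0) ∧
    Common S S' A φ := by
  have hfin : (A.R.Φ ∪ S.Om A ∪ S'.Om A).Finite :=
    (A.R.fin.union (S.sys A).om_finite).union (S'.sys A).om_finite
  obtain ⟨φ, -, hφ'⟩ := avoid hfin (⊥ : Submodule ℚ (Module.Dual ℂ T))
  have hφ : ∀ α ∈ A.R.Φ, φ α ≠ 0 := fun α hα => hφ' α (Or.inl (Or.inl hα)) (fun h => by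
    rw [Submodule.mem_bot] at h
    exact A.R.zero (h ▸ hα))
  refine ⟨φ, hφ, ?_⟩
  obtain ⟨F, lam, h⟩ := S.exists_topD A φ (fun ω hω h0 => hφ' ω (Or.inl (Or.inr hω)) (fun h => h0 (by
    rwa [Submodule.mem_bot] at h)))
  obtain ⟨F', lam', h'⟩ := S'.exists_topD A φ (fun ω hω h0 => hφ' ω (Or.inr hω) (fun h => h0 (by
    rwa [Submodule.mem_bot] at h)))
  by_cases h0 : (0 : Module.Dual ℂ T) ∈ S.Om A
  · exact common_odd hφ h h0 h'.wt
  by_cases h0' : (0 : Module.Dual ℂ T) ∈ S'.Om A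
  · exact (common_odd hφ h' h0' h.wt).symm
  obtain ⟨χ₀, hχ₀⟩ := h.ne
  obtain ⟨χ', hχ'⟩ := h'.ne
  rcases common_even hφ h h0 hχ₀ h'.wt with h1 | h1
  · exact h1
  rcases common_even hφ h h0 hχ₀ (h'.low χ' hχ') with h2 | h2
  · exact h2
  exfalso
  apply S'.om_notin A h0' ((h'.pos.2 χ').1 hχ').1
  have h3 : χ' = (lam' - χ₀) - (lam' - χ' - χ₀) := by abel
  rw [h3]
  exact sub_mem h1 h2

include A in
/-- **Linking lemma.** No element of the enveloping algebra acts by zero on one and by one on the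
other. -/
theorem no_sep {a : Module.End ℂ (U × U')}
    (ha : a ∈ Algebra.adjoin ℂ (Set.range fun x : L => (S.ρ x).prodMap (S'.ρ x)))
    (h1 : ∀ u : U, a (u, 0) = 0) (h2 : ∀ u : U', a (0, u) = (0, u)) : False := by
  obtain ⟨φ, hφ, χ, ⟨u, hu, hu0, hk⟩, u', hu', hu0', hk'⟩ := exists_common S S' A
  let ρ : L →ₗ[ℂ] Module.End ℂ (U × U') :=
    { toFun := fun x => (S.ρ x).prodMap (S'.ρ x)
      map_add' := fun x y => by
        rw [map_add, map_add]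
        rfl
      map_smul' := fun c x => by
        rw [map_smul, map_smul]
        rfl }
  have hρv : ∀ x, ρ x = (S.ρ x).prodMap (S'.ρ x) := fun x => rfl
  have hρ : IsRep ρ := by
    intro x y
    rw [hρv, S.rep, S'.rep]
    rfl
  have hiou : ∀ t v v', io A ρ t (v, v') = (io A S.ρ t v, io A S'.ρ t v') := fun t v v' => rfl
  have huu : (u, u') ∈ usp (io A ρ) χ := by
    intro t
    rw [hiou, hu t, hu' t]
    rfl
  have hkk : ∀ α ∈ A.R.Φ, 0 < φ α → ρ (A.e α) (u, u') = 0 := by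
    intro α hα hp
    have : ρ (A.e α) (u, u') = (S.ρ (A.e α) u, S'.ρ (A.e α) u') := rfl
    rw [this, hk α hα hp, hk' α hα hp]
    rfl
  have hau : a (u, u') = (0, u') := by
    have : (u, u') = (u, 0) + (0, u') := by simp
    rw [this, map_add, h1, h2, zero_add]
  have hmem : a (u, u') ∈ usp (io A ρ) χ := by
    rw [hau]
    intro t
    rw [hiou, hu' t, map_zero]
    simp
  obtain ⟨c, hc⟩ := hw_principle A hρ hφ huu hkk ha hmem
  rw [hau] at hc
  have hc1 : c • u = 0 := (congrArg Prod.fst hc).symm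
  have hc2 : c • u' = u' := (congrArg Prod.snd hc).symm
  have hc3 : c = 0 := (smul_eq_zero.1 hc1).resolve_right hu0
  rw [hc3, zero_smul] at hc2
  exact hu0' hc2.symm

end Spin

end Pool.Agent.K1H15.K3
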