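import Pool.Agent.K1H15.K3.Simp
import Pool.Agent.K1H15.K3.Com

set_option autoImplicit false
set_option linter.unusedSectionVars false
set_option linter.unusedVariables false

/-!
# The orthogonal Lie algebra is a simple Lie algebra; restriction of spin representations
-/

open Module

namespace Pool.Agent.K1H15.K3

open Pool.Agent.Y102.SP

attribute [local instance 100] LieRing.ofAssociativeRing

variable {U : Type} [AddCommGroup U] [Module ℂ U] [FiniteDimensional ℂ U] [Nontrivial U]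

/-- The sizes for which the orthogonal Lie algebra is simple. -/
def Good (n : ℕ) : Prop := n = 3 ∨ 5 ≤ n

theorem Good.three {n : ℕ} (h : Good n) : 3 ≤ n := by
  rcases h with h | h <;> omega

theorem soE_br {n : ℕ} {E : Fin n → Module.End ℂ U} (hE : CE E) {x y : Module.End ℂ U}
    (hx : x ∈ soE E) (hy : y ∈ soE E) : x * y - y * x ∈ soE E := by
  induction hy using Submodule.span_induction with
  | mem y hy =>
    obtain ⟨i, j, hij, rfl⟩ := hy
    have h1 : E i * E j = (1 / 2 : ℂ) • (E i * E j - E j * E i) := by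
      rw [hE.anti j i hij.symm]
      module
    have mi : E i ∈ VE E := Submodule.subset_span ⟨i, rfl⟩
    have mj : E j ∈ VE E := Submodule.subset_span ⟨j, rfl⟩
    have h2 : x * (E i * E j) - E i * E j * x = (1 / 2 : ℂ) •
        (((x * E i - E i * x) * E j - E j * (x * E i - E i * x)) +
          (E i * (x * E j - E j * x) - (x * E j - E j * x) * E i)) := by
      conv_lhs => rw [h1]
      rw [mul_smul_comm, smul_mul_assoc, ← smul_sub]
      congr 1
      noncomm_ring
    rw [h2]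
    exact Submodule.smul_mem _ _ (Submodule.add_mem _ (Cl_comm_mem (soE_stab hE hx mi) mj)
      (Cl_comm_mem mi (soE_stab hE hx mj)))
  | zero => rw [mul_zero, zero_mul, sub_zero]; exact Submodule.zero_mem _
  | add a b _ _ ha hb =>
    have : x * (a + b) - (a + b) * x = (x * a - a * x) + (x * b - b * x) := by noncomm_ring
    rw [this]
    exact Submodule.add_mem _ ha hb
  | smul c a _ ha =>
    rw [mul_smul_comm, smul_mul_assoc, ← smul_sub]
    exact Submodule.smul_mem _ _ ha

/-- The orthogonal Lie algebra. -/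
def soL {n : ℕ} {E : Fin n → Module.End ℂ U} (hE : CE E) :
    LieSubalgebra ℂ (Module.End ℂ U) :=
  { soE E with lie_mem' := fun {x y} hx hy => soE_br hE hx hy }

theorem good_simple {n : ℕ} (hn : Good n) {E : Fin n → Module.End ℂ U} (hE : CE E)
    (J : Submodule ℂ (Module.End ℂ U)) (hJ : J ≤ soE E)
    (hbr : ∀ x ∈ soE E, ∀ y ∈ J, x * y - y * x ∈ J) : J = ⊥ ∨ J = soE E := by
  rcases hn with h | h
  · subst h
    exact simple3 hE J hJ hbr
  · exact so_simple h hE J hJ hbr

theorem prod_unit {n : ℕ} {E : Fin n → Module.End ℂ U} (hE : CE E) (i j : Fin n) :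
    E j * E i * (E i * E j) = 1 := by
  rw [mul_assoc, ← mul_assoc (E i), hE.sq, one_mul, hE.sq]


theorem exists_noncomm {n : ℕ} (hn : 3 ≤ n) {E : Fin n → Module.End ℂ U} (hE : CE E) :
    ∃ x ∈ soE E, ∃ y ∈ soE E, x * y - y * x ≠ 0 := by
  let i : Fin n := ⟨0, by omega⟩
  let j : Fin n := ⟨1, by omega⟩
  let k : Fin n := ⟨2, by omega⟩
  have hij : i ≠ j := by simp [i, j]
  have hjk : j ≠ k := by simp [j, k]
  have hik : i ≠ k := by simp [i, k]
  refine ⟨E i * E j, Submodule.subset_span ⟨i, j, hij, rfl⟩, E j * E k,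
    Submodule.subset_span ⟨j, k, hjk, rfl⟩, ?_⟩
  rw [simple_br hE hij hjk hik]
  intro h
  have h1 : E i * E k = 0 := (smul_eq_zero.1 h).resolve_left two_ne_zero
  have h2 := prod_unit hE i k
  rw [h1, mul_zero] at h2
  exact zero_ne_one h2

theorem killing {n : ℕ} (hn : Good n) {E : Fin n → Module.End ℂ U} (hE : CE E) :
    LieAlgebra.IsKilling ℂ (soL hE) := by
  have h1 : LieAlgebra.IsSimple ℂ (soL hE) := by
    constructor
    · intro I
      have h2 : I.toSubmodule.map (soL hE).toSubmodule.subtype = ⊥ ∨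
          I.toSubmodule.map (soL hE).toSubmodule.subtype = soE E := by
        refine good_simple hn hE _ ?_ ?_
        · rintro _ ⟨x, -, rfl⟩
          exact x.2
        · rintro x hx _ ⟨y, hy, rfl⟩
          refine ⟨⁅(⟨x, hx⟩ : soL hE), y⁆, I.lie_mem hy, rfl⟩
      rcases h2 with h2 | h2
      · left
        rw [LieSubmodule.eq_bot_iff]
        intro x hx
        have h3 : (x : Module.End ℂ U) ∈ I.toSubmodule.map (soL hE).toSubmodule.subtype :=
          ⟨x, hx, rfl⟩
        rw [h2, Submodule.mem_bot] at h3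
        exact Subtype.ext h3
      · right
        rw [eq_top_iff]
        intro x _
        have h3 : (x : Module.End ℂ U) ∈ I.toSubmodule.map (soL hE).toSubmodule.subtype := by
          rw [h2]
          exact x.2
        obtain ⟨y, hy, hyx⟩ := h3
        have : y = x := Subtype.ext hyx
        rw [← this]
        exact hy
    · intro hab
      obtain ⟨x, hx, y, hy, hne⟩ := exists_noncomm hn.three hE
      apply hne
      have h2 : ⁅(⟨x, hx⟩ : soL hE), (⟨y, hy⟩ : soL hE)⁆ = 0 := hab.trivial _ _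
      exact congrArg Subtype.val h2
  infer_instance

/-- Elements of the orthogonal Lie algebra which vanish on a stable subspace are zero. -/
theorem res_inj {n : ℕ} (hn : Good n) {E : Fin n → Module.End ℂ U} (hE : CE E) {P : Submodule ℂ U}
    (hP0 : P ≠ ⊥) (hP : ∀ i, ∀ u ∈ P, E i u ∈ P) {x : Module.End ℂ U} (hx : x ∈ soE E)
    (h : ∀ u ∈ P, x u = 0) : x = 0 := by
  have hst : ∀ z ∈ soE E, ∀ u ∈ P, z u ∈ P := by
    intro z hz
    refine Submodule.span_induction (p := fun z _ => ∀ u ∈ P, z u ∈ P) ?_ ?_ ?_ ?_ hz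
    · rintro _ ⟨i, j, -, rfl⟩ u hu
      exact hP i _ (hP j u hu)
    · intro u _
      exact P.zero_mem
    · intro a b _ _ ha hb u hu
      exact P.add_mem (ha u hu) (hb u hu)
    · intro c a _ ha u hu
      exact P.smul_mem c (ha u hu)
  let J : Submodule ℂ (Module.End ℂ U) :=
    { carrier := {z | z ∈ soE E ∧ ∀ u ∈ P, z u = 0}
      zero_mem' := ⟨Submodule.zero_mem _, fun u _ => rfl⟩
      add_mem' := fun {a b} ha hb => ⟨Submodule.add_mem _ ha.1 hb.1, fun u hu => by
        rw [LinearMap.add_apply, ha.2 u hu, hb.2 u hu, add_zero]⟩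
      smul_mem' := fun c a ha => ⟨Submodule.smul_mem _ c ha.1, fun u hu => by
        rw [LinearMap.smul_apply, ha.2 u hu, smul_zero]⟩ }
  have hJ := good_simple hn hE J (fun z hz => hz.1) (fun z hz w hw =>
    ⟨soE_br hE hz hw.1, fun u hu => by
      rw [LinearMap.sub_apply, Module.End.mul_apply, Module.End.mul_apply, hw.2 u hu,
        hw.2 _ (hst z hz u hu), map_zero, sub_zero]⟩)
  rcases hJ with hJ | hJ
  · have : x ∈ J := ⟨hx, h⟩
    rw [hJ, Submodule.mem_bot] at this
    exact this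
  · exfalso
    have h3 := hn.three
    let i : Fin n := ⟨0, by omega⟩
    let j : Fin n := ⟨1, by omega⟩
    have hij : i ≠ j := by simp [i, j]
    have h1 : E i * E j ∈ J := by
      rw [hJ]
      exact Submodule.subset_span ⟨i, j, hij, rfl⟩
    obtain ⟨u, hu, hu0⟩ := Submodule.exists_mem_ne_zero_of_ne_bot hP0
    apply hu0
    have h4 := LinearMap.congr_fun (prod_unit hE i j) u
    rw [Module.End.mul_apply, h1.2 u hu, map_zero, Module.End.one_apply] at h4
    exact h4.symm

/-- The restriction of a representation by an orthogonal Lie algebra to a minimal stable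
subspace. -/
theorem mkSpin {L : Type} [LieRing L] [LieAlgebra ℂ L] {n : ℕ} (hn : Good n)
    {E : Fin n → Module.End ℂ U} (hE : CE E) {ρ : L →ₗ[ℂ] Module.End ℂ U} (hρ : IsRep ρ)
    (hinj : Function.Injective ρ) (hran : LinearMap.range ρ = soE E) {K : Submodule ℂ U}
    (hK0 : K ≠ ⊥) (hK : ∀ i, ∀ u ∈ K, E i u ∈ K) :
    ∃ P : Submodule ℂ U, P ≤ K ∧ Nontrivial P ∧ ∃ S : Spin L P, ∀ x, ∀ u : P,
      ((S.ρ x u : P) : U) = ρ x u := by
  obtain ⟨P, ⟨hP0, hPK, hP⟩, hmin⟩ := wellFounded_lt.has_min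
    {P : Submodule ℂ U | P ≠ ⊥ ∧ P ≤ K ∧ ∀ i, ∀ u ∈ P, E i u ∈ P} ⟨K, hK0, le_rfl, hK⟩
  have hnt : Nontrivial P := Submodule.nontrivial_iff_ne_bot.mpr hP0
  let E0 : Fin n → Module.End ℂ P := fun i => (E i).restrict (hP i)
  have hres : ∀ i, Main_Res P (E i) (E0 i) := fun i u => rfl
  have hE0 : CE E0 := by
    refine ⟨fun i => ?_, fun i j hij => ?_⟩
    · refine ((hres i).mul (hres i)).unique ?_
      rw [hE.sq i]
      intro u
      simp
    · refine ((hres i).mul (hres j)).unique ?_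
      rw [hE.anti i j hij]
      intro u
      have h1 := (hres j).mul (hres i) u
      rw [LinearMap.neg_apply, LinearMap.neg_apply, Submodule.coe_neg, h1]
  have irr : ∀ Q : Submodule ℂ P, (∀ i, ∀ u ∈ Q, E0 i u ∈ Q) → Q = ⊥ ∨ Q = ⊤ := by
    intro Q hQ
    by_cases h0 : Q = ⊥
    · exact Or.inl h0
    right
    have h3 : Q.map P.subtype ≤ P := Submodule.map_subtype_le P Q
    have h1 : Q.map P.subtype ∈ {P : Submodule ℂ U | P ≠ ⊥ ∧ P ≤ K ∧ ∀ i, ∀ u ∈ P, E i u ∈ P} := by
      refine ⟨fun h => h0 ?_, h3.trans hPK, ?_⟩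
      · rw [eq_bot_iff]
        intro w hw
        have h1 : (w : U) ∈ Q.map P.subtype := ⟨w, hw, rfl⟩
        rw [h, Submodule.mem_bot] at h1
        rw [Submodule.mem_bot]
        exact Subtype.ext h1
      · rintro i u ⟨w, hw, rfl⟩
        exact ⟨E0 i w, hQ i w hw, hres i w⟩
    have h2 : ¬ Q.map P.subtype < P := hmin _ h1
    have h4 : Q.map P.subtype = P := eq_of_le_of_not_lt h3 h2
    rw [eq_top_iff]
    intro u _
    have h5 : (u : U) ∈ Q.map P.subtype := by rw [h4]; exact u.2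
    obtain ⟨w, hw, hwu⟩ := h5
    have : w = u := Subtype.ext hwu
    rw [← this]
    exact hw
  have hso : ∀ x ∈ soE E, ∃ y ∈ soE E0, Main_Res P x y := by
    intro x hx
    refine Submodule.span_induction (p := fun x _ => ∃ y ∈ soE E0, Main_Res P x y)
      ?_ ?_ ?_ ?_ hx
    · rintro x ⟨i, j, hij, rfl⟩
      exact ⟨E0 i * E0 j, Submodule.subset_span ⟨i, j, hij, rfl⟩, (hres i).mul (hres j)⟩
    · exact ⟨0, Submodule.zero_mem _, Main_Res.zero P⟩
    · rintro x x' _ _ ⟨y, hy, h⟩ ⟨y', hy', h'⟩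
      exact ⟨y + y', Submodule.add_mem _ hy hy', h.add h'⟩
    · rintro c x _ ⟨y, hy, h⟩
      exact ⟨c • y, Submodule.smul_mem _ c hy, h.smul c⟩
  have hso' : ∀ y ∈ soE E0, ∃ x ∈ soE E, Main_Res P x y := by
    intro y hy
    refine Submodule.span_induction (p := fun y _ => ∃ x ∈ soE E, Main_Res P x y)
      ?_ ?_ ?_ ?_ hy
    · rintro x ⟨i, j, hij, rfl⟩
      exact ⟨E i * E j, Submodule.subset_span ⟨i, j, hij, rfl⟩, (hres i).mul (hres j)⟩
    · exact ⟨0, Submodule.zero_mem _, Main_Res.zero P⟩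
    · rintro x x' _ _ ⟨y, hy, h⟩ ⟨y', hy', h'⟩
      exact ⟨y + y', Submodule.add_mem _ hy hy', h.add h'⟩
    · rintro c x _ ⟨y, hy, h⟩
      exact ⟨c • y, Submodule.smul_mem _ c hy, h.smul c⟩
  have hmemρ : ∀ x, ρ x ∈ soE E := fun x => by
    rw [← hran]
    exact ⟨x, rfl⟩
  choose g hg1 hg2 using fun x => hso (ρ x) (hmemρ x)
  let r : L →ₗ[ℂ] Module.End ℂ P :=
    { toFun := g
      map_add' := fun x y => by
        refine (hg2 (x + y)).unique ?_
        rw [map_add]
        exact (hg2 x).add (hg2 y)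
      map_smul' := fun c x => by
        refine (hg2 (c • x)).unique ?_
        rw [map_smul]
        exact (hg2 x).smul c }
  have hr : ∀ x, r x = g x := fun x => rfl
  refine ⟨P, hPK, hnt, ⟨n, hn.three, E0, hE0, irr, r, ?_, ?_, ?_⟩, fun x u => hg2 x u⟩
  · intro x y
    refine (hg2 ⁅x, y⁆).unique ?_
    rw [hρ]
    exact ((hg2 x).mul (hg2 y)).sub ((hg2 y).mul (hg2 x))
  · intro x y hxy
    apply hinj
    rw [← sub_eq_zero]
    refine res_inj hn hE hP0 hP (Submodule.sub_mem _ (hmemρ x) (hmemρ y)) fun u hu => ?_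
    have h1 := hg2 x ⟨u, hu⟩
    have h2 := hg2 y ⟨u, hu⟩
    have h3 : g x = g y := hxy
    rw [LinearMap.sub_apply, ← h1, ← h2, h3, sub_self]
  · refine le_antisymm ?_ ?_
    · rintro _ ⟨x, rfl⟩
      exact hg1 x
    · intro y hy
      obtain ⟨x, hx, hxy⟩ := hso' y hy
      rw [← hran] at hx
      obtain ⟨x, rfl⟩ := hx
      exact ⟨x, (hg2 x).unique hxy⟩

end Pool.Agent.K1H15.K3
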