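import Pool.Agent.K1H15.K3.Rep

set_option autoImplicit false
set_option linter.unusedSectionVars false
set_option linter.unusedVariables false

/-!
# Removing one factor of a product of Lie algebras
-/

open Module

namespace Pool.Agent.K1H15.K3

open Pool.Agent.Y102.SP

variable {L T W : Type} [LieRing L] [LieAlgebra ℂ L] [AddCommGroup T] [Module ℂ T]
  [AddCommGroup W] [Module ℂ W] (A : AbsRoot L T) {ρ : L →ₗ[ℂ] Module.End ℂ W}

/-- The data of a subspace of highest weight vectors and of operators which commute with `L`. -/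
structure Str (ρ : L →ₗ[ℂ] Module.End ℂ W) (φ : Module.Dual ℂ T →ₗ[ℚ] ℚ) (χ : Module.Dual ℂ T)
    (KK : Submodule ℂ W) (B : Set (Module.End ℂ W)) : Prop where
  rep : IsRep ρ
  gen : ∀ α ∈ A.R.Φ, φ α ≠ 0
  wt : ∀ k ∈ KK, k ∈ usp (io A ρ) χ
  kill : ∀ k ∈ KK, ∀ α ∈ A.R.Φ, 0 < φ α → ρ (A.e α) k = 0
  comm : ∀ b ∈ B, ∀ x, b * ρ x = ρ x * b
  stab : ∀ b ∈ B, ∀ k ∈ KK, b k ∈ KK

/-- The sum of the spaces of smaller weights. -/
def Low (ρ : L →ₗ[ℂ] Module.End ℂ W) (φ : Module.Dual ℂ T →ₗ[ℚ] ℚ) (χ : Module.Dual ℂ T) :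
    Submodule ℂ W :=
  ⨆ ψ : {ψ : Module.Dual ℂ T // φ ψ < φ χ}, usp (io A ρ) ψ.1

/-- The word in the root vectors, as an operator. -/
def wop (ρ : L →ₗ[ℂ] Module.End ℂ W) (l : List (Module.Dual ℂ T)) : Module.End ℂ W :=
  (l.map fun γ => ρ (A.e γ)).prod

theorem wop_cons (γ : Module.Dual ℂ T) (l : List (Module.Dual ℂ T)) :
    wop A ρ (γ :: l) = ρ (A.e γ) * wop A ρ l := by
  unfold wop
  rw [List.map_cons, List.prod_cons]

theorem wop_nil : wop A ρ [] = 1 := rfl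

/-- Negative words. -/
def NegL (φ : Module.Dual ℂ T →ₗ[ℚ] ℚ) (l : List (Module.Dual ℂ T)) : Prop :=
  ∀ γ ∈ l, γ ∈ A.R.Φ ∧ φ γ < 0

/-- The span of the negative words. -/
def Nw (ρ : L →ₗ[ℂ] Module.End ℂ W) (φ : Module.Dual ℂ T →ₗ[ℚ] ℚ) :
    Submodule ℂ (Module.End ℂ W) :=
  Submodule.span ℂ {w | ∃ l, NegL A φ l ∧ w = wop A ρ l}

/-- The span of the products of negative words and elements of the algebra generated by `B`. -/
def Nb (ρ : L →ₗ[ℂ] Module.End ℂ W) (φ : Module.Dual ℂ T →ₗ[ℚ] ℚ) (B : Set (Module.End ℂ W)) :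
    Submodule ℂ (Module.End ℂ W) :=
  Submodule.span ℂ {n | ∃ l, NegL A φ l ∧ ∃ b ∈ Algebra.adjoin ℂ B, n = wop A ρ l * b}

variable {A} {φ : Module.Dual ℂ T →ₗ[ℚ] ℚ} {χ : Module.Dual ℂ T} {KK : Submodule ℂ W}
  {B : Set (Module.End ℂ W)} (h : Str A ρ φ χ KK B)

theorem NegL.cons {γ : Module.Dual ℂ T} {l : List (Module.Dual ℂ T)} (hl : NegL A φ l)
    (h1 : γ ∈ A.R.Φ) (h2 : φ γ < 0) : NegL A φ (γ :: l) := by
  intro β hβ
  rcases List.mem_cons.1 hβ with rfl | hβ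
  · exact ⟨h1, h2⟩
  · exact hl β hβ

theorem Nw_mul {γ : Module.Dual ℂ T} (h1 : γ ∈ A.R.Φ) (h2 : φ γ < 0) {n : Module.End ℂ W}
    (hn : n ∈ Nw A ρ φ) : ρ (A.e γ) * n ∈ Nw A ρ φ := by
  have h3 : Nw A ρ φ ≤ (Nw A ρ φ).comap (LinearMap.mulLeft ℂ (ρ (A.e γ))) := by
    conv_lhs => unfold Nw
    rw [Submodule.span_le]
    rintro _ ⟨l, hl, rfl⟩
    rw [SetLike.mem_coe, Submodule.mem_comap, LinearMap.mulLeft_apply, ← wop_cons]
    exact Submodule.subset_span ⟨_, hl.cons h1 h2, rfl⟩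
  exact h3 hn

namespace Str

include h

theorem adj {b : Module.End ℂ W} (hb : b ∈ Algebra.adjoin ℂ B) :
    (∀ x, b * ρ x = ρ x * b) ∧ ∀ k ∈ KK, b k ∈ KK := by
  induction hb using Algebra.adjoin_induction with
  | mem b hb => exact ⟨h.comm b hb, h.stab b hb⟩
  | algebraMap r =>
    refine ⟨fun x => (Algebra.commutes r (ρ x)), fun k hk => ?_⟩
    rw [Module.algebraMap_end_apply]
    exact KK.smul_mem _ hk
  | add x y _ _ hx hy =>
    refine ⟨fun z => by rw [add_mul, mul_add, hx.1, hy.1], fun k hk => ?_⟩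
    rw [LinearMap.add_apply]
    exact KK.add_mem (hx.2 k hk) (hy.2 k hk)
  | mul x y _ _ hx hy =>
    refine ⟨fun z => by rw [mul_assoc, hy.1, ← mul_assoc, hx.1, mul_assoc], fun k hk => ?_⟩
    rw [Module.End.mul_apply]
    exact hx.2 _ (hy.2 k hk)

theorem adj_wop {b : Module.End ℂ W} (hb : b ∈ Algebra.adjoin ℂ B)
    (l : List (Module.Dual ℂ T)) : b * wop A ρ l = wop A ρ l * b := by
  induction l with
  | nil => rw [wop_nil, mul_one, one_mul]
  | cons γ l ih => rw [wop_cons, ← mul_assoc, (h.adj hb).1, mul_assoc, ih, mul_assoc]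

theorem word (l : List (Module.Dual ℂ T)) : NegL A φ l → ∀ x : L,
    ∃ n ∈ Nw A ρ φ, ∀ k ∈ KK, (ρ x * wop A ρ l) k = n k := by
  induction l with
  | nil =>
    intro _ x
    have h1 : (1 : Module.End ℂ W) ∈ Nw A ρ φ :=
      Submodule.subset_span ⟨[], fun γ hγ => absurd hγ List.not_mem_nil, rfl⟩
    let M : Submodule ℂ L :=
      { carrier := {x | ∃ n ∈ Nw A ρ φ, ∀ k ∈ KK, (ρ x * wop A ρ []) k = n k}
        zero_mem' := ⟨0, Submodule.zero_mem _, fun k _ => by rw [map_zero, zero_mul]⟩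
        add_mem' := by
          rintro x y ⟨n, hn, hx⟩ ⟨m, hm, hy⟩
          exact ⟨n + m, Submodule.add_mem _ hn hm, fun k hk => by
            rw [map_add, add_mul, LinearMap.add_apply, LinearMap.add_apply, hx k hk, hy k hk]⟩
        smul_mem' := by
          rintro c x ⟨n, hn, hx⟩
          exact ⟨c • n, Submodule.smul_mem _ c hn, fun k hk => by
            rw [map_smul, smul_mul_assoc, LinearMap.smul_apply, LinearMap.smul_apply, hx k hk]⟩ }
    have h2 : LinearMap.range A.ι ⊔ Submodule.span ℂ (A.e '' A.R.Φ) ≤ M := by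
      rw [sup_le_iff]
      constructor
      · rintro _ ⟨t, rfl⟩
        refine ⟨χ t • 1, Submodule.smul_mem _ _ h1, fun k hk => ?_⟩
        rw [wop_nil, mul_one]
        exact h.wt k hk t
      · rw [Submodule.span_le]
        rintro _ ⟨β, hβ, rfl⟩
        rcases lt_or_gt_of_ne (h.gen β hβ) with hn | hp
        · refine ⟨ρ (A.e β) * 1, Nw_mul hβ hn h1, fun k hk => ?_⟩
          rw [wop_nil]
        · refine ⟨0, Submodule.zero_mem _, fun k hk => ?_⟩
          rw [wop_nil, mul_one, h.kill k hk β hβ hp]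
          rfl
    exact h2 (A.span Submodule.mem_top)
  | cons γ l ih =>
    intro hl x
    have hγ := hl γ List.mem_cons_self
    have ih' := ih (fun β hβ => hl β (List.mem_cons_of_mem _ hβ))
    obtain ⟨n1, hn1, h1⟩ := ih' ⁅x, A.e γ⁆
    obtain ⟨n2, hn2, h2⟩ := ih' x
    refine ⟨n1 + ρ (A.e γ) * n2, Submodule.add_mem _ hn1 (Nw_mul hγ.1 hγ.2 hn2), fun k hk => ?_⟩
    have e : ρ x * wop A ρ (γ :: l) = ρ ⁅x, A.e γ⁆ * wop A ρ l + ρ (A.e γ) * (ρ x * wop A ρ l) := by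
      rw [wop_cons, h.rep]
      noncomm_ring
    rw [e, LinearMap.add_apply, LinearMap.add_apply, h1 k hk, Module.End.mul_apply, h2 k hk,
      Module.End.mul_apply]

theorem Nb_mul {b : Module.End ℂ W} (hb : b ∈ Algebra.adjoin ℂ B) {n : Module.End ℂ W}
    (hn : n ∈ Nw A ρ φ) : n * b ∈ Nb A ρ φ B := by
  have h3 : Nw A ρ φ ≤ (Nb A ρ φ B).comap (LinearMap.mulRight ℂ b) := by
    unfold Nw
    rw [Submodule.span_le]
    rintro _ ⟨l, hl, rfl⟩
    exact Submodule.subset_span ⟨l, hl, b, hb, rfl⟩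
  exact h3 hn

theorem left_L {n : Module.End ℂ W} (hn : n ∈ Nb A ρ φ B) (x : L) :
    ∃ m ∈ Nb A ρ φ B, ∀ k ∈ KK, (ρ x * n) k = m k := by
  induction hn using Submodule.span_induction with
  | mem n hn =>
    obtain ⟨l, hl, b, hb, rfl⟩ := hn
    obtain ⟨m, hm, h1⟩ := h.word l hl x
    refine ⟨m * b, h.Nb_mul hb hm, fun k hk => ?_⟩
    rw [← mul_assoc, Module.End.mul_apply, h1 _ ((h.adj hb).2 k hk), Module.End.mul_apply]
  | zero => exact ⟨0, Submodule.zero_mem _, fun k _ => by rw [mul_zero]⟩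
  | add a b _ _ ha hb =>
    obtain ⟨m, hm, h1⟩ := ha
    obtain ⟨m', hm', h2⟩ := hb
    exact ⟨m + m', Submodule.add_mem _ hm hm', fun k hk => by
      rw [mul_add, LinearMap.add_apply, LinearMap.add_apply, h1 k hk, h2 k hk]⟩
  | smul c a _ ha =>
    obtain ⟨m, hm, h1⟩ := ha
    exact ⟨c • m, Submodule.smul_mem _ c hm, fun k hk => by
      rw [mul_smul_comm, LinearMap.smul_apply, LinearMap.smul_apply, h1 k hk]⟩

theorem left_B {n : Module.End ℂ W} (hn : n ∈ Nb A ρ φ B) {b : Module.End ℂ W} (hb : b ∈ B) :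
    b * n ∈ Nb A ρ φ B := by
  have hb' := Algebra.subset_adjoin (R := ℂ) hb
  induction hn using Submodule.span_induction with
  | mem n hn =>
    obtain ⟨l, hl, b', hb2, rfl⟩ := hn
    rw [← mul_assoc, h.adj_wop hb' l, mul_assoc]
    exact Submodule.subset_span ⟨l, hl, _, Subalgebra.mul_mem _ hb' hb2, rfl⟩
  | zero => rw [mul_zero]; exact Submodule.zero_mem _
  | add x y _ _ hx hy => rw [mul_add]; exact Submodule.add_mem _ hx hy
  | smul c x _ hx => rw [mul_smul_comm]; exact Submodule.smul_mem _ _ hx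

theorem reach {a : Module.End ℂ W} (ha : a ∈ Algebra.adjoin ℂ (Set.range ρ ∪ B)) :
    ∀ m : Module.End ℂ W, (∃ n ∈ Nb A ρ φ B, ∀ k ∈ KK, m k = n k) →
      ∃ n ∈ Nb A ρ φ B, ∀ k ∈ KK, (a * m) k = n k := by
  induction ha using Algebra.adjoin_induction with
  | mem x hx =>
    rintro m ⟨n, hn, h1⟩
    rcases hx with ⟨x, rfl⟩ | hx
    · obtain ⟨n', hn', h2⟩ := h.left_L hn x
      refine ⟨n', hn', fun k hk => ?_⟩
      rw [Module.End.mul_apply, h1 k hk, ← Module.End.mul_apply, h2 k hk]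
    · refine ⟨x * n, h.left_B hn hx, fun k hk => ?_⟩
      rw [Module.End.mul_apply, h1 k hk, Module.End.mul_apply]
  | algebraMap r =>
    rintro m ⟨n, hn, h1⟩
    refine ⟨r • n, Submodule.smul_mem _ _ hn, fun k hk => ?_⟩
    rw [Module.End.mul_apply, Module.algebraMap_end_apply, h1 k hk, LinearMap.smul_apply]
  | add x y _ _ hx hy =>
    rintro m hm
    obtain ⟨n, hn, h1⟩ := hx m hm
    obtain ⟨n', hn', h2⟩ := hy m hm
    exact ⟨n + n', Submodule.add_mem _ hn hn', fun k hk => by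
      rw [add_mul, LinearMap.add_apply, LinearMap.add_apply, h1 k hk, h2 k hk]⟩
  | mul x y _ _ hx hy =>
    rintro m hm
    rw [mul_assoc]
    exact hx _ (hy m hm)

theorem low {n : Module.End ℂ W} (hn : n ∈ Nb A ρ φ B) :
    ∃ b ∈ Algebra.adjoin ℂ B, ∀ k ∈ KK, n k - b k ∈ Low A ρ φ χ := by
  induction hn using Submodule.span_induction with
  | mem n hn =>
    obtain ⟨l, hl, b, hb, rfl⟩ := hn
    by_cases hl0 : l = []
    · subst hl0
      refine ⟨b, hb, fun k hk => ?_⟩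
      rw [wop_nil, one_mul, sub_self]
      exact Submodule.zero_mem _
    · refine ⟨0, Subalgebra.zero_mem _, fun k hk => ?_⟩
      rw [LinearMap.zero_apply, sub_zero, Module.End.mul_apply]
      have hbk := (h.adj hb).2 k hk
      obtain ⟨h1, h2⟩ := word_weight A h.rep (φ := φ) (h.wt _ hbk) l hl
      have h3 := h2 hl0
      exact Submodule.mem_iSup_of_mem
        (p := fun ψ : {ψ : Module.Dual ℂ T // φ ψ < φ χ} => usp (io A ρ) ψ.1)
        ⟨l.sum + χ, by rw [map_add]; linarith⟩ h1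
  | zero => exact ⟨0, Subalgebra.zero_mem _, fun k _ => by
      rw [LinearMap.zero_apply, sub_zero]
      exact Submodule.zero_mem _⟩
  | add x y _ _ hx hy =>
    obtain ⟨b, hb, h1⟩ := hx
    obtain ⟨b', hb', h2⟩ := hy
    refine ⟨b + b', Subalgebra.add_mem _ hb hb', fun k hk => ?_⟩
    have e : (x + y) k - (b + b') k = (x k - b k) + (y k - b' k) := by
      rw [LinearMap.add_apply, LinearMap.add_apply]
      abel
    rw [e]
    exact Submodule.add_mem _ (h1 k hk) (h2 k hk)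
  | smul c x _ hx =>
    obtain ⟨b, hb, h1⟩ := hx
    refine ⟨c • b, Subalgebra.smul_mem _ hb c, fun k hk => ?_⟩
    rw [LinearMap.smul_apply, LinearMap.smul_apply, ← smul_sub]
    exact Submodule.smul_mem _ _ (h1 k hk)

/-- Elements of the algebra generated by `L` and `B` act on the highest weight vectors like elements
of the algebra generated by `B`, up to smaller weights. -/
theorem strip {a : Module.End ℂ W} (ha : a ∈ Algebra.adjoin ℂ (Set.range ρ ∪ B)) :
    ∃ b ∈ Algebra.adjoin ℂ B, ∀ k ∈ KK, a k - b k ∈ Low A ρ φ χ := by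
  have h1 : ∃ n ∈ Nb A ρ φ B, ∀ k ∈ KK, (1 : Module.End ℂ W) k = n k :=
    ⟨1, Submodule.subset_span ⟨[], fun γ hγ => absurd hγ List.not_mem_nil, 1,
      Subalgebra.one_mem _, by rw [wop_nil, one_mul]⟩, fun k _ => rfl⟩
  obtain ⟨n, hn, h2⟩ := h.reach ha 1 h1
  obtain ⟨b, hb, h3⟩ := h.low hn
  refine ⟨b, hb, fun k hk => ?_⟩
  have := h2 k hk
  rw [mul_one] at this
  rw [this]
  exact h3 k hk

/-- Vectors of the weight `χ` in `Low` are zero. -/
theorem zero_of_low [FiniteDimensional ℂ W] {v : W} (h1 : v ∈ usp (io A ρ) χ)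
    (h2 : v ∈ Low A ρ φ χ) : v = 0 := by
  have h3 : Low A ρ φ χ ≤ ⨆ ψ, ⨆ (_ : ψ ≠ χ), usp (io A ρ) ψ := by
    refine iSup_le fun ψ => le_iSup₂_of_le ψ.1 ?_ le_rfl
    intro h
    have h4 := ψ.2
    rw [h] at h4
    exact lt_irrefl _ h4
  have h5 := (rep_indep A h.rep χ).le_bot ⟨h1, h3 h2⟩
  exact (Submodule.mem_bot ℂ).1 h5

/-- If the image of a highest weight vector has the same weight, then there is no error term. -/
theorem strip' [FiniteDimensional ℂ W] {a : Module.End ℂ W}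
    (ha : a ∈ Algebra.adjoin ℂ (Set.range ρ ∪ B)) :
    ∃ b ∈ Algebra.adjoin ℂ B, ∀ k ∈ KK, a k ∈ usp (io A ρ) χ → a k = b k := by
  obtain ⟨b, hb, h1⟩ := h.strip ha
  refine ⟨b, hb, fun k hk hak => ?_⟩
  exact sub_eq_zero.1 (h.zero_of_low (Submodule.sub_mem _ hak (h.wt _ ((h.adj hb).2 k hk)))
    (h1 k hk))

end Str

end Pool.Agent.K1H15.K3
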