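import Pool.Agent.K1H15.K3.LieS
import Pool.Agent.K1H15.K3.Strip
import Pool.Agent.Y102.SP.Link

set_option autoImplicit false
set_option linter.unusedSectionVars false
set_option linter.unusedVariables false

/-!
# The linking lemma for coloured Clifford systems
-/

open Module

namespace Pool.Agent.K1H15.K3

open Pool.Agent.Y102.SP

attribute [local instance 100] LieRing.ofAssociativeRing

variable {U U' : Type} [AddCommGroup U] [Module ℂ U] [FiniteDimensional ℂ U] [Nontrivial U]
  [AddCommGroup U'] [Module ℂ U'] [FiniteDimensional ℂ U'] [Nontrivial U']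

/-- The number of generators of a colour. -/
def size {N k : ℕ} (c : Fin N → Fin k) (s : Fin k) : ℕ := (Finset.univ.filter fun j => c j = s).card

/-- The subfamily of one colour. -/
theorem sub_fam {N k : ℕ} {E : Fin N → Module.End ℂ U} {c : Fin N → Fin k} (hE : CE E)
    (s : Fin k) : ∃ E' : Fin (size c s) → Module.End ℂ U, CE E' ∧ soE E' = soS E c s ∧
      (∀ a, ∃ i, c i = s ∧ E' a = E i) ∧ ∀ i, c i = s → ∃ a, E' a = E i := by
  classical
  set F := Finset.univ.filter fun j => c j = s with hF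
  let e := F.equivFin
  have hmem : ∀ a : F, c a.1 = s := fun a => (Finset.mem_filter.1 a.2).2
  have hinj : ∀ a b : Fin F.card, a ≠ b → (e.symm a).1 ≠ (e.symm b).1 := by
    intro a b hab h
    exact hab (e.symm.injective (Subtype.ext h))
  refine ⟨fun a => E (e.symm a).1, ⟨fun a => hE.sq _, fun a b hab =>
    hE.anti _ _ (hinj a b hab)⟩, ?_, fun a => ⟨_, hmem _, rfl⟩, fun i hi => ?_⟩
  · refine le_antisymm (Submodule.span_mono ?_) (Submodule.span_mono ?_)
    · rintro _ ⟨a, b, hab, rfl⟩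
      exact ⟨_, _, hinj a b hab, hmem _, hmem _, rfl⟩
    · rintro _ ⟨i, j, hij, hi, hj, rfl⟩
      refine ⟨e ⟨i, Finset.mem_filter.2 ⟨Finset.mem_univ _, hi⟩⟩,
        e ⟨j, Finset.mem_filter.2 ⟨Finset.mem_univ _, hj⟩⟩, ?_, ?_⟩
      · intro h
        exact hij (congrArg Subtype.val (e.injective h))
      · simp
  · exact ⟨e ⟨i, Finset.mem_filter.2 ⟨Finset.mem_univ _, hi⟩⟩, by simp⟩

/-- All colours which occur have good sizes. -/
def GoodC {N k : ℕ} (c : Fin N → Fin k) : Prop := ∀ i, Good (size c (c i))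

theorem soS_empty {N k : ℕ} {E : Fin N → Module.End ℂ U} {c : Fin N → Fin k} {s : Fin k}
    (h : ∀ i, c i ≠ s) : soS E c s = ⊥ := by
  unfold soS
  rw [Submodule.span_eq_bot]
  rintro _ ⟨i, -, -, hi, -, -⟩
  exact absurd hi (h i)

section col

variable {N k : ℕ} {E : Fin N → Module.End ℂ U} {c : Fin N → Fin k} (hE : CE E) (hc : GoodC c)
include hE hc

theorem soS_simple {s : Fin k} (J : Submodule ℂ (Module.End ℂ U)) (hJ : J ≤ soS E c s)
    (hbr : ∀ x ∈ soS E c s, ∀ y ∈ J, x * y - y * x ∈ J) : J = ⊥ ∨ J = soS E c s := by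
  by_cases h : ∀ i, c i ≠ s
  · left
    rw [soS_empty h] at hJ
    exact le_bot_iff.1 hJ
  push Not at h
  obtain ⟨i, hi⟩ := h
  obtain ⟨E', hE', hso, -, -⟩ := sub_fam hE s (c := c)
  have hg : Good (size c s) := hi ▸ hc i
  rw [← hso] at hJ hbr ⊢
  exact good_simple hg hE' J hJ hbr

theorem soS_perfect (s : Fin k) :
    soS E c s ≤ Submodule.span ℂ {z | ∃ x ∈ soS E c s, ∃ y ∈ soS E c s, z = x * y - y * x} := by
  by_cases h : ∀ i, c i ≠ s
  · rw [soS_empty h]
    exact bot_le
  push Not at h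
  obtain ⟨i, hi⟩ := h
  obtain ⟨E', hE', hso, -, -⟩ := sub_fam hE s (c := c)
  have hg : Good (size c s) := hi ▸ hc i
  rw [← hso]
  exact so_perfect hg.three hE'

omit hc in
theorem br_soS {s : Fin k} {x y : Module.End ℂ U} (hx : x ∈ soC E c) (hy : y ∈ soS E c s) :
    x * y - y * x ∈ soS E c s := by
  rw [Link_part hE hy hx]
  exact soS_br hE (pS_mem hE hx) hy

omit hc in
theorem soC_br {x y : Module.End ℂ U} (hx : x ∈ soC E c) (hy : y ∈ soC E c) :
    x * y - y * x ∈ soC E c := by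
  have h1 := pS_sum hE hy
  rw [h1, Finset.mul_sum, Finset.sum_mul, ← Finset.sum_sub_distrib]
  exact Submodule.sum_mem _ fun s _ => soS_le s (br_soS hE hx (pS_mem hE hy))

end col

/-- The data of a linking isomorphism. -/
structure LD {N k N' k' : ℕ} (E : Fin N → Module.End ℂ U) (c : Fin N → Fin k)
    (E' : Fin N' → Module.End ℂ U') (c' : Fin N' → Fin k')
    (θ : Module.End ℂ U →ₗ[ℂ] Module.End ℂ U') : Prop where
  hE : CE E
  hE' : CE E'
  hc : GoodC c
  hc' : GoodC c'
  br : ∀ x ∈ soC E c, ∀ y ∈ soC E c, θ (x * y - y * x) = θ x * θ y - θ y * θ x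
  inj : ∀ x ∈ soC E c, θ x = 0 → x = 0
  mem : ∀ x ∈ soC E c, θ x ∈ soC E' c'
  surj : ∀ y ∈ soC E' c', ∃ x ∈ soC E c, θ x = y

namespace LD

variable {N k N' k' : ℕ} {E : Fin N → Module.End ℂ U} {c : Fin N → Fin k}
    {E' : Fin N' → Module.End ℂ U'} {c' : Fin N' → Fin k'}
    {θ : Module.End ℂ U →ₗ[ℂ] Module.End ℂ U'} (h : LD E c E' c' θ)
include h

/-- The colours correspond to each other. -/
theorem matched {s : Fin k} (hs : ∃ i, c i = s) :
    ∃ t : Fin k', (∃ i, c' i = t) ∧ (soS E c s).map θ = soS E' c' t := by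
  obtain ⟨i, hi⟩ := hs
  have hg : Good (size c s) := hi ▸ h.hc i
  set I := (soS E c s).map θ with hI
  have hIle : I ≤ soC E' c' := by
    rintro _ ⟨x, hx, rfl⟩
    exact h.mem x (soS_le s hx)
  have hIbr : ∀ x ∈ soC E' c', ∀ y ∈ I, x * y - y * x ∈ I := by
    rintro x hx _ ⟨y, hy, rfl⟩
    obtain ⟨z, hz, rfl⟩ := h.surj x hx
    rw [← h.br z hz y (soS_le s hy)]
    exact ⟨_, br_soS h.hE hz hy, rfl⟩
  -- a nonzero element
  obtain ⟨z, hz, hz0⟩ : ∃ z ∈ I, z ≠ 0 := by
    obtain ⟨E1, hE1, hso, -, -⟩ := sub_fam h.hE s (c := c)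
    obtain ⟨x, hx, y, hy, hne⟩ := exists_noncomm hg.three hE1
    rw [hso] at hx hy
    refine ⟨θ (x * y - y * x), ⟨_, soS_br h.hE hx hy, rfl⟩, fun h0 => hne ?_⟩
    exact h.inj _ (soS_le s (soS_br h.hE hx hy)) h0
  obtain ⟨t, ht⟩ : ∃ t, pS E' c' t z ≠ 0 := by
    by_contra hcon
    push Not at hcon
    apply hz0
    rw [pS_sum h.hE' (hIle hz)]
    exact Finset.sum_eq_zero fun t _ => hcon t
  have hne : ∃ i, c' i = t := by
    by_contra hcon
    push Not at hcon
    have h1 := pS_mem (σ := t) h.hE' (hIle hz)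
    rw [soS_empty hcon, Submodule.mem_bot] at h1
    exact ht h1
  refine ⟨t, hne, ?_⟩
  have h1 : I.map (pS E' c' t) = soS E' c' t := by
    have j1 : I.map (pS E' c' t) ≤ soS E' c' t := by
      rintro _ ⟨y, hy, rfl⟩
      exact pS_mem h.hE' (hIle hy)
    have j2 : ∀ x ∈ soS E' c' t, ∀ y ∈ I.map (pS E' c' t), x * y - y * x ∈ I.map (pS E' c' t) := by
      rintro x hx _ ⟨y, hy, rfl⟩
      refine ⟨x * y - y * x, hIbr x (soS_le t hx) y hy, ?_⟩
      rw [pS_br h.hE' (soS_le t hx) (hIle hy), pS_same h.hE' hx]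
    rcases soS_simple h.hE' h.hc' (I.map (pS E' c' t)) j1 j2 with h2 | h2
    · exfalso
      have h3 : pS E' c' t z ∈ I.map (pS E' c' t) := ⟨z, hz, rfl⟩
      rw [h2, Submodule.mem_bot] at h3
      exact ht h3
    · exact h2
  have h2 : soS E' c' t ≤ I := by
    refine (soS_perfect h.hE' h.hc' t).trans (Submodule.span_le.2 ?_)
    rintro _ ⟨x, hx, y, hy, rfl⟩
    rw [← h1] at hy
    obtain ⟨w, hw, rfl⟩ := hy
    have h3 : x * pS E' c' t w - pS E' c' t w * x = x * w - w * x := by
      have := Link_part h.hE' hx (hIle hw)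
      rw [← neg_inj, neg_sub, neg_sub]
      exact this.symm
    rw [SetLike.mem_coe, h3]
    exact hIbr x (soS_le t hx) w hw
  refine le_antisymm ?_ h2
  -- the preimage is an ideal
  let J : Submodule ℂ (Module.End ℂ U) := soS E c s ⊓ (soS E' c' t).comap θ
  have hJ := soS_simple h.hE h.hc J inf_le_left (fun x hx y hy => ⟨soS_br h.hE hx hy.1, by
    have h3 : θ y ∈ soS E' c' t := hy.2
    have h4 : θ (x * y - y * x) ∈ soS E' c' t := by
      rw [h.br x (soS_le s hx) y (soS_le s hy.1)]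
      exact br_soS h.hE' (h.mem x (soS_le s hx)) h3
    exact h4⟩)
  rcases hJ with hJ | hJ
  · exfalso
    apply ht
    have h3 : pS E' c' t z ∈ soS E' c' t := pS_mem h.hE' (hIle hz)
    obtain ⟨x, hx, hxz⟩ := h2 h3
    have h4 : x ∈ J := ⟨hx, by
      change θ x ∈ soS E' c' t
      rw [hxz]
      exact h3⟩
    rw [hJ, Submodule.mem_bot] at h4
    rw [← hxz, h4, map_zero]
  · rintro _ ⟨x, hx, rfl⟩
    have h3 : x ∈ J := by
      rw [hJ]
      exact hx
    exact h3.2

/-- The corresponding colour. -/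
noncomputable def tau (h : LD E c E' c' θ) (s : Fin k) (hs : ∃ i, c i = s) : Fin k' :=
  (h.matched hs).choose

theorem tau_spec {s : Fin k} (hs : ∃ i, c i = s) : (∃ i, c' i = h.tau s hs) ∧
    (soS E c s).map θ = soS E' c' (h.tau s hs) := (h.matched hs).choose_spec

theorem tau_mem {s : Fin k} (hs : ∃ i, c i = s) {x : Module.End ℂ U} (hx : x ∈ soS E c s) :
    θ x ∈ soS E' c' (h.tau s hs) := by
  rw [← (h.tau_spec hs).2]
  exact ⟨x, hx, rfl⟩

theorem tau_inj {s s' : Fin k} (hs : ∃ i, c i = s) (hs' : ∃ i, c i = s')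
    (he : h.tau s hs = h.tau s' hs') : s = s' := by
  by_contra hne
  obtain ⟨i, hi⟩ := id hs
  have hg : Good (size c s) := hi ▸ h.hc i
  obtain ⟨E1, hE1, hso, -, -⟩ := sub_fam h.hE s (c := c)
  obtain ⟨x, hx, y, hy, hxy⟩ := exists_noncomm hg.three hE1
  rw [hso] at hx hy
  have h1 := h.tau_mem hs hy
  rw [he, ← (h.tau_spec hs').2] at h1
  obtain ⟨w, hw, hwy⟩ := h1
  have h2 : w = y := by
    rw [← sub_eq_zero]
    refine h.inj _ (Submodule.sub_mem _ (soS_le _ hw) (soS_le _ hy)) ?_
    rw [map_sub, hwy, sub_self]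
  apply hxy
  rw [← h2, soS_comm h.hE hne hx hw, sub_self]

/-- The generators of the algebra for a set of colours. -/
def BB (E : Fin N → Module.End ℂ U) (c : Fin N → Fin k)
    (θ : Module.End ℂ U →ₗ[ℂ] Module.End ℂ U') (C : Finset (Fin k)) :
    Set (Module.End ℂ (U × U')) :=
  {z | ∃ s ∈ C, ∃ x ∈ soS E c s, z = x.prodMap (θ x)}

omit h in
theorem prodMap_mul (x y : Module.End ℂ U) (x' y' : Module.End ℂ U') :
    x.prodMap x' * y.prodMap y' = (x * y).prodMap (x' * y') := rfl

omit h in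
theorem stab_of {M n : ℕ} {F : Fin M → Module.End ℂ U} {d : Fin M → Fin n} {s : Fin n}
    {K : Submodule ℂ U} (hK : ∀ i, d i = s → ∀ u ∈ K, F i u ∈ K) {x : Module.End ℂ U}
    (hx : x ∈ soS F d s) : ∀ u ∈ K, x u ∈ K := by
  refine Submodule.span_induction (p := fun x _ => ∀ u ∈ K, x u ∈ K) ?_ ?_ ?_ ?_ hx
  · rintro _ ⟨i, j, -, hi, hj, rfl⟩ u hu
    exact hK i hi _ (hK j hj u hu)
  · intro u _
    exact K.zero_mem
  · intro a b _ _ ha hb u hu
    exact K.add_mem (ha u hu) (hb u hu)
  · intro r a _ ha u hu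
    exact K.smul_mem r (ha u hu)

theorem induct (C : Finset (Fin k)) : (∀ s ∈ C, ∃ i, c i = s) →
    ∀ (K : Submodule ℂ U) (K' : Submodule ℂ U'), K ≠ ⊥ → K' ≠ ⊥ →
    (∀ i, c i ∈ C → ∀ u ∈ K, E i u ∈ K) →
    (∀ i, (∃ s ∈ C, ∃ hs : ∃ i, c i = s, c' i = h.tau s hs) → ∀ u ∈ K', E' i u ∈ K') →
    ∀ a ∈ Algebra.adjoin ℂ (BB E c θ C), (∀ u ∈ K, a (u, 0) = 0) →
    (∀ u ∈ K', a (0, u) = (0, u)) → False := by
  classical
  induction C using Finset.induction_on with
  | empty =>
    intro _ K K' hK hK' _ _ a ha h0 h1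
    have h2 : BB E c θ ∅ = ∅ := by
      ext z
      simp [BB]
    rw [h2, Algebra.adjoin_empty, Algebra.mem_bot] at ha
    obtain ⟨r, rfl⟩ := ha
    obtain ⟨u, hu, hu0⟩ := Submodule.exists_mem_ne_zero_of_ne_bot hK
    obtain ⟨u', hu', hu0'⟩ := Submodule.exists_mem_ne_zero_of_ne_bot hK'
    have h3 := h0 u hu
    have h4 := h1 u' hu'
    rw [Module.algebraMap_end_apply] at h3 h4
    have h5 : r • u = 0 := congrArg Prod.fst h3
    have h6 : r • u' = u' := congrArg Prod.snd h4
    rw [(smul_eq_zero.1 h5).resolve_right hu0, zero_smul] at h6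
    exact hu0' h6.symm
  | insert s C hsC ih =>
    intro hne K K' hK0 hK0' hK hK' a ha h0 h1
    have hs : ∃ i, c i = s := hne s (Finset.mem_insert_self _ _)
    obtain ⟨i0, hi0⟩ := id hs
    have hg : Good (size c s) := hi0 ▸ h.hc i0
    obtain ⟨⟨j0, hj0⟩, hmap⟩ := h.tau_spec hs
    have hg' : Good (size c' (h.tau s hs)) := hj0 ▸ h.hc' j0
    obtain ⟨E1, hE1, hso1, hE1a, hE1b⟩ := sub_fam h.hE s (c := c)
    obtain ⟨E2, hE2, hso2, hE2a, hE2b⟩ := sub_fam h.hE' (h.tau s hs) (c := c')
    have hkil := killing hg hE1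
    obtain ⟨T, iT1, iT2, ⟨A⟩⟩ := exists_absRoot (soL hE1)
    have hLm : ∀ x : soL hE1, x.1 ∈ soS E c s := fun x => by
      rw [← hso1]
      exact x.2
    -- the two representations
    let ρ : soL hE1 →ₗ[ℂ] Module.End ℂ U := (soL hE1).toSubmodule.subtype
    have hρ : IsRep ρ := fun x y => rfl
    let ρ' : soL hE1 →ₗ[ℂ] Module.End ℂ U' := θ ∘ₗ (soL hE1).toSubmodule.subtype
    have hρ' : IsRep ρ' := fun x y => h.br x.1 (soS_le s (hLm x)) y.1 (soS_le s (hLm y))
    have hran : LinearMap.range ρ = soE E1 := Submodule.range_subtype _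
    have hinj : Function.Injective ρ := Subtype.val_injective
    have hran' : LinearMap.range ρ' = soE E2 := by
      change LinearMap.range (θ ∘ₗ (soL hE1).toSubmodule.subtype) = soE E2
      rw [LinearMap.range_comp, Submodule.range_subtype]
      change (soE E1).map θ = soE E2
      rw [hso1, hso2, hmap]
    have hinj' : Function.Injective ρ' := by
      rw [← LinearMap.ker_eq_bot, LinearMap.ker_eq_bot']
      intro x hx
      exact Subtype.ext (h.inj x.1 (soS_le s (hLm x)) hx)
    obtain ⟨P, hPK, hPn, S, hS⟩ := mkSpin hg hE1 hρ hinj hran hK0 (fun a u hu => by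
      obtain ⟨i, hi, hi'⟩ := hE1a a
      rw [hi']
      exact hK i (by rw [hi]; exact Finset.mem_insert_self _ _) u hu)
    obtain ⟨P', hPK', hPn', S', hS'⟩ := mkSpin hg' hE2 hρ' hinj' hran' hK0' (fun a u hu => by
      obtain ⟨i, hi, hi'⟩ := hE2a a
      rw [hi']
      exact hK' i ⟨s, Finset.mem_insert_self _ _, hs, hi⟩ u hu)
    obtain ⟨φ, hφ, χ, ⟨u, hu, hu0, hku⟩, u', hu', hu0', hku'⟩ := Spin.exists_common S S' A
    -- the sum of the two representations
    let ρW : soL hE1 →ₗ[ℂ] Module.End ℂ (U × U') :=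
      { toFun := fun x => (x.1).prodMap (θ x.1)
        map_add' := fun x y => by
          have : θ (x + y : soL hE1).1 = θ x.1 + θ y.1 := map_add θ x.1 y.1
          rw [this]
          rfl
        map_smul' := fun r x => by
          have : θ (r • x : soL hE1).1 = r • θ x.1 := map_smul θ r x.1
          rw [this]
          rfl }
    have hWv : ∀ x, ρW x = (x.1).prodMap (θ x.1) := fun x => rfl
    have hW : IsRep ρW := by
      intro x y
      have h2 : θ (⁅x, y⁆ : soL hE1).1 = θ x.1 * θ y.1 - θ y.1 * θ x.1 := hρ' x y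
      rw [hWv, h2]
      rfl
    let KK : Submodule ℂ (U × U') :=
      { carrier := {w | w.1 ∈ K ∧ w.2 ∈ K' ∧ w ∈ usp (io A ρW) χ ∧
          ∀ α ∈ A.R.Φ, 0 < φ α → ρW (A.e α) w = 0}
        zero_mem' := ⟨K.zero_mem, K'.zero_mem, Submodule.zero_mem _, fun α _ _ => map_zero _⟩
        add_mem' := fun {v w} hv hw => ⟨K.add_mem hv.1 hw.1, K'.add_mem hv.2.1 hw.2.1,
          Submodule.add_mem _ hv.2.2.1 hw.2.2.1, fun α hα hp => by
            rw [map_add, hv.2.2.2 α hα hp, hw.2.2.2 α hα hp, add_zero]⟩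
        smul_mem' := fun r v hv => ⟨K.smul_mem r hv.1, K'.smul_mem r hv.2.1,
          Submodule.smul_mem _ r hv.2.2.1, fun α hα hp => by
            rw [map_smul, hv.2.2.2 α hα hp, smul_zero]⟩ }
    have hKK : ∀ w, w ∈ KK ↔ w.1 ∈ K ∧ w.2 ∈ K' ∧ w ∈ usp (io A ρW) χ ∧
        ∀ α ∈ A.R.Φ, 0 < φ α → ρW (A.e α) w = 0 := fun w => Iff.rfl
    -- operators which commute with the representation
    have hpres : ∀ z : Module.End ℂ (U × U'), (∀ x, z * ρW x = ρW x * z) →
        (∀ w ∈ KK, (z w).1 ∈ K ∧ (z w).2 ∈ K') → ∀ w ∈ KK, z w ∈ KK := by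
      intro z hz hz' w hw
      refine (hKK _).2 ⟨(hz' w hw).1, (hz' w hw).2, fun t => ?_, fun α hα hp => ?_⟩
      · have h2 := LinearMap.congr_fun (hz (A.ι t)) w
        rw [Module.End.mul_apply, Module.End.mul_apply] at h2
        have h3 : ρW (A.ι t) w = χ t • w := hw.2.2.1 t
        rw [io_apply, ← h2, h3, map_smul]
      · have h2 := LinearMap.congr_fun (hz (A.e α)) w
        rw [Module.End.mul_apply, Module.End.mul_apply] at h2
        rw [← h2, hw.2.2.2 α hα hp, map_zero]
    -- the elements of the other colours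
    have hcomm : ∀ b ∈ BB E c θ C, ∀ x, b * ρW x = ρW x * b := by
      rintro _ ⟨s', hs', y, hy, rfl⟩ x
      have hss : s' ≠ s := fun h2 => hsC (h2 ▸ hs')
      have hs2 : ∃ i, c i = s' := hne s' (Finset.mem_insert_of_mem hs')
      have h2 : y * x.1 = x.1 * y := soS_comm h.hE hss hy (hLm x)
      have h3 : θ y * θ x.1 = θ x.1 * θ y := soS_comm h.hE'
        (fun h4 => hss (h.tau_inj hs2 hs h4)) (h.tau_mem hs2 hy) (h.tau_mem hs (hLm x))
      rw [hWv, prodMap_mul, prodMap_mul, h2, h3]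
    have hstab : ∀ b ∈ BB E c θ C, ∀ w ∈ KK, b w ∈ KK := by
      intro b hb
      refine hpres b (hcomm b hb) fun w hw => ?_
      obtain ⟨s', hs', y, hy, rfl⟩ := hb
      have hs2 : ∃ i, c i = s' := hne s' (Finset.mem_insert_of_mem hs')
      refine ⟨?_, ?_⟩
      · exact stab_of (fun i hi u hu => hK i (by
          rw [hi]
          exact Finset.mem_insert_of_mem hs') u hu) hy _ hw.1
      · exact stab_of (fun i hi u hu => hK' i ⟨s', Finset.mem_insert_of_mem hs', hs2, hi⟩ u hu)
          (h.tau_mem hs2 hy) _ hw.2.1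
    have hStr : Str A ρW φ χ KK (BB E c θ C) :=
      ⟨hW, hφ, fun w hw => hw.2.2.1, fun w hw => hw.2.2.2, hcomm, hstab⟩
    have ha' : a ∈ Algebra.adjoin ℂ (Set.range ρW ∪ BB E c θ C) := by
      refine Algebra.adjoin_mono ?_ ha
      rintro _ ⟨s', hs', x, hx, rfl⟩
      rcases Finset.mem_insert.1 hs' with rfl | hs'
      · left
        exact ⟨⟨x, by
          change x ∈ soE E1
          rw [hso1]
          exact hx⟩, rfl⟩
      · right
        exact ⟨s', hs', x, hx, rfl⟩
    obtain ⟨b, hb, hab⟩ := hStr.strip' ha'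
    -- the new subspaces
    refine ih (fun s' hs' => hne s' (Finset.mem_insert_of_mem hs'))
      (KK.comap (LinearMap.inl ℂ U U')) (KK.comap (LinearMap.inr ℂ U U')) ?_ ?_ ?_ ?_ b hb ?_ ?_
    · intro hbot
      have h2 : (u : U) ∈ KK.comap (LinearMap.inl ℂ U U') := by
        refine (hKK _).2 ⟨hPK u.2, K'.zero_mem, fun t => ?_, fun α hα hp => ?_⟩
        · have h3 : S.ρ (A.ι t) u = χ t • u := hu t
          have h4 : (A.ι t).1 (u : U) = χ t • (u : U) := by
            have := hS (A.ι t) u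
            rw [h3] at this
            exact this.symm
          change ((A.ι t).1 (u : U), θ (A.ι t).1 0) = χ t • ((u : U), (0 : U'))
          rw [h4, map_zero]
          simp
        · have h3 := hku α hα hp
          have h4 : (A.e α).1 (u : U) = 0 := by
            have := hS (A.e α) u
            rw [h3] at this
            exact this.symm
          change ((A.e α).1 (u : U), θ (A.e α).1 0) = 0
          rw [h4, map_zero]
          rfl
      rw [hbot, Submodule.mem_bot] at h2
      exact hu0 (Subtype.ext h2)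
    · intro hbot
      have h2 : (u' : U') ∈ KK.comap (LinearMap.inr ℂ U U') := by
        refine (hKK _).2 ⟨K.zero_mem, hPK' u'.2, fun t => ?_, fun α hα hp => ?_⟩
        · have h3 : S'.ρ (A.ι t) u' = χ t • u' := hu' t
          have h4 : θ (A.ι t).1 (u' : U') = χ t • (u' : U') := by
            have := hS' (A.ι t) u'
            rw [h3] at this
            exact this.symm
          change ((A.ι t).1 0, θ (A.ι t).1 (u' : U')) = χ t • ((0 : U), (u' : U'))
          rw [h4, map_zero]
          simp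
        · have h3 := hku' α hα hp
          have h4 : θ (A.e α).1 (u' : U') = 0 := by
            have := hS' (A.e α) u'
            rw [h3] at this
            exact this.symm
          change ((A.e α).1 0, θ (A.e α).1 (u' : U')) = 0
          rw [h4, map_zero]
          rfl
      rw [hbot, Submodule.mem_bot] at h2
      exact hu0' (Subtype.ext h2)
    · -- stability under the other generators
      intro i hi v hv
      have his : c i ≠ s := fun h2 => hsC (h2 ▸ hi)
      have h2 := hpres ((E i).prodMap 0) (fun x => by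
        rw [hWv, prodMap_mul, prodMap_mul, Link_gen h.hE (hLm x) i his, zero_mul, mul_zero])
        (fun w hw => ⟨hK i (Finset.mem_insert_of_mem hi) _ hw.1, K'.zero_mem⟩) (v, 0) hv
      exact h2
    · intro i hi v hv
      obtain ⟨s', hs', hs2, his'⟩ := hi
      have hss : s' ≠ s := fun h2 => hsC (h2 ▸ hs')
      have his : c' i ≠ h.tau s hs := by
        rw [his']
        exact fun h4 => hss (h.tau_inj hs2 hs h4)
      have h2 := hpres ((0 : Module.End ℂ U).prodMap (E' i)) (fun x => by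
        rw [hWv, prodMap_mul, prodMap_mul, Link_gen h.hE' (h.tau_mem hs (hLm x)) i his, zero_mul,
          mul_zero])
        (fun w hw => ⟨K.zero_mem, hK' i ⟨s', Finset.mem_insert_of_mem hs', hs2, his'⟩ _ hw.2.1⟩)
        (0, v) hv
      exact h2
    · intro v hv
      have hv' := (hKK _).1 hv
      have h2 : a (v, 0) = 0 := h0 v hv'.1
      have h3 := hab (v, 0) hv (by rw [h2]; exact Submodule.zero_mem _)
      rw [← h3, h2]
    · intro v hv
      have hv' := (hKK _).1 hv
      have h2 : a (0, v) = (0, v) := h1 v hv'.2.1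
      have h3 := hab (0, v) hv (by rw [h2]; exact hStr.wt _ hv)
      rw [← h3, h2]

/-- **Linking lemma.** No element of the enveloping algebra acts by zero on one module and by one on
the other. -/
theorem no_sep {a : Module.End ℂ (U × U')}
    (ha : a ∈ Algebra.adjoin ℂ {z | ∃ x ∈ soC E c, z = x.prodMap (θ x)})
    (h0 : ∀ u, a (u, 0) = 0) (h1 : ∀ u, a (0, u) = (0, u)) : False := by
  classical
  let C : Finset (Fin k) := Finset.univ.filter fun s => ∃ i, c i = s
  refine h.induct C (fun s hs => (Finset.mem_filter.1 hs).2) ⊤ ⊤ top_ne_bot top_ne_bot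
    (fun _ _ _ _ => Submodule.mem_top) (fun _ _ _ _ => Submodule.mem_top) a ?_ (fun u _ => h0 u)
    (fun u _ => h1 u)
  have h2 : {z | ∃ x ∈ soC E c, z = x.prodMap (θ x)} ⊆
      (Algebra.adjoin ℂ (BB E c θ C) : Set (Module.End ℂ (U × U'))) := by
    rintro _ ⟨x, hx, rfl⟩
    have h3 := pS_sum h.hE hx
    have h4 : x.prodMap (θ x) = ∑ s, (pS E c s x).prodMap (θ (pS E c s x)) := by
      let f : Module.End ℂ U →ₗ[ℂ] Module.End ℂ (U × U') :=
        { toFun := fun x => x.prodMap (θ x)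
          map_add' := fun x y => by
            rw [map_add]
            rfl
          map_smul' := fun r x => by
            rw [map_smul]
            rfl }
      have hf : ∀ x, f x = x.prodMap (θ x) := fun x => rfl
      rw [← hf]
      conv_lhs => rw [h3]
      rw [map_sum]
      exact Finset.sum_congr rfl fun s _ => hf _
    rw [h4]
    refine Subalgebra.sum_mem _ fun s _ => ?_
    by_cases hs : ∃ i, c i = s
    · exact Algebra.subset_adjoin ⟨s, Finset.mem_filter.2 ⟨Finset.mem_univ _, hs⟩, _,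
        pS_mem h.hE hx, rfl⟩
    · push Not at hs
      have h5 := pS_mem (σ := s) h.hE hx
      rw [soS_empty hs, Submodule.mem_bot] at h5
      rw [h5, map_zero]
      exact Subalgebra.zero_mem _
  exact Algebra.adjoin_le h2 ha

end LD

end Pool.Agent.K1H15.K3
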