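import Pool.Agent.Y102.SP.Defs

set_option autoImplicit false
set_option linter.unusedSectionVars false

/-!
# Dominant weights with small pairings are determined by their class modulo the root lattice
-/

open Module

namespace Pool.Agent.K1H15.K3

open Pool.Agent.Y102.SP

variable {X : Type} [AddCommGroup X] [Module ℚ X] (R : Root X)

/-- The root lattice. -/
def Q : AddSubgroup X := AddSubgroup.closure R.Φ

theorem exists_list {x : X} (hx : x ∈ Q R) : ∃ l : List X, (∀ α ∈ l, α ∈ R.Φ) ∧ l.sum = x := by
  induction hx using AddSubgroup.closure_induction with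
  | mem x hx => exact ⟨[x], by simpa using hx, by simp⟩
  | zero => exact ⟨[], by simp, by simp⟩
  | add x y _ _ hx hy =>
    obtain ⟨l, hl, rfl⟩ := hx
    obtain ⟨m, hm, rfl⟩ := hy
    refine ⟨l ++ m, ?_, by simp⟩
    intro α hα
    rcases List.mem_append.1 hα with h | h
    · exact hl α h
    · exact hm α h
  | neg x _ hx =>
    obtain ⟨l, hl, rfl⟩ := hx
    refine ⟨l.map (fun y => -y), ?_, ?_⟩
    · intro α hα
      obtain ⟨β, hβ, rfl⟩ := List.mem_map.1 hα
      exact R.neg β (hl β hβ)
    · have key : ∀ m : List X, (m.map (fun y => -y)).sum = -m.sum := by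
        intro m
        induction m with
        | nil => simp
        | cons a m ih => rw [List.map_cons, List.sum_cons, List.sum_cons, ih, neg_add]
      exact key l

theorem pr_sum_nonneg {α : X} (l : List X) (h : ∀ β ∈ l, 0 ≤ R.pr α β) : 0 ≤ R.pr α l.sum := by
  induction l with
  | nil => simp
  | cons b l ih =>
    rw [List.sum_cons, map_add]
    have h1 := h b List.mem_cons_self
    have h2 := ih fun β hβ => h β (List.mem_cons_of_mem _ hβ)
    linarith

theorem exists_two_aux (n : ℕ) : ∀ l : List X, l.length = n → (∀ α ∈ l, α ∈ R.Φ) → l.sum ≠ 0 →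
    ∃ α ∈ R.Φ, 2 ≤ R.pr α l.sum := by
  classical
  induction n using Nat.strong_induction_on with
  | _ n ih =>
    intro l hn hl h0
    match l, hn, hl, h0 with
    | [], _, _, h0 => exact absurd List.sum_nil h0
    | α :: l, hn, hl, h0 =>
      have hα : α ∈ R.Φ := hl α List.mem_cons_self
      by_cases h : ∀ β ∈ l, 0 ≤ R.pr α β
      · refine ⟨α, hα, ?_⟩
        rw [List.sum_cons, map_add, R.two α hα]
        have := pr_sum_nonneg R l h
        linarith
      · push Not at h
        obtain ⟨β, hβ, hneg⟩ := h
        have hβΦ : β ∈ R.Φ := hl β (List.mem_cons_of_mem _ hβ)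
        have hsum : l.sum = β + (l.erase β).sum := by
          rw [← List.sum_cons]
          exact (List.perm_cons_erase hβ).sum_eq
        have hlen : (l.erase β).length + 1 = l.length := List.length_erase_add_one hβ
        have hmem : ∀ γ ∈ l.erase β, γ ∈ R.Φ := fun γ hγ =>
          hl γ (List.mem_cons_of_mem _ (List.mem_of_mem_erase hγ))
        rw [List.length_cons] at hn
        by_cases hb : β = -α
        · have h1 : (α :: l).sum = (l.erase β).sum := by
            rw [List.sum_cons, hsum, hb, add_neg_cancel_left]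
          rw [h1] at h0 ⊢
          exact ih _ (by omega) _ rfl hmem h0
        · have h2 := R.add α hα β hβΦ hb hneg
          have h1 : (α :: l).sum = ((α + β) :: l.erase β).sum := by
            rw [List.sum_cons, hsum, List.sum_cons, add_assoc]
          rw [h1] at h0 ⊢
          refine ih _ ?_ _ rfl ?_ h0
          · rw [List.length_cons]
            omega
          · intro γ hγ
            rcases List.mem_cons.1 hγ with rfl | hγ
            · exact h2
            · exact hmem γ hγ

theorem exists_two {x : X} (hx : x ∈ Q R) (h0 : x ≠ 0) : ∃ α ∈ R.Φ, 2 ≤ R.pr α x := by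
  obtain ⟨l, hl, rfl⟩ := exists_list R hx
  exact exists_two_aux R _ l rfl hl h0

/-- Dominant weights with pairings at most one. -/
def Min (φ : X →ₗ[ℚ] ℚ) (ω : X) : Prop := ∀ α ∈ R.Φ, 0 < φ α → 0 ≤ R.pr α ω ∧ R.pr α ω ≤ 1

variable {R}

theorem Min.unique {φ : X →ₗ[ℚ] ℚ} (hφ : ∀ α ∈ R.Φ, φ α ≠ 0) {a b : X} (ha : Min R φ a)
    (hb : Min R φ b) (h : a - b ∈ Q R) : a = b := by
  by_contra hne
  obtain ⟨α, hα, h2⟩ := exists_two R h (sub_ne_zero.2 hne)
  rw [map_sub] at h2
  rcases lt_or_gt_of_ne (hφ α hα) with hn | hp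
  · have h3 := ha (-α) (R.neg α hα) (by rw [map_neg]; linarith)
    have h4 := hb (-α) (R.neg α hα) (by rw [map_neg]; linarith)
    rw [R.pneg α hα] at h3 h4
    linarith [h3.1, h4.2]
  · have h3 := ha α hα hp
    have h4 := hb α hα hp
    linarith [h3.2, h4.1]

theorem Min.zero (φ : X →ₗ[ℚ] ℚ) : Min R φ 0 := fun α _ _ => by simp

end Pool.Agent.K1H15.K3
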