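import Pool.Agent.Y102.SP.Abs
import Pool.Agent.Y102.SP.Wt
import Pool.Agent.Y102.SP.Bil
import Pool.Agent.K1H15.K3.Root

set_option autoImplicit false
set_option linter.unusedSectionVars false

/-!
# Highest weight vectors in representations of Lie algebras with a root decomposition
-/

open Module

namespace Pool.Agent.K1H15.K3

open Pool.Agent.Y102.SP

attribute [local instance 100] LieRing.ofAssociativeRing

variable {L T U : Type} [LieRing L] [LieAlgebra ℂ L] [AddCommGroup T] [Module ℂ T]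
  [AddCommGroup U] [Module ℂ U]

/-- Representations. -/
def IsRep (ρ : L →ₗ[ℂ] Module.End ℂ U) : Prop := ∀ x y, ρ ⁅x, y⁆ = ρ x * ρ y - ρ y * ρ x

variable (A : AbsRoot L T) {ρ : L →ₗ[ℂ] Module.End ℂ U}

/-- The action of the Cartan subalgebra. -/
def io (ρ : L →ₗ[ℂ] Module.End ℂ U) : T →ₗ[ℂ] Module.End ℂ U := ρ ∘ₗ A.ι

theorem io_apply (ρ : L →ₗ[ℂ] Module.End ℂ U) (t : T) : io A ρ t = ρ (A.ι t) := rfl

theorem wsp_mul_usp {ι : T →ₗ[ℂ] Module.End ℂ U} {ω χ : Module.Dual ℂ T} {x : Module.End ℂ U}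
    (hx : x ∈ wsp ι ω) {u : U} (hu : u ∈ usp ι χ) : x u ∈ usp ι (ω + χ) := by
  intro t
  have h1 : ι t * x = x * ι t + ω t • x := by
    rw [← hx t]
    abel
  have h2 : ι t (x u) = (ι t * x) u := rfl
  rw [h2, h1, LinearMap.add_apply, LinearMap.smul_apply, Module.End.mul_apply, hu t, map_smul,
    LinearMap.add_apply, add_smul]
  abel

variable (hρ : IsRep ρ)
include hρ

theorem rep_wt {α : Module.Dual ℂ T} (hα : α ∈ A.R.Φ) : ρ (A.e α) ∈ wsp (io A ρ) α := fun t => by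
  rw [io_apply, ← hρ, A.wt α hα t, map_smul]

theorem rep_comm (s t : T) : io A ρ s * io A ρ t = io A ρ t * io A ρ s := by
  rw [io_apply, io_apply, ← sub_eq_zero, ← hρ, A.comm, map_zero]

theorem rep_br {α : Module.Dual ℂ T} (hα : α ∈ A.R.Φ) :
    ρ (A.e α) * ρ (A.e (-α)) - ρ (A.e (-α)) * ρ (A.e α) = io A ρ (A.h α) := by
  rw [← hρ, A.br α hα, io_apply]

omit hρ in
theorem h_two {α : Module.Dual ℂ T} (hα : α ∈ A.R.Φ) : α (A.h α) = 2 := by
  rw [A.prh α hα α (A.rat α hα α hα), A.R.two α hα]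
  norm_num

/-- The words in the root vectors. -/
def word (ρ : L →ₗ[ℂ] Module.End ℂ U) (u : U) (l : List (Module.Dual ℂ T)) : U :=
  (l.map fun γ => ρ (A.e γ)).prod u

omit hρ in
theorem word_cons (u : U) (γ : Module.Dual ℂ T) (l : List (Module.Dual ℂ T)) :
    word A ρ u (γ :: l) = ρ (A.e γ) (word A ρ u l) := by
  unfold word
  rw [List.map_cons, List.prod_cons, Module.End.mul_apply]

omit hρ in
theorem word_nil (u : U) : word A ρ u [] = u := by
  unfold word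
  simp

/-- The span of the words in the negative root vectors. -/
def Dn (ρ : L →ₗ[ℂ] Module.End ℂ U) (φ : Module.Dual ℂ T →ₗ[ℚ] ℚ) (u : U) : Submodule ℂ U :=
  Submodule.span ℂ {v | ∃ l : List (Module.Dual ℂ T), (∀ γ ∈ l, γ ∈ A.R.Φ ∧ φ γ < 0) ∧
    v = word A ρ u l}

omit hρ in
theorem Dn_neg {φ : Module.Dual ℂ T →ₗ[ℚ] ℚ} {u : U} {γ : Module.Dual ℂ T} (hγ : γ ∈ A.R.Φ)
    (hn : φ γ < 0) : ∀ v ∈ Dn A ρ φ u, ρ (A.e γ) v ∈ Dn A ρ φ u := by
  intro v hv
  have h1 : Dn A ρ φ u ≤ (Dn A ρ φ u).comap (ρ (A.e γ)) := by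
    conv_lhs => unfold Dn
    rw [Submodule.span_le]
    rintro _ ⟨l, hl, rfl⟩
    rw [SetLike.mem_coe, Submodule.mem_comap, ← word_cons]
    apply Submodule.subset_span
    refine ⟨γ :: l, ?_, rfl⟩
    intro β hβ
    rcases List.mem_cons.1 hβ with rfl | hβ
    · exact ⟨hγ, hn⟩
    · exact hl β hβ
  exact h1 hv

omit hρ in
/-- linear conditions on the Lie algebra hold if they hold for the generators -/
theorem ind_L (F : L →ₗ[ℂ] U) (N : Submodule ℂ U) (h1 : ∀ t, F (A.ι t) ∈ N)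
    (h2 : ∀ β ∈ A.R.Φ, F (A.e β) ∈ N) (x : L) : F x ∈ N := by
  have h3 : LinearMap.range A.ι ⊔ Submodule.span ℂ (A.e '' A.R.Φ) ≤ N.comap F := by
    rw [sup_le_iff]
    constructor
    · rintro _ ⟨t, rfl⟩
      exact h1 t
    · rw [Submodule.span_le]
      rintro _ ⟨β, hβ, rfl⟩
      exact h2 β hβ
  exact h3 (A.span Submodule.mem_top)

theorem Dn_stable {φ : Module.Dual ℂ T →ₗ[ℚ] ℚ} (hφ : ∀ α ∈ A.R.Φ, φ α ≠ 0) {χ : Module.Dual ℂ T}
    {u : U} (hu : u ∈ usp (io A ρ) χ) (hk : ∀ α ∈ A.R.Φ, 0 < φ α → ρ (A.e α) u = 0)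
    (l : List (Module.Dual ℂ T)) : (∀ γ ∈ l, γ ∈ A.R.Φ ∧ φ γ < 0) → ∀ x : L,
      ρ x (word A ρ u l) ∈ Dn A ρ φ u := by
  induction l with
  | nil =>
    intro _ x
    have huD : u ∈ Dn A ρ φ u := Submodule.subset_span ⟨[], by simp, (word_nil A u).symm⟩
    rw [word_nil]
    refine ind_L A ((LinearMap.applyₗ u) ∘ₗ ρ) (Dn A ρ φ u) (fun t => ?_) (fun β hβ => ?_) x
    · have h1 := hu t
      rw [io_apply] at h1
      change ρ (A.ι t) u ∈ _
      rw [h1]
      exact Submodule.smul_mem _ _ huD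
    · change ρ (A.e β) u ∈ _
      rcases lt_or_gt_of_ne (hφ β hβ) with h | h
      · exact Dn_neg A hβ h u huD
      · rw [hk β hβ h]
        exact Submodule.zero_mem _
  | cons γ l ih =>
    intro hl x
    have hγ := hl γ List.mem_cons_self
    have ih' := ih (fun β hβ => hl β (List.mem_cons_of_mem _ hβ))
    rw [word_cons]
    have h1 : ρ x (ρ (A.e γ) (word A ρ u l)) =
        ρ ⁅x, A.e γ⁆ (word A ρ u l) + ρ (A.e γ) (ρ x (word A ρ u l)) := by
      rw [hρ, LinearMap.sub_apply, Module.End.mul_apply, Module.End.mul_apply, sub_add_cancel]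
    rw [h1]
    exact Submodule.add_mem _ (ih' _) (Dn_neg A hγ.1 hγ.2 _ (ih' x))

theorem Dn_adjoin {φ : Module.Dual ℂ T →ₗ[ℚ] ℚ} (hφ : ∀ α ∈ A.R.Φ, φ α ≠ 0) {χ : Module.Dual ℂ T}
    {u : U} (hu : u ∈ usp (io A ρ) χ) (hk : ∀ α ∈ A.R.Φ, 0 < φ α → ρ (A.e α) u = 0)
    {a : Module.End ℂ U} (ha : a ∈ Algebra.adjoin ℂ (Set.range ρ)) :
    ∀ v ∈ Dn A ρ φ u, a v ∈ Dn A ρ φ u := by
  induction ha using Algebra.adjoin_induction with
  | mem x hx =>
    obtain ⟨x, rfl⟩ := hx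
    intro v hv
    have h1 : Dn A ρ φ u ≤ (Dn A ρ φ u).comap (ρ x) := by
      conv_lhs => unfold Dn
      rw [Submodule.span_le]
      rintro _ ⟨l, hl, rfl⟩
      exact Dn_stable A hρ hφ hu hk l hl x
    exact h1 hv
  | algebraMap r =>
    intro v hv
    rw [Module.algebraMap_end_apply]
    exact Submodule.smul_mem _ _ hv
  | add x y _ _ hx hy =>
    intro v hv
    rw [LinearMap.add_apply]
    exact Submodule.add_mem _ (hx v hv) (hy v hv)
  | mul x y _ _ hx hy =>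
    intro v hv
    rw [Module.End.mul_apply]
    exact hx _ (hy v hv)

theorem word_weight {φ : Module.Dual ℂ T →ₗ[ℚ] ℚ} {χ : Module.Dual ℂ T}
    {u : U} (hu : u ∈ usp (io A ρ) χ) (l : List (Module.Dual ℂ T)) :
    (∀ γ ∈ l, γ ∈ A.R.Φ ∧ φ γ < 0) →
      word A ρ u l ∈ usp (io A ρ) (l.sum + χ) ∧ (l ≠ [] → φ l.sum < 0) := by
  induction l with
  | nil =>
    intro _
    refine ⟨?_, fun h => absurd rfl h⟩
    rw [word_nil]
    simpa using hu
  | cons γ l ih =>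
    intro hl
    have hγ := hl γ List.mem_cons_self
    obtain ⟨h1, h2⟩ := ih (fun β hβ => hl β (List.mem_cons_of_mem _ hβ))
    refine ⟨?_, fun _ => ?_⟩
    · rw [word_cons, List.sum_cons, add_assoc]
      exact wsp_mul_usp (rep_wt A hρ hγ.1) h1
    · rw [List.sum_cons, map_add]
      by_cases hl0 : l = []
      · subst hl0
        simpa using hγ.2
      · have := h2 hl0
        have := hγ.2
        linarith

theorem rep_indep [FiniteDimensional ℂ U] :
    iSupIndep fun χ : Module.Dual ℂ T => usp (io A ρ) χ := by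
  have h1 := Module.End.independent_iInf_maxGenEigenspace_of_forall_mapsTo (fun t => io A ρ t)
    (fun i j φ => Module.End.mapsTo_maxGenEigenspace_of_comm (rep_comm A hρ j i) φ)
  have h2 := h1.comp (f := fun χ : Module.Dual ℂ T => (fun t => χ t)) (fun a b hab => by
    ext t
    exact congrFun hab t)
  refine h2.mono ?_
  intro χ x hx
  simp only [Function.comp_apply, Submodule.mem_iInf]
  intro t
  refine Module.End.mem_maxGenEigenspace _ _ _ |>.2 ⟨1, ?_⟩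
  simp only [pow_one, LinearMap.sub_apply, LinearMap.smul_apply, Module.End.one_apply]
  rw [hx t, sub_self]

/-- If an element of the enveloping algebra maps a highest weight vector to a vector of the same
weight, then the image is a multiple. -/
theorem hw_principle [FiniteDimensional ℂ U] {φ : Module.Dual ℂ T →ₗ[ℚ] ℚ}
    (hφ : ∀ α ∈ A.R.Φ, φ α ≠ 0) {χ : Module.Dual ℂ T} {u : U} (hu : u ∈ usp (io A ρ) χ)
    (hk : ∀ α ∈ A.R.Φ, 0 < φ α → ρ (A.e α) u = 0)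
    {a : Module.End ℂ U} (ha : a ∈ Algebra.adjoin ℂ (Set.range ρ)) (hau : a u ∈ usp (io A ρ) χ) :
    ∃ c : ℂ, a u = c • u := by
  have huD : u ∈ Dn A ρ φ u := Submodule.subset_span ⟨[], by simp, (word_nil A u).symm⟩
  have hlow : Dn A ρ φ u ≤ Submodule.span ℂ {u} ⊔
      ⨆ ψ : {ψ : Module.Dual ℂ T // φ ψ < φ χ}, usp (io A ρ) ψ.1 := by
    unfold Dn
    rw [Submodule.span_le]
    rintro _ ⟨l, hl, rfl⟩
    obtain ⟨h1, h2⟩ := word_weight A hρ hu l hl
    by_cases hl0 : l = []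
    · subst hl0
      apply Submodule.mem_sup_left
      rw [word_nil]
      exact Submodule.mem_span_singleton_self u
    · apply Submodule.mem_sup_right
      have h3 := h2 hl0
      exact Submodule.mem_iSup_of_mem
        (p := fun ψ : {ψ : Module.Dual ℂ T // φ ψ < φ χ} => usp (io A ρ) ψ.1)
        ⟨l.sum + χ, by rw [map_add]; linarith⟩ h1
  obtain ⟨y, hy, r, hr, hyr⟩ := Submodule.mem_sup.1 (hlow (Dn_adjoin A hρ hφ hu hk ha u huD))
  obtain ⟨c, rfl⟩ := Submodule.mem_span_singleton.1 hy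
  refine ⟨c, ?_⟩
  have hr1 : r ∈ usp (io A ρ) χ := by
    have : r = a u - c • u := by rw [← hyr]; abel
    rw [this]
    exact Submodule.sub_mem _ hau (Submodule.smul_mem _ _ hu)
  have hr2 : r ∈ ⨆ ψ, ⨆ (_ : ψ ≠ χ), usp (io A ρ) ψ := by
    have h3 : (⨆ ψ : {ψ : Module.Dual ℂ T // φ ψ < φ χ}, usp (io A ρ) ψ.1) ≤
        ⨆ ψ, ⨆ (_ : ψ ≠ χ), usp (io A ρ) ψ := by
      refine iSup_le fun ψ => le_iSup₂_of_le ψ.1 ?_ le_rfl
      intro h
      have h4 := ψ.2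
      rw [h] at h4
      exact lt_irrefl _ h4
    exact h3 hr
  have h5 := (rep_indep A hρ χ).le_bot ⟨hr1, hr2⟩
  rw [← hyr, (Submodule.mem_bot ℂ).1 h5, add_zero]

/-! ### Weights -/

/-- The triple of a root. -/
theorem rep_triple {α : Module.Dual ℂ T} (hα : α ∈ A.R.Φ) (hne : ρ (A.e α) ≠ 0) :
    IsSl2Triple (io A ρ (A.h α)) (ρ (A.e α)) (ρ (A.e (-α))) where
  h_ne_zero := by
    intro h
    have h1 := rep_wt A hρ hα (A.h α)
    rw [h, zero_mul, mul_zero, sub_zero, h_two A hα] at h1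
    rcases smul_eq_zero.1 h1.symm with h2 | h2
    · norm_num at h2
    · exact hne h2
  lie_e_f := by
    rw [Ring.lie_def]
    exact rep_br A hρ hα
  lie_h_e_nsmul := by
    rw [Ring.lie_def, rep_wt A hρ hα, h_two A hα, ← ofNat_smul_eq_nsmul ℂ 2]
  lie_h_f_nsmul := by
    rw [Ring.lie_def, rep_wt A hρ (A.R.neg α hα), LinearMap.neg_apply, h_two A hα, neg_smul,
      ← ofNat_smul_eq_nsmul ℂ 2]

/-- The representation `ρ` is minuscule: the root vectors have square zero. -/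
def IsMin (ρ : L →ₗ[ℂ] Module.End ℂ U) : Prop :=
  ∀ α ∈ A.R.Φ, ρ (A.e α) ≠ 0 ∧ ρ (A.e α) * ρ (A.e α) = 0

/-- The pairings of the weights are integers and at most one. -/
theorem wt_le [FiniteDimensional ℂ U] (hm : IsMin A ρ) {α : Module.Dual ℂ T} (hα : α ∈ A.R.Φ)
    {χ : Module.Dual ℂ T} (hχ : usp (io A ρ) χ ≠ ⊥) :
    ∃ m : ℤ, χ (A.h α) = m ∧ m ≤ 1 ∧ A.R.pr α χ = m := by
  obtain ⟨u, hu, hu0⟩ := Submodule.exists_mem_ne_zero_of_ne_bot hχ
  have h1 : ⁅io A ρ (A.h α), u⁆ = χ (A.h α) • u := hu _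
  obtain ⟨n, k, hP, h2⟩ := Wt_prim (rep_triple A hρ hα (hm α hα).1) hu0 h1
  have hn : n ≤ 1 := by
    by_contra hcon
    push Not at hcon
    have h3 := hP.pow_toEnd_f_ne_zero_of_eq_nat rfl (show 2 ≤ n by omega)
    apply h3
    rw [pow_two]
    have h4 := (hm (-α) (A.R.neg α hα)).2
    have h5 := LinearMap.congr_fun h4
      (((LieModule.toEnd ℂ (Module.End ℂ U) U) (ρ (A.e α)) ^ k) u)
    exact h5
  have h3 : χ (A.h α) = ((n - 2 * k : ℤ) : ℂ) := by
    rw [h2]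
    push_cast
    ring
  have h4 : χ (A.h α) = (A.R.pr α χ : ℂ) := A.prh α hα χ ⟨((n - 2 * k : ℤ) : ℚ), by
    rw [h3]
    push_cast
    ring⟩
  refine ⟨n - 2 * k, h3, by omega, ?_⟩
  have h5 : ((A.R.pr α χ : ℚ) : ℂ) = (((n - 2 * k : ℤ) : ℚ) : ℂ) := by
    rw [← h4, h3]
    push_cast
    ring
  exact Rat.cast_injective h5

/-- The largest weight in a class modulo the root lattice is dominant, and its vectors are killed by
the positive root vectors. -/
theorem exists_dom [FiniteDimensional ℂ U] (hm : IsMin A ρ) (φ : Module.Dual ℂ T →ₗ[ℚ] ℚ)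
    {ω : Module.Dual ℂ T} (hω : usp (io A ρ) ω ≠ ⊥) :
    ∃ χ, χ - ω ∈ Q A.R ∧ Min A.R φ χ ∧ ∃ u ∈ usp (io A ρ) χ, u ≠ 0 ∧
      ∀ α ∈ A.R.Φ, 0 < φ α → ρ (A.e α) u = 0 := by
  classical
  have hfin : {χ : Module.Dual ℂ T | usp (io A ρ) χ ≠ ⊥}.Finite :=
    WellFoundedGT.finite_ne_bot_of_iSupIndep (rep_indep A hρ)
  have hfin' : {χ : Module.Dual ℂ T | usp (io A ρ) χ ≠ ⊥ ∧ χ - ω ∈ Q A.R}.Finite :=
    hfin.subset fun χ hχ => hχ.1
  obtain ⟨χ, ⟨hχ, hχQ⟩, hmax⟩ := Set.exists_max_image _ φ hfin'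
    ⟨ω, hω, by rw [sub_self]; exact zero_mem _⟩
  have hkill : ∀ u ∈ usp (io A ρ) χ, ∀ α ∈ A.R.Φ, 0 < φ α → ρ (A.e α) u = 0 := by
    intro u hu α hα hp
    have h1 := wsp_mul_usp (rep_wt A hρ hα) hu
    by_contra hne
    have h2 : usp (io A ρ) (α + χ) ≠ ⊥ := fun h => by
      rw [h, Submodule.mem_bot] at h1
      exact hne h1
    have h3 : α + χ - ω ∈ Q A.R := by
      rw [add_sub_assoc]
      exact add_mem (AddSubgroup.subset_closure hα) hχQ
    have h4 := hmax (α + χ) ⟨h2, h3⟩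
    rw [map_add] at h4
    linarith
  obtain ⟨u, hu, hu0⟩ := Submodule.exists_mem_ne_zero_of_ne_bot hχ
  refine ⟨χ, hχQ, fun α hα hp => ?_, u, hu, hu0, hkill u hu⟩
  obtain ⟨m, h1, h2, h3⟩ := wt_le A hρ hm hα hχ
  rw [h3]
  refine ⟨?_, by exact_mod_cast h2⟩
  have hP : (rep_triple A hρ hα (hm α hα).1).HasPrimitiveVectorWith u (m : ℂ) :=
    { ne_zero := hu0
      lie_h := by
        have h4 : ⁅io A ρ (A.h α), u⁆ = χ (A.h α) • u := hu _
        rw [h4, h1]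
      lie_e := hkill u hu α hα hp }
  obtain ⟨n, hn⟩ := hP.exists_nat
  have h5 : m = (n : ℤ) := by exact_mod_cast hn
  rw [h5]
  positivity

end Pool.Agent.K1H15.K3
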