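import Pool.Agent.Y102.SP.Kil
import Pool.Agent.K1H15.K3.Rep

set_option autoImplicit false
set_option linter.unusedSectionVars false

/-!
# The system of a representation whose image is the orthogonal Lie algebra of a Clifford system
-/

open Module

namespace Pool.Agent.K1H15.K3

open Pool.Agent.Y102.SP

variable {L T U : Type} [LieRing L] [LieAlgebra ℂ L] [AddCommGroup T] [Module ℂ T]
  [AddCommGroup U] [Module ℂ U]

/-- A spin representation: an isomorphism of `L` with the orthogonal Lie algebra of an irreducible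
Clifford system. -/
structure Spin (L : Type) [LieRing L] [LieAlgebra ℂ L] (U : Type) [AddCommGroup U] [Module ℂ U]
    where
  n : ℕ
  hn : 3 ≤ n
  E : Fin n → Module.End ℂ U
  hE : CE E
  irr : ∀ P : Submodule ℂ U, (∀ i, ∀ u ∈ P, E i u ∈ P) → P = ⊥ ∨ P = ⊤
  ρ : L →ₗ[ℂ] Module.End ℂ U
  rep : IsRep ρ
  inj : Function.Injective ρ
  ran : LinearMap.range ρ = soE E

variable (S : Spin L U) (A : AbsRoot L T)

namespace Spin

theorem mem (x : L) : S.ρ x ∈ soE S.E := by
  rw [← S.ran]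
  exact ⟨x, rfl⟩

theorem gen (i j : Fin S.n) :
    S.E i * S.E j ∈ Algebra.adjoin ℂ (soE S.E : Set (Module.End ℂ U)) := by
  by_cases h : i = j
  · subst h
    rw [S.hE.sq]
    exact Subalgebra.one_mem _
  · exact Algebra.subset_adjoin (Submodule.subset_span ⟨i, j, h, rfl⟩)

theorem hspan : soE S.E ≤ LinearMap.range (io A S.ρ) ⊔
    Submodule.span ℂ ((fun α => S.ρ (A.e α)) '' A.R.Φ) := by
  intro x hx
  rw [← S.ran] at hx
  obtain ⟨y, rfl⟩ := hx
  have h1 : y ∈ LinearMap.range A.ι ⊔ Submodule.span ℂ (A.e '' A.R.Φ) := A.span trivial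
  have h2 : S.ρ y ∈ (LinearMap.range A.ι ⊔ Submodule.span ℂ (A.e '' A.R.Φ)).map S.ρ := ⟨_, h1, rfl⟩
  rw [Submodule.map_sup, Submodule.map_span, ← Set.image_comp, ← LinearMap.range_comp] at h2
  exact h2

variable [FiniteDimensional ℂ U] [Nontrivial U]

theorem usp_top : (⨆ χ, usp (io A S.ρ) χ) = ⊤ :=
  kil_usp (io A S.ρ) S.hn S.hE S.irr (soE S.E) le_rfl S.gen A.R.Φ (fun α => S.ρ (A.e α))
    (fun t => S.mem _) (S.hspan A) (rep_comm A S.rep) (fun α hα => rep_wt A S.rep hα)

/-- The system. -/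
noncomputable def sys : Sys (VE S.E) (soE S.E) T where
  clif := S.hE.clif
  le := by rw [← soE_eq S.hE]
  stab := fun x hx v hv => soE_stab S.hE hx hv
  gen := adjoin_mul (soE S.E) S.gen
  R := A.R
  ι := io A S.ρ
  h := A.h
  e := fun α => S.ρ (A.e α)
  ιmem := fun t => S.mem _
  emem := fun α _ => S.mem _
  ene := fun α hα h0 => A.ene α hα (S.inj (by rw [h0, map_zero]))
  span := S.hspan A
  comm := rep_comm A S.rep
  wt := fun α hα => rep_wt A S.rep hα
  br := fun α hα => rep_br A S.rep hα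
  hneg := A.hneg
  prh := A.prh
  rat := A.rat
  add0 := fun α hα β hβ h0 h1 => by
    rw [← sub_eq_zero, ← S.rep, A.add0 α hα β hβ h0 h1, map_zero]
  add1 := fun α hα β hβ h0 => by
    obtain ⟨c, hc⟩ := A.add1 α hα β hβ h0
    exact ⟨c, by rw [← S.rep, hc, map_smul]⟩
  vspan := by
    have hW := kil_wsp (io A S.ρ) (S.usp_top A)
    intro x hx
    have hx' : x ∈ ⨆ χ, wsp (io A S.ρ) χ := by rw [hW]; trivial
    rw [Submodule.mem_iSup_iff_exists_finsupp] at hx'
    obtain ⟨f, hf, hfx⟩ := hx'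
    have h1 := kil_comp (io A S.ρ) (VE S.E) (fun t v hv => soE_stab S.hE (S.mem _) hv)
      f.support f hf (by rw [Finsupp.sum] at hfx; rw [hfx]; exact hx)
    rw [← hfx, Finsupp.sum]
    exact Submodule.sum_mem _ fun χ hχ => Submodule.mem_iSup_of_mem χ ⟨h1 χ hχ, hf χ⟩

end Spin

end Pool.Agent.K1H15.K3
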