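import Pool.Agent.Y102.SP.Simple
import Pool.Agent.Y102.SP.Cl
import Pool.Agent.Y102.SP.ColMain

set_option autoImplicit false
set_option linter.unusedSectionVars false
set_option linter.unusedVariables false

/-!
# The orthogonal Lie algebra of a Clifford system with three generators
-/

open Module

namespace Pool.Agent.K1H15.K3

open Pool.Agent.Y102.SP

variable {U : Type} [AddCommGroup U] [Module ℂ U]

section three

variable {E : Fin 3 → Module.End ℂ U} (hE : CE E)
include hE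

/-- The relations between the three products. -/
theorem rel3 : (E 0 * E 1) * (E 0 * E 1) = -1 ∧ (E 1 * E 2) * (E 1 * E 2) = -1 ∧
    (E 2 * E 0) * (E 2 * E 0) = -1 ∧
    (E 0 * E 1) * (E 1 * E 2) = -(E 2 * E 0) ∧ (E 1 * E 2) * (E 0 * E 1) = E 2 * E 0 ∧
    (E 1 * E 2) * (E 2 * E 0) = -(E 0 * E 1) ∧ (E 2 * E 0) * (E 1 * E 2) = E 0 * E 1 ∧
    (E 2 * E 0) * (E 0 * E 1) = -(E 1 * E 2) ∧ (E 0 * E 1) * (E 2 * E 0) = E 1 * E 2 := by
  have a01 := hE.anti 0 1 (by decide)
  have a12 := hE.anti 1 2 (by decide)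
  have a20 := hE.anti 2 0 (by decide)
  have s0 := hE.sq 0
  have s1 := hE.sq 1
  have s2 := hE.sq 2
  have t : ∀ x y z : Module.End ℂ U, z * z = 1 → (x * z) * (z * y) = x * y := by
    intro x y z hz
    rw [mul_assoc, ← mul_assoc z, hz, one_mul]
  have t' : ∀ x y z : Module.End ℂ U, z * z = 1 → y * z = -(z * y) → x * z = -(z * x) →
      (z * x) * (y * z) = x * y := by
    intro x y z hz h1 h2
    have e : z * x = -(x * z) := by rw [h2, neg_neg]
    rw [h1, e, neg_mul_neg, t _ _ _ hz]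
  refine ⟨simple_sq hE (by decide), simple_sq hE (by decide), simple_sq hE (by decide), ?_, ?_,
    ?_, ?_, ?_, ?_⟩
  · rw [t _ _ _ s1, a20, neg_neg]
  · rw [t' _ _ _ s1 a01 (by rw [a12, neg_neg])]
  · rw [t _ _ _ s2, a01, neg_neg]
  · rw [t' _ _ _ s2 a12 (by rw [a20, neg_neg])]
  · rw [t _ _ _ s0, a12, neg_neg]
  · rw [t' _ _ _ s0 a20 (by rw [a01, neg_neg])]

theorem mem3 {x : Module.End ℂ U} (hx : x ∈ soE E) : ∃ a b c : ℂ,
    x = a • (E 0 * E 1) + b • (E 1 * E 2) + c • (E 2 * E 0) := by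
  induction hx using Submodule.span_induction with
  | mem x hx =>
    obtain ⟨i, j, hij, rfl⟩ := hx
    fin_cases i <;> fin_cases j
    · exact absurd rfl hij
    · exact ⟨1, 0, 0, by simp⟩
    · refine ⟨0, 0, -1, ?_⟩
      have := hE.anti 0 2 (by decide)
      simp [this]
    · refine ⟨-1, 0, 0, ?_⟩
      have := hE.anti 1 0 (by decide)
      simp [this]
    · exact absurd rfl hij
    · exact ⟨0, 1, 0, by simp⟩
    · exact ⟨0, 0, 1, by simp⟩
    · refine ⟨0, -1, 0, ?_⟩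
      have := hE.anti 2 1 (by decide)
      simp [this]
    · exact absurd rfl hij
  | zero => exact ⟨0, 0, 0, by simp⟩
  | add x y _ _ hx hy =>
    obtain ⟨a, b, c, rfl⟩ := hx
    obtain ⟨a', b', c', rfl⟩ := hy
    exact ⟨a + a', b + b', c + c', by module⟩
  | smul r x _ hx =>
    obtain ⟨a, b, c, rfl⟩ := hx
    exact ⟨r * a, r * b, r * c, by module⟩

/-- Symmetrized products are scalars. -/
theorem sym3 {x y : Module.End ℂ U} (hx : x ∈ soE E) (hy : y ∈ soE E) :
    ∃ r : ℂ, x * y + y * x = r • (1 : Module.End ℂ U) := by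
  obtain ⟨a, b, c, rfl⟩ := mem3 hE hx
  obtain ⟨a', b', c', rfl⟩ := mem3 hE hy
  obtain ⟨r1, r2, r3, r4, r5, r6, r7, r8, r9⟩ := rel3 hE
  refine ⟨-2 * (a * a' + b * b' + c * c'), ?_⟩
  simp only [add_mul, mul_add, smul_mul_assoc, mul_smul_comm, r1, r2, r3, r4, r5, r6, r7, r8, r9]
  module

theorem soE_span3 : soE E ≤ Submodule.span ℂ (Set.range ![E 0 * E 1, E 1 * E 2, E 2 * E 0]) := by
  intro x hx
  obtain ⟨a, b, c, rfl⟩ := mem3 hE hx
  refine add_mem (add_mem ?_ ?_) ?_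
  · exact Submodule.smul_mem _ _ (Submodule.subset_span ⟨0, rfl⟩)
  · exact Submodule.smul_mem _ _ (Submodule.subset_span ⟨1, rfl⟩)
  · exact Submodule.smul_mem _ _ (Submodule.subset_span ⟨2, rfl⟩)

/-- The Lie algebra `so(3)` is simple. -/
theorem simple3 (J : Submodule ℂ (Module.End ℂ U)) (hJ : J ≤ soE E)
    (hbr : ∀ x ∈ soE E, ∀ y ∈ J, x * y - y * x ∈ J) : J = ⊥ ∨ J = soE E := by
  by_cases hJ0 : J = ⊥
  · exact Or.inl hJ0
  right
  refine le_antisymm hJ ?_
  obtain ⟨y, hy, hy0⟩ := (Submodule.ne_bot_iff J).1 hJ0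
  obtain ⟨r1, r2, r3, r4, r5, r6, r7, r8, r9⟩ := rel3 hE
  have m0 : E 0 * E 1 ∈ soE E := Submodule.subset_span ⟨0, 1, by decide, rfl⟩
  have m1 : E 1 * E 2 ∈ soE E := Submodule.subset_span ⟨1, 2, by decide, rfl⟩
  have m2 : E 2 * E 0 ∈ soE E := Submodule.subset_span ⟨2, 0, by decide, rfl⟩
  -- one of the basis elements is in the ideal
  have hone : ∀ z : Module.End ℂ U, z ∈ J → ∀ r : ℂ, r • z ∈ J := fun z hz r => J.smul_mem r hz
  have cyc0 : E 0 * E 1 ∈ J → E 1 * E 2 ∈ J ∧ E 2 * E 0 ∈ J := by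
    intro h
    have e1 := hbr _ m1 _ h
    have e2 := hbr _ m2 _ h
    rw [r5, r4] at e1
    rw [r8, r9] at e2
    constructor
    · have : E 1 * E 2 = (-(1 / 2) : ℂ) • (-(E 1 * E 2) - E 1 * E 2) := by module
      rw [this]
      exact J.smul_mem _ e2
    · have : E 2 * E 0 = (1 / 2 : ℂ) • (E 2 * E 0 - -(E 2 * E 0)) := by module
      rw [this]
      exact J.smul_mem _ e1
  have cyc1 : E 1 * E 2 ∈ J → E 0 * E 1 ∈ J := by
    intro h
    have e2 := hbr _ m2 _ h
    rw [r7, r6] at e2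
    have : E 0 * E 1 = (1 / 2 : ℂ) • (E 0 * E 1 - -(E 0 * E 1)) := by module
    rw [this]
    exact J.smul_mem _ e2
  have cyc2 : E 2 * E 0 ∈ J → E 0 * E 1 ∈ J := by
    intro h
    have e2 := hbr _ m1 _ h
    rw [r6, r7] at e2
    have : E 0 * E 1 = (-(1 / 2) : ℂ) • (-(E 0 * E 1) - E 0 * E 1) := by module
    rw [this]
    exact J.smul_mem _ e2
  have key : E 0 * E 1 ∈ J := by
    obtain ⟨a, b, c, rfl⟩ := mem3 hE (hJ hy)
    -- double brackets with the basis elements
    have d0 := hbr _ m0 _ (hbr _ m0 _ hy)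
    have d1 := hbr _ m1 _ (hbr _ m1 _ hy)
    have d2 := hbr _ m2 _ (hbr _ m2 _ hy)
    simp only [add_mul, mul_add, smul_mul_assoc, mul_smul_comm, mul_sub, sub_mul, mul_neg, neg_mul,
      r1, r2, r3, r4, r5, r6, r7, r8, r9, mul_one, one_mul, smul_neg, neg_neg] at d0 d1 d2
    by_cases ha : a = 0
    · by_cases hb : b = 0
      · have hc : c ≠ 0 := by
          rintro rfl
          apply hy0
          rw [ha, hb]
          simp
        apply cyc2
        have : E 2 * E 0 = c⁻¹ • (a • (E 0 * E 1) + b • (E 1 * E 2) + c • (E 2 * E 0)) := by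
          rw [ha, hb, zero_smul, zero_smul, zero_add, zero_add, smul_smul, inv_mul_cancel₀ hc,
            one_smul]
        rw [this]
        exact J.smul_mem _ hy
      · apply cyc1
        have h1 := J.add_mem hy (J.smul_mem (1 / 4 : ℂ) d1)
        have h2 := J.smul_mem b⁻¹ h1
        convert h2 using 1
        trans (b⁻¹ * b) • (E 1 * E 2)
        · rw [inv_mul_cancel₀ hb, one_smul]
        · rw [ha]
          module
    · have h1 := J.add_mem hy (J.smul_mem (1 / 4 : ℂ) d0)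
      have h2 := J.smul_mem a⁻¹ h1
      convert h2 using 1
      trans (a⁻¹ * a) • (E 0 * E 1)
      · rw [inv_mul_cancel₀ ha, one_smul]
      · module
  refine Submodule.span_le.2 ?_
  have h3 := cyc0 key
  rintro _ ⟨i, j, hij, rfl⟩
  obtain ⟨a, b, c, h⟩ := mem3 hE (Submodule.subset_span ⟨i, j, hij, rfl⟩ : E i * E j ∈ soE E)
  rw [h]
  exact J.add_mem (J.add_mem (J.smul_mem _ key) (J.smul_mem _ h3.1)) (J.smul_mem _ h3.2)

end three

/-- Traces vanish. -/
theorem trace_soE {n : ℕ} {E : Fin n → Module.End ℂ U} (hE : CE E) {x : Module.End ℂ U}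
    (hx : x ∈ soE E) : LinearMap.trace ℂ U x = 0 := by
  induction hx using Submodule.span_induction with
  | mem x hx =>
    obtain ⟨i, j, hij, rfl⟩ := hx
    have h1 : LinearMap.trace ℂ U (E i * E j) = -LinearMap.trace ℂ U (E i * E j) := by
      conv_lhs => rw [hE.anti i j hij, map_neg, LinearMap.trace_mul_comm]
    have h2 : (2 : ℂ) * LinearMap.trace ℂ U (E i * E j) = 0 := by linear_combination h1
    exact (mul_eq_zero.1 h2).resolve_left two_ne_zero
  | zero => exact map_zero _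
  | add x y _ _ hx hy => rw [map_add, hx, hy, add_zero]
  | smul r x _ hx => rw [map_smul, hx, smul_zero]

variable [FiniteDimensional ℂ U] [Nontrivial U]

/-- A Lie subalgebra of `so(3)` which generates the even Clifford algebra is `so(3)`. -/
theorem main3 {E : Fin 3 → Module.End ℂ U} (hE : CE E)
    (𝔥 : Submodule ℂ (Module.End ℂ U)) (h𝔥 : 𝔥 ≤ soE E)
    (hbr : ∀ x ∈ 𝔥, ∀ y ∈ 𝔥, x * y - y * x ∈ 𝔥)
    (gen : ∀ i j, E i * E j ∈ Algebra.adjoin ℂ (𝔥 : Set (Module.End ℂ U))) :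
    soE E ≤ 𝔥 := by
  have key : ∀ a ∈ Algebra.adjoin ℂ (𝔥 : Set (Module.End ℂ U)),
      ∃ r : ℂ, ∃ h ∈ 𝔥, a = r • (1 : Module.End ℂ U) + h := by
    intro a ha
    induction ha using Algebra.adjoin_induction with
    | mem x hx => exact ⟨0, x, hx, by rw [zero_smul, zero_add]⟩
    | algebraMap r => exact ⟨r, 0, 𝔥.zero_mem, by
        rw [add_zero]
        exact Algebra.algebraMap_eq_smul_one r⟩
    | add x y _ _ hx hy =>
      obtain ⟨r, h, hh, rfl⟩ := hx
      obtain ⟨r', h', hh', rfl⟩ := hy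
      exact ⟨r + r', h + h', 𝔥.add_mem hh hh', by module⟩
    | mul x y _ _ hx hy =>
      obtain ⟨r, h, hh, rfl⟩ := hx
      obtain ⟨r', h', hh', rfl⟩ := hy
      obtain ⟨s, hs⟩ := sym3 hE (h𝔥 hh) (h𝔥 hh')
      refine ⟨r * r' + s / 2, r • h' + r' • h + (1 / 2 : ℂ) • (h * h' - h' * h), ?_, ?_⟩
      · exact 𝔥.add_mem (𝔥.add_mem (𝔥.smul_mem _ hh') (𝔥.smul_mem _ hh))
          (𝔥.smul_mem _ (hbr h hh h' hh'))
      · have h1 : h * h' = (1 / 2 : ℂ) • (h * h' + h' * h) + (1 / 2 : ℂ) • (h * h' - h' * h) := by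
          module
        have h2 : (r • (1 : Module.End ℂ U) + h) * (r' • 1 + h') =
            (r * r') • 1 + r • h' + r' • h + h * h' := by
          simp only [add_mul, mul_add, smul_mul_assoc, mul_smul_comm, one_mul, mul_one]
          module
        rw [h2]
        conv_lhs => rw [h1, hs]
        module
  refine Submodule.span_le.2 ?_
  rintro _ ⟨i, j, hij, rfl⟩
  obtain ⟨r, h, hh, h1⟩ := key _ (gen i j)
  have h2 := trace_soE hE (Submodule.subset_span ⟨i, j, hij, rfl⟩ : E i * E j ∈ soE E)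
  rw [h1, map_add, map_smul, trace_soE hE (h𝔥 hh), add_zero, LinearMap.trace_one, smul_eq_mul] at h2
  have h3 : (finrank ℂ U : ℂ) ≠ 0 := by exact_mod_cast (finrank_pos (R := ℂ) (M := U)).ne'
  have h4 : r = 0 := (mul_eq_zero.1 h2).resolve_right h3
  rw [h1, h4, zero_smul, zero_add]
  exact hh

/-- The dimension is at least `n - 1`. -/
theorem dim_ge {n : ℕ} {E : Fin n → Module.End ℂ U} (hE : CE E) (hn : 1 ≤ n) :
    n - 1 ≤ finrank ℂ (soE E) := by
  obtain ⟨m, rfl⟩ : ∃ m, n = m + 1 := ⟨n - 1, by omega⟩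
  have h1 : LinearIndependent ℂ (fun i : Fin m => E 0 * E i.succ) := by
    have h2 : LinearIndependent ℂ (fun i : Fin m => E i.succ) :=
      (Cl_indep hE).comp _ (Fin.succ_injective m)
    have h3 : Function.Injective (LinearMap.mulLeft ℂ (E 0)) := by
      intro x y hxy
      have h4 : E 0 * (E 0 * x) = E 0 * (E 0 * y) := congrArg (E 0 * ·) hxy
      rwa [← mul_assoc, ← mul_assoc, hE.sq, one_mul, one_mul] at h4
    exact h2.map' (LinearMap.mulLeft ℂ (E 0)) (LinearMap.ker_eq_bot.2 h3)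
  have h2 : ∀ i : Fin m, E 0 * E i.succ ∈ soE E := fun i =>
    Submodule.subset_span ⟨0, i.succ, (Fin.succ_ne_zero i).symm, rfl⟩
  have h3 : LinearIndependent ℂ (fun i : Fin m => (⟨E 0 * E i.succ, h2 i⟩ : soE E)) := by
    refine LinearIndependent.of_comp (soE E).subtype ?_
    exact h1
  have h4 := h3.fintype_card_le_finrank
  rw [Fintype.card_fin] at h4
  simpa using h4

theorem dim_le3 {E : Fin 3 → Module.End ℂ U} (hE : CE E) : finrank ℂ (soE E) ≤ 3 := by
  have h1 := Submodule.finrank_mono (soE_span3 hE)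
  refine h1.trans ?_
  exact finrank_range_le_card (R := ℂ) ![E 0 * E 1, E 1 * E 2, E 2 * E 0]

end Pool.Agent.K1H15.K3
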