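import Pool.Agent.K1H15.K3.Mk

set_option autoImplicit false
set_option linter.unusedSectionVars false
set_option linter.unusedVariables false

/-!
# The structure of a spin representation with respect to a Cartan subalgebra
-/

open Module

namespace Pool.Agent.K1H15.K3

open Pool.Agent.Y102.SP

variable {L T U : Type} [LieRing L] [LieAlgebra ℂ L] [AddCommGroup T] [Module ℂ T]
  [AddCommGroup U] [Module ℂ U]

theorem wsp_mul {ι : T →ₗ[ℂ] Module.End ℂ U} {χ ψ : Module.Dual ℂ T} {x y : Module.End ℂ U}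
    (hx : x ∈ wsp ι χ) (hy : y ∈ wsp ι ψ) : x * y ∈ wsp ι (χ + ψ) := by
  intro t
  have h1 := hx t
  have h2 := hy t
  have e : ι t * (x * y) - x * y * ι t =
      (ι t * x - x * ι t) * y + x * (ι t * y - y * ι t) := by
    noncomm_ring
  rw [e, h1, h2, LinearMap.add_apply, add_smul, smul_mul_assoc, mul_smul_comm]

variable [FiniteDimensional ℂ U] [Nontrivial U] (S : Spin L U) (A : AbsRoot L T)

namespace Spin

/-- The weights of the vectors. -/
def Om : Set (Module.Dual ℂ T) := (S.sys A).Om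

/-- The weight spaces of the vectors. -/
noncomputable def vw (χ : Module.Dual ℂ T) : Submodule ℂ (Module.End ℂ U) := (S.sys A).vw χ

theorem mem_vw {χ : Module.Dual ℂ T} {x : Module.End ℂ U} :
    x ∈ S.vw A χ ↔ x ∈ VE S.E ∧ x ∈ wsp (io A S.ρ) χ := Iff.rfl

theorem om_exists {χ : Module.Dual ℂ T} (h : χ ∈ S.Om A) : ∃ x ∈ S.vw A χ, x ≠ 0 :=
  Submodule.exists_mem_ne_zero_of_ne_bot h

theorem om_mem {χ : Module.Dual ℂ T} {x : Module.End ℂ U} (hx : x ∈ S.vw A χ) (h0 : x ≠ 0) :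
    χ ∈ S.Om A := fun h => h0 (by
  have h1 : x ∈ (⊥ : Submodule ℂ (Module.End ℂ U)) := by rw [← h]; exact hx
  exact (Submodule.mem_bot ℂ).1 h1)

theorem om_neg {χ : Module.Dual ℂ T} (h : χ ∈ S.Om A) : -χ ∈ S.Om A := (S.sys A).neg_mem h

theorem anti {χ ψ : Module.Dual ℂ T} {x y : Module.End ℂ U} (hx : x ∈ S.vw A χ)
    (hy : y ∈ S.vw A ψ) (h : χ + ψ ≠ 0) : x * y = -(y * x) := (S.sys A).anti hx hy h

theorem orth {χ ψ : Module.Dual ℂ T} {x y : Module.End ℂ U} (hx : x ∈ S.vw A χ)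
    (hy : y ∈ S.vw A ψ) (h : χ + ψ ≠ 0) : bil x y = 0 := (S.sys A).orth hx hy h

theorem sq_zero {χ : Module.Dual ℂ T} {x : Module.End ℂ U} (hx : x ∈ S.vw A χ) (h : χ ≠ 0) :
    x * x = 0 := (S.sys A).sq_zero hx h

theorem two_ne {χ : Module.Dual ℂ T} (h : χ ≠ 0) : χ + χ ≠ 0 := by
  intro h3
  apply h
  rw [← two_smul ℂ χ] at h3
  exact (smul_eq_zero.1 h3).resolve_left two_ne_zero

theorem clif {x y : Module.End ℂ U} (hx : x ∈ VE S.E) (hy : y ∈ VE S.E) :
    x * y + y * x = bil x y • (1 : Module.End ℂ U) := S.hE.clif.anti x hx y hy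

/-- The weight spaces of the Lie algebra. -/
noncomputable def Wd (γ : Module.Dual ℂ T) : Submodule ℂ (Module.End ℂ U) :=
  open Classical in
  (if γ = 0 then LinearMap.range (io A S.ρ) else ⊥) ⊔
    (if γ ∈ A.R.Φ then Submodule.span ℂ {S.ρ (A.e γ)} else ⊥)

theorem io_wsp (t : T) : io A S.ρ t ∈ wsp (io A S.ρ) 0 := fun s => by
  rw [rep_comm A S.rep, sub_self, LinearMap.zero_apply, zero_smul]

theorem Wd_le (γ : Module.Dual ℂ T) : S.Wd A γ ≤ wsp (io A S.ρ) γ := by
  unfold Wd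
  refine sup_le ?_ ?_
  · split_ifs with h
    · rintro _ ⟨t, rfl⟩
      rw [h]
      exact S.io_wsp A t
    · exact bot_le
  · split_ifs with h
    · rw [Submodule.span_singleton_le_iff_mem]
      exact rep_wt A S.rep h
    · exact bot_le

theorem soE_le_Wd : soE S.E ≤ ⨆ γ, S.Wd A γ := by
  refine (S.hspan A).trans (sup_le ?_ ?_)
  · refine le_trans ?_ (le_iSup (fun γ => S.Wd A γ) 0)
    change _ ≤ S.Wd A 0
    unfold Wd
    rw [if_pos rfl]
    exact le_sup_left
  · rw [Submodule.span_le]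
    rintro _ ⟨α, hα, rfl⟩
    refine Submodule.mem_iSup_of_mem α ?_
    unfold Wd
    rw [if_pos hα]
    exact Submodule.mem_sup_right (Submodule.mem_span_singleton_self _)

theorem soE_wt {z : Module.End ℂ U} (hz : z ∈ soE S.E) {β : Module.Dual ℂ T} (hβ : β ≠ 0)
    (hw : z ∈ wsp (io A S.ρ) β) (h0 : z ≠ 0) :
    β ∈ A.R.Φ ∧ ∃ c : ℂ, c ≠ 0 ∧ z = c • S.ρ (A.e β) := by
  have h1 : z ∈ S.Wd A β := Sys.Bil_proj (S.sys A).wsp_indep (S.Wd_le A) hw (S.soE_le_Wd A hz)
  unfold Wd at h1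
  rw [if_neg hβ, bot_sup_eq] at h1
  split_ifs at h1 with h
  · obtain ⟨c, hc⟩ := Submodule.mem_span_singleton.1 h1
    refine ⟨h, c, ?_, hc.symm⟩
    rintro rfl
    rw [zero_smul] at hc
    exact h0 hc.symm
  · exact absurd ((Submodule.mem_bot ℂ).1 h1) h0

theorem soE_wt0 {z : Module.End ℂ U} (hz : z ∈ soE S.E) (hw : z ∈ wsp (io A S.ρ) 0) :
    ∃ t, io A S.ρ t = z := by
  have h1 : z ∈ S.Wd A 0 := Sys.Bil_proj (S.sys A).wsp_indep (S.Wd_le A) hw (S.soE_le_Wd A hz)
  unfold Wd at h1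
  rw [if_pos rfl, if_neg A.R.zero, sup_bot_eq] at h1
  exact h1

theorem comm_mem {x y : Module.End ℂ U} (hx : x ∈ VE S.E) (hy : y ∈ VE S.E) :
    x * y - y * x ∈ soE S.E := by
  rw [soE_eq S.hE]
  exact Submodule.subset_span ⟨x, hx, y, hy, rfl⟩

theorem prod_mem {χ ψ : Module.Dual ℂ T} {x y : Module.End ℂ U} (hx : x ∈ S.vw A χ)
    (hy : y ∈ S.vw A ψ) (h : χ + ψ ≠ 0) : x * y ∈ soE S.E := by
  have h1 := S.anti A hx hy h
  have h2 : x * y = (1 / 2 : ℂ) • (x * y - y * x) := by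
    have h3 : y * x = -(x * y) := by rw [h1, neg_neg]
    rw [h3, sub_neg_eq_add, ← two_smul ℂ (x * y), smul_smul]
    norm_num
  rw [h2]
  exact Submodule.smul_mem _ _ (S.comm_mem hx.1 hy.1)

/-- Products of weight vectors are root vectors. -/
theorem prod_root {χ ψ : Module.Dual ℂ T} {x y : Module.End ℂ U} (hx : x ∈ S.vw A χ)
    (hy : y ∈ S.vw A ψ) (h : χ + ψ ≠ 0) (h0 : x * y ≠ 0) :
    χ + ψ ∈ A.R.Φ ∧ ∃ c : ℂ, c ≠ 0 ∧ x * y = c • S.ρ (A.e (χ + ψ)) :=
  S.soE_wt A (S.prod_mem A hx hy h) h (wsp_mul hx.2 hy.2) h0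

theorem exists_dual {χ : Module.Dual ℂ T} {x : Module.End ℂ U} (hx : x ∈ S.vw A χ) (hx0 : x ≠ 0) :
    ∃ y ∈ S.vw A (-χ), bil x y = 1 ∧ x * y + y * x = 1 := by
  obtain ⟨y, hy, h1⟩ := (S.sys A).dual hx hx0
  exact ⟨y, hy, h1, by rw [S.clif hx.1 hy.1, h1, one_smul]⟩

theorem prod_ne {χ ψ : Module.Dual ℂ T} {x y : Module.End ℂ U} (hx : x ∈ S.vw A χ)
    (hy : y ∈ S.vw A ψ) (h : χ ≠ ψ) (hx0 : x ≠ 0) (hy0 : y ≠ 0) : x * y ≠ 0 := by
  intro h0
  obtain ⟨x', hx', -, h1⟩ := S.exists_dual A hx hx0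
  have h2 : x' * y = -(y * x') := S.anti A hx' hy (by
    rw [neg_add_eq_sub, sub_ne_zero]
    exact h.symm)
  apply hy0
  calc y = (x * x' + x' * x) * y := by rw [h1, one_mul]
    _ = x * (x' * y) + x' * (x * y) := by noncomm_ring
    _ = 0 := by rw [h0, h2, mul_neg, ← mul_assoc, h0, zero_mul, neg_zero, mul_zero, add_zero]

/-- The roots are sums of two weights, and the root vectors are products. -/
theorem root_form {α : Module.Dual ℂ T} (hα : α ∈ A.R.Φ) :
    ∃ a b, a + b = α ∧ ∃ v ∈ S.vw A a, ∃ w ∈ S.vw A b, v * w ≠ 0 ∧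
      ∃ c : ℂ, S.ρ (A.e α) = c • (v * w) := by
  have h0 : α ≠ 0 := fun h => A.R.zero (h ▸ hα)
  have h1 := (S.sys A).so_wt h0 (S.mem (A.e α)) (rep_wt A S.rep hα)
  have h2 : ∃ z ∈ {z | ∃ c d, c + d = α ∧ ∃ v ∈ S.vw A c, ∃ w ∈ S.vw A d, z = v * w}, z ≠ 0 := by
    by_contra hcon
    push Not at hcon
    have h3 : Submodule.span ℂ {z | ∃ c d, c + d = α ∧ ∃ v ∈ S.vw A c, ∃ w ∈ S.vw A d,
        z = v * w} ≤ ⊥ := Submodule.span_le.2 fun z hz => by
      rw [SetLike.mem_coe, Submodule.mem_bot]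
      exact hcon z hz
    have h4 := h3 h1
    rw [Submodule.mem_bot] at h4
    exact A.ene α hα (S.inj (by rw [h4, map_zero]))
  obtain ⟨_, ⟨a, b, hab, v, hv, w, hw, rfl⟩, hne⟩ := h2
  refine ⟨a, b, hab, v, hv, w, hw, hne, ?_⟩
  obtain ⟨-, c, hc, h3⟩ := S.prod_root A hv hw (by rw [hab]; exact h0) hne
  refine ⟨c⁻¹, ?_⟩
  rw [h3, smul_smul, inv_mul_cancel₀ hc, one_smul, hab]

/-- Spin representations are minuscule. -/
theorem isMin : IsMin A S.ρ := by
  intro α hα
  have h0 : α ≠ 0 := fun h => A.R.zero (h ▸ hα)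
  refine ⟨fun h => A.ene α hα (S.inj (by rw [h, map_zero])), ?_⟩
  obtain ⟨a, b, hab, v, hv, w, hw, -, c, hc⟩ := S.root_form A hα
  have h1 : v * w = -(w * v) := S.anti A hv hw (by rw [hab]; exact h0)
  have h2 : v * w * (v * w) = -(v * v * (w * w)) := by
    calc v * w * (v * w) = v * (w * v) * w := by noncomm_ring
      _ = v * -(v * w) * w := by rw [h1, neg_neg]
      _ = -(v * v * (w * w)) := by noncomm_ring
  have h3 : v * v * (w * w) = 0 := by
    by_cases ha : a = 0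
    · have hb : b ≠ 0 := by
        rintro rfl
        rw [ha, add_zero] at hab
        exact h0 hab.symm
      rw [S.sq_zero A hw hb, mul_zero]
    · rw [S.sq_zero A hv ha, zero_mul]
  rw [hc, smul_mul_assoc, mul_smul_comm, h2, h3, neg_zero, smul_zero, smul_zero]

/-- `t` is the coordinate for the weight `χ`. -/
structure Co (χ : Module.Dual ℂ T) (t : T) (x y : Module.End ℂ U) : Prop where
  ne : χ ≠ 0
  hx : x ∈ S.vw A χ
  hy : y ∈ S.vw A (-χ)
  bil : bil x y = 1
  one : x * y + y * x = 1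
  eq : io A S.ρ t = (1 / 2 : ℂ) • (x * y - y * x)

theorem exists_co {χ : Module.Dual ℂ T} (hχ : χ ∈ S.Om A) (h0 : χ ≠ 0) :
    ∃ t x y, S.Co A χ t x y := by
  obtain ⟨x, hx, hx0⟩ := S.om_exists A hχ
  obtain ⟨y, hy, h1, h2⟩ := S.exists_dual A hx hx0
  have h3 : x * y ∈ wsp (io A S.ρ) 0 := by
    have := wsp_mul hx.2 hy.2
    rwa [add_neg_cancel] at this
  have h4 : y * x ∈ wsp (io A S.ρ) 0 := by
    have := wsp_mul hy.2 hx.2
    rwa [neg_add_cancel] at this
  obtain ⟨t, ht⟩ := S.soE_wt0 A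
    (Submodule.smul_mem _ (1 / 2 : ℂ) (S.comm_mem hx.1 hy.1))
    (Submodule.smul_mem _ (1 / 2 : ℂ) (Submodule.sub_mem _ h3 h4))
  exact ⟨t, x, y, h0, hx, hy, h1, h2, ht⟩

variable {S A}

namespace Co

variable {χ : Module.Dual ℂ T} {t : T} {x y : Module.End ℂ U} (h : S.Co A χ t x y)
include h

theorem neg : S.Co A (-χ) (-t) y x where
  ne := neg_ne_zero.2 h.ne
  hx := h.hy
  hy := by
    rw [neg_neg]
    exact h.hx
  bil := by rw [bil_comm, h.bil]
  one := by rw [add_comm, h.one]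
  eq := by rw [map_neg, h.eq, ← smul_neg, neg_sub]

theorem act {z : Module.End ℂ U} (hz : z ∈ VE S.E) : io A S.ρ t * z - z * io A S.ρ t =
    Pool.Agent.Y102.SP.bil y z • x - Pool.Agent.Y102.SP.bil x z • y := by
  have h1 := S.clif h.hx.1 hz
  have h2 := S.clif h.hy.1 hz
  have e1 : x * y * z - z * (x * y) = Pool.Agent.Y102.SP.bil y z • x -
      Pool.Agent.Y102.SP.bil x z • y := by
    calc x * y * z - z * (x * y) = x * (y * z + z * y) - (x * z + z * x) * y := by noncomm_ring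
      _ = _ := by rw [h1, h2, mul_smul_comm, smul_mul_assoc, mul_one, one_mul]
  have e2 : y * x * z - z * (y * x) = Pool.Agent.Y102.SP.bil x z • y -
      Pool.Agent.Y102.SP.bil y z • x := by
    calc y * x * z - z * (y * x) = y * (x * z + z * x) - (y * z + z * y) * x := by noncomm_ring
      _ = _ := by rw [h1, h2, mul_smul_comm, smul_mul_assoc, mul_one, one_mul]
  have e3 : io A S.ρ t * z - z * io A S.ρ t =
      (1 / 2 : ℂ) • ((x * y * z - z * (x * y)) - (y * x * z - z * (y * x))) := by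
    rw [h.eq, smul_mul_assoc, mul_smul_comm, ← smul_sub]
    congr 1
    noncomm_ring
  rw [e3, e1, e2]
  module

theorem self : χ t = 1 := by
  have h1 : io A S.ρ t * x - x * io A S.ρ t = χ t • x := h.hx.2 t
  rw [h.act h.hx.1, S.orth A h.hx h.hx (two_ne h.ne), zero_smul, sub_zero, bil_comm, h.bil,
    one_smul] at h1
  have hx0 : x ≠ 0 := by
    rintro rfl
    have := h.one
    rw [zero_mul, mul_zero, add_zero] at this
    exact zero_ne_one this
  have h2 : (χ t - 1) • x = 0 := by rw [sub_smul, one_smul, ← h1, sub_self]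
  exact sub_eq_zero.1 ((smul_eq_zero.1 h2).resolve_right hx0)

theorem other {ψ : Module.Dual ℂ T} (hψ : ψ ∈ S.Om A) (h1 : ψ ≠ χ) (h2 : ψ ≠ -χ) : ψ t = 0 := by
  obtain ⟨z, hz, hz0⟩ := S.om_exists A hψ
  have h3 : io A S.ρ t * z - z * io A S.ρ t = ψ t • z := hz.2 t
  rw [h.act hz.1, S.orth A h.hx hz (by
      intro h4
      exact h2 (eq_neg_of_add_eq_zero_right h4)),
    S.orth A h.hy hz (by
      intro h4
      rw [neg_add_eq_zero] at h4
      exact h1 h4.symm), zero_smul, zero_smul, sub_zero] at h3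
  exact (smul_eq_zero.1 h3.symm).resolve_right hz0

theorem line {z : Module.End ℂ U} (hz : z ∈ S.vw A χ) : z = Pool.Agent.Y102.SP.bil y z • x := by
  have h1 : io A S.ρ t * z - z * io A S.ρ t = χ t • z := hz.2 t
  rw [h.act hz.1, S.orth A h.hx hz (two_ne h.ne), zero_smul, sub_zero, h.self, one_smul] at h1
  exact h1.symm

theorem half {ω : Module.Dual ℂ T} (hω : usp (io A S.ρ) ω ≠ ⊥) : ω t = 1 / 2 ∨ ω t = -1 / 2 := by
  obtain ⟨u, hu, hu0⟩ := Submodule.exists_mem_ne_zero_of_ne_bot hω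
  have hyx : y * x = 1 - x * y := by rw [← h.one]; abel
  have h1 : x * y * (x * y) = x * y := by
    calc x * y * (x * y) = x * (y * x) * y := by noncomm_ring
      _ = x * y - x * x * y * y := by rw [hyx]; noncomm_ring
      _ = x * y := by rw [S.sq_zero A h.hx h.ne, zero_mul, zero_mul, sub_zero]
  have h2 : x * y = io A S.ρ t + (1 / 2 : ℂ) • 1 := by
    rw [h.eq, hyx]
    module
  have h3 : (x * y) u = (ω t + 1 / 2) • u := by
    rw [h2, LinearMap.add_apply, LinearMap.smul_apply, Module.End.one_apply, hu t, add_smul]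
  have h4 : (x * y) ((x * y) u) = (x * y) u := by
    rw [← Module.End.mul_apply, h1]
  rw [h3, map_smul, h3, smul_smul] at h4
  have h5 : ((ω t + 1 / 2) * (ω t + 1 / 2) - (ω t + 1 / 2)) • u = 0 := by
    rw [sub_smul, h4, sub_self]
  have h6 := (smul_eq_zero.1 h5).resolve_right hu0
  have h7 : (ω t + 1 / 2) * (ω t - 1 / 2) = 0 := by linear_combination h6
  rcases mul_eq_zero.1 h7 with h8 | h8
  · right
    linear_combination h8
  · left
    linear_combination h8

/-- The coroot of a sum of two weights. -/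
theorem coroot {χ' : Module.Dual ℂ T} {t' : T} {x' y' : Module.End ℂ U} (h' : S.Co A χ' t' x' y')
    (h1 : χ' ≠ χ) (h2 : χ' ≠ -χ) : χ + χ' ∈ A.R.Φ ∧ A.h (χ + χ') = t + t' := by
  have hx0 : x ≠ 0 := by
    rintro rfl
    have := h.one
    rw [zero_mul, mul_zero, add_zero] at this
    exact zero_ne_one this
  have hx0' : x' ≠ 0 := by
    rintro rfl
    have := h'.one
    rw [zero_mul, mul_zero, add_zero] at this
    exact zero_ne_one this
  have hy0 : y ≠ 0 := by
    rintro rfl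
    have := h.one
    rw [zero_mul, mul_zero, add_zero] at this
    exact zero_ne_one this
  have hy0' : y' ≠ 0 := by
    rintro rfl
    have := h'.one
    rw [zero_mul, mul_zero, add_zero] at this
    exact zero_ne_one this
  have hs : χ + χ' ≠ 0 := fun h3 => h2 (eq_neg_of_add_eq_zero_right h3)
  obtain ⟨hΦ, c, hc, e1⟩ := S.prod_root A h.hx h'.hx hs (S.prod_ne A h.hx h'.hx h1.symm hx0 hx0')
  have hs' : -χ' + -χ ≠ 0 := by
    intro h3
    apply hs
    rw [← neg_eq_zero, neg_add_rev]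
    exact h3
  obtain ⟨-, c', hc', e2⟩ := S.prod_root A h'.hy h.hy hs' (S.prod_ne A h'.hy h.hy
    (fun h3 => h1 (neg_injective h3)) hy0' hy0)
  have hneg : -χ' + -χ = -(χ + χ') := by rw [neg_add_rev]
  rw [hneg] at e2
  refine ⟨hΦ, ?_⟩
  -- the bracket of the products
  have a1 : x * x' = -(x' * x) := S.anti A h.hx h'.hx hs
  have a2 : x * y' = -(y' * x) := S.anti A h.hx h'.hy (by
    rw [← sub_eq_add_neg, sub_ne_zero]
    exact h1.symm)
  have a3 : x' * y = -(y * x') := S.anti A h'.hx h.hy (by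
    rw [← sub_eq_add_neg, sub_ne_zero]
    exact h1)
  have a4 : y' * y = -(y * y') := S.anti A h'.hy h.hy hs'
  have hyx : y * x = 1 - x * y := by rw [← h.one]; abel
  have hyx' : y' * x' = 1 - x' * y' := by rw [← h'.one]; abel
  have b1 : x * x' * (y' * y) = x * y * (x' * y') := by
    calc x * x' * (y' * y) = -(x * (x' * (y * y'))) := by rw [a4]; noncomm_ring
      _ = -(x * ((x' * y) * y')) := by noncomm_ring
      _ = x * y * (x' * y') := by rw [a3]; noncomm_ring
  have b2 : y' * y * (x * x') = (1 - x * y) * (1 - x' * y') := by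
    calc y' * y * (x * x') = -(y * (y' * x) * x') := by rw [a4]; noncomm_ring
      _ = y * x * (y' * x') := by
        have : y' * x = -(x * y') := by rw [a2, neg_neg]
        rw [this]
        noncomm_ring
      _ = _ := by rw [hyx, hyx']
  have b3 : x * x' * (y' * y) - y' * y * (x * x') = io A S.ρ (t + t') := by
    rw [b1, b2, map_add, h.eq, h'.eq, hyx, hyx']
    have : x * y * (x' * y') - (1 - x * y) * (1 - x' * y') = x * y + x' * y' - 1 := by
      noncomm_ring
    rw [this]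
    module
  have b4 : (c * c') • io A S.ρ (A.h (χ + χ')) = io A S.ρ (t + t') := by
    rw [← b3, e1, e2, ← rep_br A S.rep hΦ]
    simp only [smul_mul_assoc, mul_smul_comm, smul_smul, smul_sub]
    rw [mul_comm c' c]
  have b5 : (c * c') • A.h (χ + χ') = t + t' := by
    apply A.inj
    apply S.inj
    rw [map_smul, map_smul]
    exact b4
  have b6 : (χ + χ') (t + t') = 2 := by
    have e3 : χ' t = 0 := h.other (S.om_mem A h'.hx hx0') h1 h2
    have e4 : χ t' = 0 := h'.other (S.om_mem A h.hx hx0) h1.symm (fun h3 => h2 (by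
      rw [h3, neg_neg]))
    rw [LinearMap.add_apply, map_add, map_add, h.self, h'.self, e3, e4]
    norm_num
  have b7 : c * c' = 1 := by
    have h3 := congrArg (χ + χ') b5
    rw [map_smul, b6, h_two A hΦ, smul_eq_mul] at h3
    have h4 : (c * c' - 1) * 2 = 0 := by linear_combination h3
    rcases mul_eq_zero.1 h4 with h5 | h5
    · linear_combination h5
    · norm_num at h5
  rw [b7, one_smul] at b5
  exact b5

/-- The coroot of a short root. -/
theorem coroot0 (h0 : (0 : Module.Dual ℂ T) ∈ S.Om A) : χ ∈ A.R.Φ ∧ A.h χ = (2 : ℂ) • t := by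
  have hx0 : x ≠ 0 := by
    rintro rfl
    have := h.one
    rw [zero_mul, mul_zero, add_zero] at this
    exact zero_ne_one this
  have hy0 : y ≠ 0 := by
    rintro rfl
    have := h.one
    rw [zero_mul, mul_zero, add_zero] at this
    exact zero_ne_one this
  -- a vector of weight zero with square one
  obtain ⟨m, hm, hmm⟩ : ∃ m ∈ S.vw A 0, m * m = 1 := by
    obtain ⟨a, ha, ha0⟩ := S.om_exists A h0
    obtain ⟨b, hb, hab, -⟩ := S.exists_dual A ha ha0
    rw [neg_zero] at hb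
    have key : ∃ m ∈ S.vw A 0, Pool.Agent.Y102.SP.bil m m ≠ 0 := by
      by_contra hcon
      push Not at hcon
      have h1 := hcon (a + b) (Submodule.add_mem _ ha hb)
      rw [bil_add_left, bil_add_right, bil_add_right, hcon a ha, hcon b hb, bil_comm b a,
        hab] at h1
      norm_num at h1
    obtain ⟨m, hm, hm0⟩ := key
    have h1 := S.clif hm.1 hm.1
    obtain ⟨r, hr⟩ := IsAlgClosed.exists_pow_nat_eq (2 / Pool.Agent.Y102.SP.bil m m)
      (show 0 < 2 by norm_num)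
    refine ⟨r • m, Submodule.smul_mem _ _ hm, ?_⟩
    have h2 : (2 : ℂ) • (m * m) = Pool.Agent.Y102.SP.bil m m • (1 : Module.End ℂ U) := by
      rw [two_smul]
      exact h1
    have h3 : m * m = (Pool.Agent.Y102.SP.bil m m / 2) • (1 : Module.End ℂ U) := by
      have h4 : m * m = (1 / 2 : ℂ) • ((2 : ℂ) • (m * m)) := by
        rw [smul_smul]
        norm_num
      rw [h4, h2, smul_smul]
      congr 1
      ring
    rw [smul_mul_assoc, mul_smul_comm, h3, smul_smul, smul_smul]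
    have h4 : r * r * (Pool.Agent.Y102.SP.bil m m / 2) = 1 := by
      have : r * r * (Pool.Agent.Y102.SP.bil m m / 2) =
          r ^ 2 * (Pool.Agent.Y102.SP.bil m m / 2) := by ring
      rw [this, hr]
      field_simp
    rw [h4, one_smul]
  have hm0 : m ≠ 0 := by
    rintro rfl
    rw [zero_mul] at hmm
    exact zero_ne_one hmm
  obtain ⟨hΦ, c, hc, e1⟩ := S.prod_root A h.hx hm (by rw [add_zero]; exact h.ne)
    (S.prod_ne A h.hx hm h.ne hx0 hm0)
  obtain ⟨-, c', hc', e2⟩ := S.prod_root A hm h.hy (by rw [zero_add]; exact neg_ne_zero.2 h.ne)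
    (S.prod_ne A hm h.hy (Ne.symm (neg_ne_zero.2 h.ne)) hm0 hy0)
  rw [add_zero] at hΦ e1
  rw [zero_add] at e2
  refine ⟨hΦ, ?_⟩
  have a1 : x * m = -(m * x) := S.anti A h.hx hm (by rw [add_zero]; exact h.ne)
  have a2 : m * y = -(y * m) := S.anti A hm h.hy (by rw [zero_add]; exact neg_ne_zero.2 h.ne)
  have b1 : x * m * (m * y) = x * y := by
    calc x * m * (m * y) = x * (m * m) * y := by noncomm_ring
      _ = x * y := by rw [hmm, mul_one]
  have b2 : m * y * (x * m) = y * x := by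
    calc m * y * (x * m) = (y * m) * (m * x) := by rw [a1, a2]; noncomm_ring
      _ = y * (m * m) * x := by noncomm_ring
      _ = y * x := by rw [hmm, mul_one]
  have b4 : (c * c') • io A S.ρ (A.h χ) = (2 : ℂ) • io A S.ρ t := by
    have b3 : x * m * (m * y) - m * y * (x * m) = (2 : ℂ) • io A S.ρ t := by
      rw [b1, b2, h.eq, smul_smul]
      norm_num
    rw [← b3, e1, e2, ← rep_br A S.rep hΦ]
    simp only [smul_mul_assoc, mul_smul_comm, smul_smul, smul_sub]
    rw [mul_comm c' c]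
  have b5 : (c * c') • A.h χ = (2 : ℂ) • t := by
    apply A.inj
    apply S.inj
    rw [map_smul, map_smul, map_smul, map_smul]
    exact b4
  have b7 : c * c' = 1 := by
    have h3 := congrArg χ b5
    rw [map_smul, map_smul, h.self, h_two A hΦ, smul_eq_mul, smul_eq_mul] at h3
    have h4 : (c * c' - 1) * 2 = 0 := by linear_combination h3
    rcases mul_eq_zero.1 h4 with h5 | h5
    · linear_combination h5
    · norm_num at h5
  rw [b7, one_smul] at b5
  exact b5

end Co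

end Spin

end Pool.Agent.K1H15.K3
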